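import Pool.Agent.NG5c.Chk

/-!
# Tables of rows and elements
-/

set_option autoImplicit false

namespace Pool.Agent.NG5c

noncomputable section

/-! ### Almost symmetric case -/

def rowsAS : T5 (Nat × Nat) :=
 (((((mk 0x15011404130312021101 0x1000,
 mk 0x15011408130712061005 0x1100),
 (mk 0x1501140c130b110a1009 0x1200,
 mk 0x15011410120f110e100d 0x1300)),
 ((mk 0x15011314121311121011 0x1400,
 mk 0x15001418131712161115 0x15011000),
 (mk 0x1500141c131b121a1019 0x15011100,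
 mk 0x15001420131f111e101d 0x15011200))),
 (((mk 0x15001424122311221021 0x15011300,
 mk 0x15001328122711261025 0x15011400),
 (mk 0x1502142c132b122a1129 0x1000,
 mk 0x15021430132f122e102d 0x1100)),
 ((mk 0x15021434133311321031 0x1200,
 mk 0x15021438123711361035 0x1300),
 (mk 0x1502133c123b113a1039 0x1400,
 mk 0x15001440133f123e113d 0x15021000)))),
 ((((mk 0x15001444134312421041 0x15021100,
 mk 0x15001448134711461045 0x15021200),
 (mk 0x1500144c124b114a1049 0x15021300,
 mk 0x15001350124f114e104d 0x15021400)),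
 ((mk 0x15031454135312521151 0x1000,
 mk 0x15031458135712561055 0x1100),
 (mk 0x1503145c135b115a1059 0x1200,
 mk 0x15031460125f115e105d 0x1300))),
 (((mk 0x15031364126311621061 0x1400,
 mk 0x15001468136712661165 0x15031000),
 (mk 0x1500146c136b126a1069 0x15031100,
 mk 0x15001470136f116e106d 0x15031200)),
 ((mk 0x15001474127311721071 0x15031300,
 mk 0x15001378127711761075 0x15031400),
 (cst1 (mk 0 0))))))

def rwAS : Nat → Nat × Nat := sel5 rowsAS

def elsAS : T3 (Nat × Nat) :=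
 (((mk 0x0 0x0,
 mk 0x1001 0x0),
 (mk 0x1000 0x1001,
 mk 0x1002 0x0)),
 ((mk 0x1000 0x1002,
 mk 0x1003 0x0),
 (mk 0x1000 0x1003,
 mk 0x1000 0x0)))

def eAS : Nat → Nat × Nat := sel3 elsAS

def fbAS : Nat := 0x7f9f9feff7fbfdfe

/-! ### Nearly Gorenstein case -/

def elsNG : T3 (Nat × Nat) :=
 (((mk 0 0,
 mk 0x1000 0),
 (mk 0x1001 0,
 mk 0x1002 0)),
 ((mk 0x1003 0,
 mk 0x1004 0),
 (cst1 (mk 0 0))))

def eNG : Nat → Nat × Nat := sel3 elsNG

def fbNG : Nat := 0x1f2f373b3d3e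

/-- 256 digits of 16 one bits -/
def zAll : Nat := Nat.sub (Nat.pow 2 4096) 1

/-! ### The case `4+1` -/

def rowsS41 : T5 (Nat × Nat) :=
 (((((mk 0x1502130312021101 0x1000,
 mk 0x15021408130712061005 0x1100),
 (mk 0x1502140c130b110a1009 0x1200,
 mk 0x15021410120f110e100d 0x1300)),
 ((mk 0x15021314121311121011 0x1400,
 mk 0x1500131712161115 0x15021000),
 (mk 0x1500141c131b121a1019 0x15021100,
 mk 0x15001420131f111e101d 0x15021200))),
 (((mk 0x15001424122311221021 0x15021300,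
 mk 0x15001328122711261025 0x15021400),
 (mk 0x1503132b122a1129 0x1000,
 mk 0x15031430132f122e102d 0x1100)),
 ((mk 0x15031434133311321031 0x1200,
 mk 0x15031438123711361035 0x1300),
 (mk 0x1503133c123b113a1039 0x1400,
 mk 0x1500133f123e113d 0x15031000)))),
 ((((mk 0x15001444134312421041 0x15031100,
 mk 0x15001448134711461045 0x15031200),
 (mk 0x1500144c124b114a1049 0x15031300,
 mk 0x15001350124f114e104d 0x15031400)),
 ((mk 0x1501135712561055 0x1100,
 mk 0x1501135b115a1059 0x1200),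
 (mk 0x1501125f115e105d 0x1300,
 mk 0x15011400 0x1000))),
 (((mk 0x15041400 0,
 mk 0 0),
 (cst1 (mk 0 0))),
 (cst2 (mk 0 0)))))

def rwS41 : Nat → Nat × Nat := sel5 rowsS41

def elsS41 : T3 (Nat × Nat) :=
 (((mk 0x0 0x0,
 mk 0x1000 0x0),
 (mk 0x1000 0x1001,
 mk 0x1002 0x0)),
 ((mk 0x1000 0x1002,
 mk 0x1003 0x0),
 (mk 0x1000 0x1003,
 mk 0x10041001 0x0)))

def eS41 : Nat → Nat × Nat := sel3 elsS41

def fbS41 : Nat := 0x11f1f6f777b7d7e

end

end Pool.Agent.NG5c
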