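import Pool.Agent.NG5c.Lists
import Pool.Agent.NG5c.Tab
import Pool.Agent.NG5.Assembly

/-!
# The model of the almost symmetric case  (task T6)

Rows: number `r = 5 * e + i` (`e < 6`, `i < 5`) is the row of `e + g i` for the element number `e` of
`f, F - f, h, F - h, k, F - k`. Its variables are the coordinates `m ≠ i` of the lexicographically largest
factorization `y` of `e + g i` (`y i = 0` since `e` is no member); the row is `y - e_i`, its class is `e`.
Class digits: `0` is `F`, `1` is `f`, `2` is `h`, `3` is `k`.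
-/

set_option autoImplicit false

namespace Pool.Agent.NG5c

open Finset Pool.Agent.NG5

/-- the number of the variable -/
def asVar (e i m : ℕ) : ℕ := 1 + (e * 5 + i) * 4 + (if m < i then m else m - 1)

def asP (r : ℕ) : List (ℕ × ℕ) :=
  if 30 ≤ r then [] else
    (((List.range 5).filter (fun m => m ≠ r % 5)).map fun m => (256 * m + asVar (r / 5) (r % 5) m, 1)) ++
      [(1280 + (if r / 5 % 2 = 0 then 1 + r / 10 else 0), 1)]

def asN (r : ℕ) : List (ℕ × ℕ) :=
  if 30 ≤ r then [] else
    (256 * (r % 5), 1) :: (if r / 5 % 2 = 0 then [] else [(1281 + r / 10, 1)])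

theorem rwAS_eq : ∀ r < 32, rwAS r = (num (asP r), num (asN r)) := by decide +kernel

def asEP (a : ℕ) : List (ℕ × ℕ) :=
  if a = 0 then [] else if a = 7 then [(0, 1)] else if a % 2 = 1 then [((a + 1) / 2, 1)] else [(0, 1)]

def asEN (a : ℕ) : List (ℕ × ℕ) :=
  if a = 0 then [] else if a = 7 then [] else if a % 2 = 1 then [] else [(a / 2, 1)]

theorem eAS_eq : ∀ a < 8, eAS a = (num (asEP a), num (asEN a)) := by decide +kernel

/-- the semigroup and its pseudo-Frobenius numbers -/
structure AsData (g : Fin 5 → ℕ) (F f h k : ℤ) : Prop where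
  min : MinGen g
  pF : IsPF g F
  pf : IsPF g f
  pf' : IsPF g (F - f)
  ph : IsPF g h
  ph' : IsPF g (F - h)
  pk : IsPF g k
  pk' : IsPF g (F - k)
  ff : f ≠ F - f
  hh : h ≠ F - h
  hf : h ≠ f
  hf' : h ≠ F - f
  kf : k ≠ f
  kf' : k ≠ F - f
  kh : k ≠ h
  kh' : k ≠ F - h

/-- everything of `Ctx` that does not depend on `Z` -/
structure CtxAS (g : Fin 5 → ℕ) (x : ℕ → ℕ) (Q : ℕ → ℤ) : Prop where
  hg : MinGen g
  x0 : x 0 = 1
  rows : ∀ r, RowOK g x Q (rwAS r)
  els : ∀ a, Bd 8 56 (eAS a).1 ∧ Bd 8 56 (eAS a).2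
  forb : ∀ a < 8, ∀ b < 8, (fbAS >>> (8 * a + b)) &&& 1 = 1 → ∀ y : Fin 5 → ℕ,
    ((∑ i, y i * g i : ℕ) : ℤ) ≠ (ec Q (eAS a).1 - ec Q (eAS a).2) - (ec Q (eAS b).1 - ec Q (eAS b).2)

theorem as_land32 (r c : ℕ) (hc : 31 &&& c = c) : Nat.land r c = Nat.land (r % 32) c := by
  show r &&& c = (r % 32) &&& c
  rw [show r % 32 = r &&& 31 from (Nat.and_two_pow_sub_one_eq_mod r 5).symm, Nat.and_assoc, hc]

theorem as_sel5_mod {α : Type} (t : T5 α) (r : ℕ) : sel5 t r = sel5 t (r % 32) := by
  unfold sel5 sel4 sel3 sel2 sel1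
  rw [as_land32 r 16 (by decide), as_land32 r 8 (by decide), as_land32 r 4 (by decide),
    as_land32 r 2 (by decide), as_land32 r 1 (by decide)]

theorem as_land8 (r c : ℕ) (hc : 7 &&& c = c) : Nat.land r c = Nat.land (r % 8) c := by
  show r &&& c = (r % 8) &&& c
  rw [show r % 8 = r &&& 7 from (Nat.and_two_pow_sub_one_eq_mod r 3).symm, Nat.and_assoc, hc]

theorem as_sel3_mod {α : Type} (t : T3 α) (r : ℕ) : sel3 t r = sel3 t (r % 8) := by
  unfold sel3 sel2 sel1
  rw [as_land8 r 4 (by decide), as_land8 r 2 (by decide), as_land8 r 1 (by decide)]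

theorem evL_append (x : ℕ → ℕ) (m : ℕ) (l l' : List (ℕ × ℕ)) :
    evL x m (l ++ l') = evL x m l + evL x m l' := by
  simp [evL]

theorem clL_append (Q : ℕ → ℤ) (l l' : List (ℕ × ℕ)) : clL Q (l ++ l') = clL Q l + clL Q l' := by
  simp [clL]

theorem evL_cons (x : ℕ → ℕ) (m : ℕ) (q : ℕ × ℕ) (l : List (ℕ × ℕ)) : evL x m (q :: l) =
    (if 256 * m ≤ q.1 ∧ q.1 < 256 * m + 256 then q.2 * x (q.1 - 256 * m) else 0) + evL x m l := by
  simp [evL]

theorem clL_cons (Q : ℕ → ℤ) (q : ℕ × ℕ) (l : List (ℕ × ℕ)) : clL Q (q :: l) =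
    (if 1280 ≤ q.1 ∧ q.1 < 1288 then (q.2 : ℤ) * Q (q.1 - 1280) else 0) + clL Q l := by
  simp [clL]

theorem evL_nil (x : ℕ → ℕ) (m : ℕ) : evL x m [] = 0 := rfl

theorem clL_nil (Q : ℕ → ℤ) : clL Q [] = 0 := rfl

theorem evL_map (x : ℕ → ℕ) (m : ℕ) (v : ℕ → ℕ) (L : List ℕ) (hL : L.Nodup)
    (hv : ∀ m' ∈ L, v m' < 256) :
    evL x m (L.map fun m' => (256 * m' + v m', 1)) = if m ∈ L then x (v m) else 0 := by
  induction L with
  | nil => rfl
  | cons a L ih =>
    rw [List.nodup_cons] at hL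
    have hva := hv a List.mem_cons_self
    rw [List.map_cons, evL_cons, ih hL.2 (fun m' hm' => hv m' (List.mem_cons_of_mem _ hm'))]
    simp only
    by_cases h : m = a
    · subst h
      rw [if_pos (by omega), if_neg hL.1, if_pos List.mem_cons_self, one_mul, add_zero]
      congr 1
      omega
    · rw [if_neg (by omega), zero_add]
      by_cases h' : m ∈ L
      · rw [if_pos h', if_pos (List.mem_cons_of_mem _ h')]
      · rw [if_neg h', if_neg (by simp [h, h'])]

theorem clL_map (Q : ℕ → ℤ) (v : ℕ → ℕ) (L : List ℕ) (hL : ∀ m' ∈ L, m' < 5)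
    (hv : ∀ m' ∈ L, v m' < 256) :
    clL Q (L.map fun m' => (256 * m' + v m', 1)) = 0 := by
  induction L with
  | nil => rfl
  | cons a L ih =>
    have hva := hv a List.mem_cons_self
    have hla := hL a List.mem_cons_self
    rw [List.map_cons, clL_cons, ih (fun m' hm' => hL m' (List.mem_cons_of_mem _ hm'))
      (fun m' hm' => hv m' (List.mem_cons_of_mem _ hm'))]
    simp only
    rw [if_neg (by omega), zero_add]

theorem asVar_lt {e i m : ℕ} (he : e < 12) (hi : i < 5) (hm : m < 5) : asVar e i m < 256 := by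
  unfold asVar
  split_ifs <;> omega

/-- the value of the variable number `d` -/
def asX (Y : ℕ → ℕ → Fin 5 → ℕ) (d : ℕ) : ℕ :=
  if d = 0 then 1 else Y ((d - 1) / 20) ((d - 1) / 4 % 5)
    (Fin.ofNat 5 (if (d - 1) % 4 < (d - 1) / 4 % 5 then (d - 1) % 4 else (d - 1) % 4 + 1))

theorem asX_zero (Y : ℕ → ℕ → Fin 5 → ℕ) : asX Y 0 = 1 := rfl

theorem asX_asVar (Y : ℕ → ℕ → Fin 5 → ℕ) (e : ℕ) (i m : Fin 5) (h : i ≠ m) :
    asX Y (asVar e i m) = Y e i m := by
  have hi := i.2
  have hm := m.2
  have hne : (i : ℕ) ≠ m := fun h' => h (Fin.ext h')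
  obtain ⟨s, hs1, hs2, hs⟩ : ∃ s, s < 4 ∧ (if s < (i : ℕ) then s else s + 1) = (m : ℕ) ∧
      asVar e i m = 1 + (e * 5 + i) * 4 + s := by
    unfold asVar
    by_cases hlt : (m : ℕ) < i
    · exact ⟨m, by omega, by rw [if_pos hlt], by rw [if_pos hlt]⟩
    · exact ⟨m - 1, by omega, by rw [if_neg (by omega)]; omega, by rw [if_neg hlt]⟩
  rw [hs]
  unfold asX
  rw [if_neg (by omega)]
  have e1 : (1 + (e * 5 + (i : ℕ)) * 4 + s - 1) / 20 = e := by omega
  have e2 : (1 + (e * 5 + (i : ℕ)) * 4 + s - 1) / 4 % 5 = i := by omega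
  have e3 : (1 + (e * 5 + (i : ℕ)) * 4 + s - 1) % 4 = s := by omega
  rw [e1, e2, e3, hs2]
  congr 1
  apply Fin.ext
  simp [Fin.ofNat, Nat.mod_eq_of_lt hm]

/-- the six elements -/
def asEl (F f h k : ℤ) (e : ℕ) : ℤ :=
  if e = 0 then f else if e = 1 then F - f else if e = 2 then h else if e = 3 then F - h
    else if e = 4 then k else F - k

/-- the class digits -/
def asQ (F f h k : ℤ) (d : ℕ) : ℤ :=
  if d = 0 then F else if d = 1 then f else if d = 2 then h else if d = 3 then k else 0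

theorem asEl_pf {g : Fin 5 → ℕ} {F f h k : ℤ} (D : AsData g F f h k) (e : ℕ) :
    IsPF g (asEl F f h k e) := by
  unfold asEl
  split_ifs
  · exact D.pf
  · exact D.pf'
  · exact D.ph
  · exact D.ph'
  · exact D.pk
  · exact D.pk'

/-- the eight elements of the difference table -/
def asEl8 (F f h k : ℤ) (a : ℕ) : ℤ :=
  if a = 0 then 0 else if a = 7 then F else asEl F f h k (a - 1)

theorem asEl8_eq (F f h k : ℤ) (a : ℕ) (ha : a < 8) :
    ecL (asQ F f h k) (asEP a) - ecL (asQ F f h k) (asEN a) = asEl8 F f h k a := by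
  interval_cases a <;> simp [ecL, asEP, asEN, asEl8, asEl, asQ]

theorem asEl8_pf {g : Fin 5 → ℕ} {F f h k : ℤ} (D : AsData g F f h k) (a : ℕ) (ha : a ≠ 0) :
    IsPF g (asEl8 F f h k a) := by
  unfold asEl8
  rw [if_neg ha]
  split_ifs
  · exact D.pF
  · exact asEl_pf D _

theorem asEl8_ne {g : Fin 5 → ℕ} {F f h k : ℤ} (D : AsData g F f h k) (a b : ℕ) (ha : a < 8)
    (hb : b < 8) (hab : a ≠ b) (h1 : ¬ (a = 5 ∧ b = 6)) (h2 : ¬ (a = 6 ∧ b = 5))
    (ha0 : a ≠ 0) (hb0 : b ≠ 0) : asEl8 F f h k a ≠ asEl8 F f h k b := by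
  obtain ⟨-, pF, pf, pf', ph, ph', pk, pk', ff, hh, hf, hf', kf, kf', kh, kh'⟩ := D
  have q0 := pF.pos
  have q1 := pf.pos
  have q2 := pf'.pos
  have q3 := ph.pos
  have q4 := ph'.pos
  have q5 := pk.pos
  have q6 := pk'.pos
  clear pF pf pf' ph ph' pk pk'
  interval_cases a <;> interval_cases b <;>
    first
    | exact absurd rfl hab
    | exact absurd rfl ha0
    | exact absurd rfl hb0
    | exact absurd ⟨rfl, rfl⟩ h1
    | exact absurd ⟨rfl, rfl⟩ h2
    | (simp only [asEl8, asEl]; norm_num; omega)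

theorem fbAS_bits : ∀ a < 8, ∀ b < 8, (fbAS >>> (8 * a + b)) &&& 1 = 1 →
    a ≠ b ∧ ¬ (a = 5 ∧ b = 6) ∧ ¬ (a = 6 ∧ b = 5) := by decide +kernel

theorem as_len (r : ℕ) : (∀ q ∈ asP r, q.2 ≤ 7) ∧ (asP r).length ≤ 8 ∧ (∀ q ∈ asN r, q.2 ≤ 7) ∧
    (asN r).length ≤ 8 := by
  refine ⟨?_, ?_, ?_, ?_⟩
  · intro q hq
    unfold asP at hq
    split_ifs at hq with h1
    · simp at hq
    · rw [List.mem_append, List.mem_map, List.mem_singleton] at hq
      rcases hq with ⟨m, -, rfl⟩ | rfl <;> simp
    · rw [List.mem_append, List.mem_map, List.mem_singleton] at hq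
      rcases hq with ⟨m, -, rfl⟩ | rfl <;> simp
  · unfold asP
    split_ifs
    · simp
    · rw [List.length_append, List.length_map]
      have := List.length_filter_le (fun m => decide (m ≠ r % 5)) (List.range 5)
      rw [List.length_range] at this
      simp only [List.length_singleton]
      omega
    · rw [List.length_append, List.length_map]
      have := List.length_filter_le (fun m => decide (m ≠ r % 5)) (List.range 5)
      rw [List.length_range] at this
      simp only [List.length_singleton]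
      omega
  · intro q hq
    unfold asN at hq
    split_ifs at hq with h1 h2
    · simp at hq
    · rw [List.mem_singleton] at hq
      rw [hq]; simp
    · rw [List.mem_cons, List.mem_singleton] at hq
      rcases hq with rfl | rfl <;> simp
  · unfold asN
    split_ifs <;> simp

/-- The model. Use `rowOK_of`, `rwAS_eq` (all rows are leaves of `rowsAS`), `ec_num`, `eAS_eq`, `pf_diff`. -/
theorem as_ctx {g : Fin 5 → ℕ} {F f h k : ℤ} (D : AsData g F f h k) :
    ∃ (x : ℕ → ℕ) (Q : ℕ → ℤ), CtxAS g x Q ∧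
      (∀ i m : Fin 5, i ≠ m → x (asVar 0 i m) ≠ 0 → Mem g (f + g i - g m)) ∧
      (∀ i m : Fin 5, i ≠ m → x (asVar 1 i m) ≠ 0 → Mem g (F - f + g i - g m)) := by
  have hY0 : ∀ e i : ℕ, ∃ y : Fin 5 → ℕ, ∀ hi : i < 5,
      ((∑ j, y j * g j : ℕ) : ℤ) = asEl F f h k e + g ⟨i, hi⟩ ∧ LexMax g y := by
    intro e i
    by_cases hi : i < 5
    · obtain ⟨y, hy1, hy2⟩ := exists_lexMax D.min ((asEl_pf D e).add ⟨i, hi⟩)
      exact ⟨y, fun _ => ⟨hy1, hy2⟩⟩
    · exact ⟨0, fun hi' => absurd hi' hi⟩
  choose Y hY using hY0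
  have hYi : ∀ e (i : Fin 5), Y e i i = 0 := by
    intro e i
    by_contra hne
    have h1 := mem_sub_of_pos (hY e i i.2).1 hne
    apply (asEl_pf D e).nmem
    have e1 : asEl F f h k e + (g ⟨(i : ℕ), i.2⟩ : ℤ) - g i = asEl F f h k e := by
      simp
    rwa [e1] at h1
  have hgpos := gen_pos D.min
  refine ⟨asX Y, asQ F f h k, ⟨D.min, asX_zero Y, ?_, ?_, ?_⟩, ?_, ?_⟩
  · intro r0
    have er : rwAS r0 = rwAS (r0 % 32) := as_sel5_mod _ _
    rw [er]
    have hr : r0 % 32 < 32 := Nat.mod_lt _ (by norm_num)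
    generalize r0 % 32 = r at hr
    rw [rwAS_eq r hr]
    obtain ⟨l1, l2, l3, l4⟩ := as_len r
    by_cases h30 : 30 ≤ r
    · have eP : asP r = [] := by unfold asP; rw [if_pos h30]
      have eN : asN r = [] := by unfold asN; rw [if_pos h30]
      rw [eP, eN]
      refine rowOK_of (by simp) (by simp) (by simp) (by simp) (y := 0) (fun m => rfl) ?_ ?_
      · intro y' hy' k' _ hlt
        have h1 : ∑ i, y' i * g i = 0 := by rw [hy']; simp
        rw [Finset.sum_eq_zero_iff] at h1
        have h2 := h1 k' (Finset.mem_univ _)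
        have h3 := hgpos k'
        rcases Nat.mul_eq_zero.1 h2 with h4 | h4
        · rw [h4] at hlt; exact absurd hlt (lt_irrefl _)
        · omega
      · simp [evL_nil, clL_nil]
    · -- the row of `e + g i`
      have he : r / 5 < 6 := by omega
      have hi : r % 5 < 5 := Nat.mod_lt _ (by norm_num)
      have eP : asP r = (((List.range 5).filter (fun m => m ≠ r % 5)).map fun m =>
          (256 * m + asVar (r / 5) (r % 5) m, 1)) ++
            [(1280 + (if r / 5 % 2 = 0 then 1 + r / 10 else 0), 1)] := by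
        unfold asP; rw [if_neg h30]
      have eN : asN r = (256 * (r % 5), 1) ::
          (if r / 5 % 2 = 0 then [] else [(1281 + r / 10, 1)]) := by
        unfold asN; rw [if_neg h30]
      have hvP : ∀ m : Fin 5, evL (asX Y) m (asP r) = Y (r / 5) (r % 5) m := by
        intro m
        have hm := m.2
        rw [eP, evL_append, evL_map _ _ (fun m => asVar (r / 5) (r % 5) m) _
          (List.nodup_range.filter _) (fun m' hm' => by
            rw [List.mem_filter, List.mem_range] at hm'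
            exact asVar_lt (by omega) hi hm'.1)]
        have e0 : ∀ c, evL (asX Y) m [(1280 + c, 1)] = 0 := by
          intro c
          rw [evL_cons, evL_nil]
          simp only
          rw [if_neg (by omega)]
        rw [e0, add_zero]
        by_cases hmi : (m : ℕ) = r % 5
        · rw [if_neg (by simp [hmi])]
          have e1 := hYi (r / 5) m
          rw [hmi] at e1
          exact e1.symm
        · rw [if_pos (by simp [hmi])]
          have e1 := asX_asVar Y (r / 5) ⟨r % 5, hi⟩ m (fun h' => hmi (by rw [← h']))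
          exact e1
      have hvN : ∀ m : Fin 5, evL (asX Y) m (asN r) = if (m : ℕ) = r % 5 then 1 else 0 := by
        intro m
        have hm := m.2
        rw [eN, evL_cons]
        have e2 : evL (asX Y) m (if r / 5 % 2 = 0 then [] else [(1281 + r / 10, 1)]) = 0 := by
          split_ifs
          · rfl
          · rw [evL_cons, evL_nil, if_neg (by simp only; omega)]
        rw [e2, add_zero]
        simp only
        by_cases hmi : (m : ℕ) = r % 5
        · rw [if_pos hmi, if_pos (by omega), one_mul]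
          have e3 : 256 * (r % 5) - 256 * (m : ℕ) = 0 := by omega
          rw [e3, asX_zero]
        · rw [if_neg hmi, if_neg (by omega)]
      have hcP : clL (asQ F f h k) (asP r) =
          asQ F f h k (if r / 5 % 2 = 0 then 1 + r / 10 else 0) := by
        rw [eP, clL_append, clL_map _ (fun m => asVar (r / 5) (r % 5) m) _
          (fun m' hm' => by
            rw [List.mem_filter, List.mem_range] at hm'
            exact hm'.1) (fun m' hm' => by
            rw [List.mem_filter, List.mem_range] at hm'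
            exact asVar_lt (by omega) hi hm'.1), clL_cons, clL_nil, zero_add, add_zero]
        simp only
        rw [if_pos (by split_ifs <;> omega)]
        simp
      have hcN : clL (asQ F f h k) (asN r) =
          if r / 5 % 2 = 0 then 0 else asQ F f h k (1 + r / 10) := by
        rw [eN, clL_cons]
        simp only
        rw [if_neg (by omega), zero_add]
        split_ifs
        · rfl
        · rw [clL_cons, clL_nil]
          simp only
          rw [if_pos (by omega), add_zero]
          have e3 : 1281 + r / 10 - 1280 = 1 + r / 10 := by omega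
          rw [e3]
          simp
      have hcl : clL (asQ F f h k) (asP r) - clL (asQ F f h k) (asN r) = asEl F f h k (r / 5) := by
        rw [hcP, hcN]
        have e10 : r / 10 = (r / 5) / 2 := by omega
        rw [e10]
        generalize r / 5 = e at he
        interval_cases e <;> simp [asQ, asEl]
      refine rowOK_of l1 l2 l3 l4 (y := Y (r / 5) (r % 5)) hvP (hY _ _ hi).2 ?_
      rw [hcl]
      have e4 : ∑ m : Fin 5, ((evL (asX Y) m (asP r) : ℤ) - evL (asX Y) m (asN r)) * g m =
          ((∑ j, Y (r / 5) (r % 5) j * g j : ℕ) : ℤ) - g ⟨r % 5, hi⟩ := by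
        have e5 : (g ⟨r % 5, hi⟩ : ℤ) =
            ∑ m : Fin 5, ((if (m : ℕ) = r % 5 then 1 else 0 : ℕ) : ℤ) * g m := by
          rw [Finset.sum_eq_single (⟨r % 5, hi⟩ : Fin 5)]
          · simp
          · intro b _ hb
            rw [if_neg (fun h' => hb (Fin.ext h'))]
            simp
          · intro h'; exact absurd (Finset.mem_univ _) h'
        rw [cast_sum, e5, ← Finset.sum_sub_distrib]
        refine Finset.sum_congr rfl fun m _ => ?_
        rw [hvP, hvN]
        ring
      rw [e4, (hY _ _ hi).1]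
      ring
  · intro a
    have ea : eAS a = eAS (a % 8) := as_sel3_mod _ _
    rw [ea]
    have ha : a % 8 < 8 := Nat.mod_lt _ (by norm_num)
    generalize a % 8 = b at ha
    rw [eAS_eq b ha]
    constructor
    · apply num_bd
      · interval_cases b <;> simp [asEP]
      · interval_cases b <;> simp [asEP]
    · apply num_bd
      · interval_cases b <;> simp [asEN]
      · interval_cases b <;> simp [asEN]
  · intro a ha b hb hbit y hy
    obtain ⟨h1, h2, h3⟩ := fbAS_bits a ha b hb hbit
    have hec : ∀ c < 8, ec (asQ F f h k) (eAS c).1 - ec (asQ F f h k) (eAS c).2 =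
        asEl8 F f h k c := by
      intro c hc
      rw [eAS_eq c hc, ← asEl8_eq F f h k c hc]
      simp only
      rw [ec_num _ _ (by interval_cases c <;> simp [asEP]) (by interval_cases c <;> simp [asEP]),
        ec_num _ _ (by interval_cases c <;> simp [asEN]) (by interval_cases c <;> simp [asEN])]
    rw [hec a ha, hec b hb] at hy
    have hm : Mem g (asEl8 F f h k a - asEl8 F f h k b) := ⟨y, hy⟩
    by_cases ha0 : a = 0
    · subst ha0
      have hb0 : b ≠ 0 := fun h' => h1 h'.symm
      have h4 := mem_nonneg hm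
      have h5 := (asEl8_pf D b hb0).pos
      have h6 : asEl8 F f h k 0 = 0 := rfl
      omega
    · by_cases hb0 : b = 0
      · subst hb0
        have h6 : asEl8 F f h k 0 = 0 := rfl
        rw [h6, sub_zero] at hm
        exact (asEl8_pf D a ha0).nmem hm
      · exact pf_diff (asEl8_pf D a ha0) (asEl8_pf D b hb0)
          (asEl8_ne D a b ha hb h1 h2 h3 ha0 hb0) hm
  · intro i m him hx
    rw [asX_asVar Y 0 i m him] at hx
    exact mem_sub_of_pos (hY 0 i i.2).1 hx
  · intro i m him hx
    rw [asX_asVar Y 1 i m him] at hx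
    exact mem_sub_of_pos (hY 1 i i.2).1 hx

/-- number of the pair `(b, c)`, `b ≠ c`, below `20` -/
def slot (b c : ℕ) : ℕ := 4 * b + (if c < b then c else c - 1)

/-- A cube `c` is a pair `(val, fx)` of numbers below `2 ^ 20`; `fx` is the set of the fixed slots, and `val` holds
their values. -/
def zeroVar (c : ℕ × ℕ) (d : ℕ) : Bool :=
  let i := (d - 1) % 20 / 4
  let m := if (d - 1) % 4 < i then (d - 1) % 4 else (d - 1) % 4 + 1
  decide (1 ≤ d) && ((decide (d ≤ 20) && c.2.testBit (slot i m) && !c.1.testBit (slot i m)) ||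
    (decide (21 ≤ d) && decide (d ≤ 40) && c.2.testBit (slot m i) && c.1.testBit (slot m i)))

def CubeFalse (c : ℕ × ℕ) : Prop := ∀ (g : Fin 5 → ℕ) (x : ℕ → ℕ) (Q : ℕ → ℤ), CtxAS g x Q →
  (∀ d < 256, zeroVar c d = true → x d = 0) → False

theorem cubeFalse_of (c : ℕ × ℕ) (Z : ℕ) (hZ : ∀ d < 256, dig Z d = 65535 ∨ zeroVar c d = true)
    (h : ∀ g x Q, Ctx rwAS eAS fbAS Z g x Q → False) : CubeFalse c := by
  intro g x Q C hx
  exact h g x Q ⟨C.hg, C.x0, fun d hd => (hZ d hd).imp id (fun h' => hx d hd h'), C.rows, C.els,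
    C.forb⟩

/-- the pattern `D` is in the cube `c` -/
def InCube (c : ℕ × ℕ) (D : Fin 5 → Fin 5 → Bool) : Prop :=
  ∀ a b : Fin 5, a ≠ b → c.2.testBit (slot a b) = true → c.1.testBit (slot a b) = D a b

/-- Every pattern is in one of the cubes after a permutation of the indices, or a permutation and the operation
`D ↦ (a, b ↦ !D b a)`. -/
def Covers (cubes : List (ℕ × ℕ)) : Prop := ∀ D : Fin 5 → Fin 5 → Bool,
  ∃ σ : Equiv.Perm (Fin 5), ∃ c ∈ cubes,
    InCube c (fun a b => D (σ a) (σ b)) ∨ InCube c (fun a b => !D (σ b) (σ a))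

theorem sum_perm (σ : Equiv.Perm (Fin 5)) (g y : Fin 5 → ℕ) :
    ∑ i, y i * (g ∘ σ) i = ∑ i, (y ∘ σ.symm) i * g i := by
  apply Fintype.sum_equiv σ
  intro i
  simp [Function.comp]

theorem mem_perm {g : Fin 5 → ℕ} (σ : Equiv.Perm (Fin 5)) {z : ℤ} : Mem (g ∘ σ) z ↔ Mem g z := by
  constructor
  · rintro ⟨y, hy⟩
    rw [sum_perm] at hy
    exact ⟨_, hy⟩
  · rintro ⟨y, hy⟩
    refine ⟨y ∘ σ, ?_⟩
    rw [sum_perm]
    have e : (y ∘ σ) ∘ σ.symm = y := by
      funext i; simp [Function.comp]
    rw [e, hy]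

theorem isPF_perm {g : Fin 5 → ℕ} (σ : Equiv.Perm (Fin 5)) {z : ℤ} :
    IsPF (g ∘ σ) z ↔ IsPF g z := by
  constructor
  · intro h
    refine ⟨h.pos, fun h' => h.nmem ((mem_perm σ).2 h'), fun i => ?_⟩
    have h1 := (mem_perm σ).1 (h.add (σ.symm i))
    simpa [Function.comp] using h1
  · intro h
    exact ⟨h.pos, fun h' => h.nmem ((mem_perm σ).1 h'), fun i => (mem_perm σ).2 (h.add (σ i))⟩

theorem minGen_perm {g : Fin 5 → ℕ} (σ : Equiv.Perm (Fin 5)) : MinGen (g ∘ σ) ↔ MinGen g := by
  have key : ∀ (g : Fin 5 → ℕ) (σ : Equiv.Perm (Fin 5)), MinGen g → MinGen (g ∘ σ) := by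
    intro g σ hg l y hy
    rw [sum_perm] at hy
    have h1 := hg (σ l) _ hy
    funext i
    have h2 := congrFun h1 (σ i)
    simp only [Function.comp, Equiv.symm_apply_apply] at h2
    rw [h2]
    by_cases hil : i = l
    · subst hil; rw [Pi.single_eq_same, Pi.single_eq_same]
    · rw [Pi.single_eq_of_ne hil, Pi.single_eq_of_ne (fun h' => hil (σ.injective h'))]
  constructor
  · intro h
    have h1 := key (g ∘ σ) σ.symm h
    have e : (g ∘ σ) ∘ σ.symm = g := by
      funext i; simp [Function.comp]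
    rwa [e] at h1
  · exact key g σ

theorem zeroVar_cases {c : ℕ × ℕ} {d : ℕ} (h : zeroVar c d = true) :
    (∃ i m : Fin 5, i ≠ m ∧ d = asVar 0 i m ∧ c.2.testBit (slot i m) = true ∧
      c.1.testBit (slot i m) = false) ∨
    (∃ i m : Fin 5, i ≠ m ∧ d = asVar 1 i m ∧ c.2.testBit (slot m i) = true ∧
      c.1.testBit (slot m i) = true) := by
  unfold zeroVar at h
  simp only [Bool.and_eq_true, Bool.or_eq_true, decide_eq_true_eq, Bool.not_eq_true'] at h
  have hi : (d - 1) % 20 / 4 < 5 := by omega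
  have hm : (if (d - 1) % 4 < (d - 1) % 20 / 4 then (d - 1) % 4 else (d - 1) % 4 + 1) < 5 := by
    split_ifs <;> omega
  have hne : (d - 1) % 20 / 4 ≠
      (if (d - 1) % 4 < (d - 1) % 20 / 4 then (d - 1) % 4 else (d - 1) % 4 + 1) := by
    split_ifs <;> omega
  obtain ⟨h1, h2⟩ := h
  rcases h2 with ⟨⟨h2, h3⟩, h4⟩ | ⟨⟨⟨h2, h2'⟩, h3⟩, h4⟩
  · left
    refine ⟨⟨_, hi⟩, ⟨_, hm⟩, fun h' => hne (congrArg Fin.val h'), ?_, h3, h4⟩
    unfold asVar
    simp only
    split_ifs <;> omega
  · right
    refine ⟨⟨_, hi⟩, ⟨_, hm⟩, fun h' => hne (congrArg Fin.val h'), ?_, h3, h4⟩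
    unfold asVar
    simp only
    split_ifs <;> omega

/-- Put `D b c := decide (Mem g (f + g b - g c))`. Then for `b ≠ c`: if `D b c` then `F - f + g c - g b` is not a
member (otherwise `F` is one), if not `D b c` then `f + g b - g c` is not a member. Apply `Covers` to `D`.
First case: use `as_ctx` for the generators `g ∘ σ` and `F, f, h, k`. Second case: for `g ∘ σ` and
`F, F - f, h, k`. (`MinGen`, `Mem`, `IsPF` are invariant under permutation of the generators.) The properties of
the last two parts of `as_ctx` give the zero variables. -/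
theorem AScore_of (cubes : List (ℕ × ℕ)) (hcov : Covers cubes) (hc : ∀ c ∈ cubes, CubeFalse c) :
    AScore := by
  classical
  intro g hg F f h k pF pf pf' ph ph' pk pk' ff hh hf hf' kf kf' kh kh'
  obtain ⟨σ, c, hcm, hin⟩ := hcov (fun a b => decide (Mem g (f + g a - g b)))
  have hG : AsData (g ∘ σ) F f h k :=
    ⟨(minGen_perm σ).2 hg, (isPF_perm σ).2 pF, (isPF_perm σ).2 pf, (isPF_perm σ).2 pf',
      (isPF_perm σ).2 ph, (isPF_perm σ).2 ph', (isPF_perm σ).2 pk, (isPF_perm σ).2 pk',
      ff, hh, hf, hf', kf, kf', kh, kh'⟩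
  have hsum : ∀ a b : Fin 5, Mem g (f + g a - g b) → Mem g (F - f + g b - g a) → False := by
    intro a b h1 h2
    apply pF.nmem
    have h3 := mem_add h1 h2
    have e : f + (g a : ℤ) - g b + (F - f + g b - g a) = F := by ring
    rwa [e] at h3
  rcases hin with hin | hin
  · obtain ⟨x, Q, C, hx0, hx1⟩ := as_ctx hG
    refine hc c hcm (g ∘ σ) x Q C ?_
    intro d _ hz
    by_contra hxd
    rcases zeroVar_cases hz with ⟨i, m, him, hd, hb1, hb2⟩ | ⟨i, m, him, hd, hb1, hb2⟩
    · rw [hd] at hxd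
      have h1 := (mem_perm σ).1 (hx0 i m him hxd)
      have h2 := hin i m him hb1
      rw [hb2] at h2
      exact absurd h1 (of_decide_eq_false h2.symm)
    · rw [hd] at hxd
      have h1 := (mem_perm σ).1 (hx1 i m him hxd)
      have h2 := hin m i (Ne.symm him) hb1
      rw [hb2] at h2
      exact hsum _ _ (of_decide_eq_true h2.symm) h1
  · have hG' : AsData (g ∘ σ) F (F - f) h k := by
      refine ⟨hG.min, hG.pF, hG.pf', ?_, hG.ph, hG.ph', hG.pk, hG.pk', ?_, hh, hf', ?_, kf', ?_, kh,
        kh'⟩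
      · have e : F - (F - f) = f := by ring
        rw [e]; exact hG.pf
      · omega
      · omega
      · omega
    obtain ⟨x, Q, C, hx0, hx1⟩ := as_ctx hG'
    refine hc c hcm (g ∘ σ) x Q C ?_
    intro d _ hz
    by_contra hxd
    rcases zeroVar_cases hz with ⟨i, m, him, hd, hb1, hb2⟩ | ⟨i, m, him, hd, hb1, hb2⟩
    · rw [hd] at hxd
      have h1 := (mem_perm σ).1 (hx0 i m him hxd)
      have h2 := hin i m him hb1
      rw [hb2] at h2
      have h3 : Mem g (f + g (σ m) - g (σ i)) := by simpa using h2.symm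
      exact hsum _ _ h3 h1
    · rw [hd] at hxd
      have h1 := (mem_perm σ).1 (hx1 i m him hxd)
      have h2 := hin m i (Ne.symm him) hb1
      rw [hb2] at h2
      have h3 : ¬ Mem g (f + g (σ i) - g (σ m)) := by simpa using h2.symm
      apply h3
      have e : F - (F - f) + ((g ∘ σ) i : ℤ) - ((g ∘ σ) m : ℕ) = f + g (σ i) - g (σ m) := by
        simp only [Function.comp]; ring
      rwa [e] at h1

end Pool.Agent.NG5c
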