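import Mathlib.Data.Nat.Notation

/-!
# Certificate checker (definitions only)

Written with recursors, so that the kernel evaluates it lazily.
-/

set_option autoImplicit false

namespace Pool.Agent.NG5c

noncomputable section

/-! ### Trees -/

abbrev T1 (α : Type) : Type := α × α
abbrev T2 (α : Type) : Type := T1 α × T1 α
abbrev T3 (α : Type) : Type := T2 α × T2 α
abbrev T4 (α : Type) : Type := T3 α × T3 α
abbrev T5 (α : Type) : Type := T4 α × T4 α
abbrev T6 (α : Type) : Type := T5 α × T5 α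
abbrev T7 (α : Type) : Type := T6 α × T6 α
abbrev T8 (α : Type) : Type := T7 α × T7 α
abbrev T9 (α : Type) : Type := T8 α × T8 α
abbrev T10 (α : Type) : Type := T9 α × T9 α
abbrev T11 (α : Type) : Type := T10 α × T10 α
abbrev T12 (α : Type) : Type := T11 α × T11 α
abbrev T13 (α : Type) : Type := T12 α × T12 α

def sel1 {α : Type} (t : T1 α) (i : Nat) : α :=
  Bool.rec (motive := fun _ => α) t.2 t.1 (Nat.beq (Nat.land i 1) 0)
def sel2 {α : Type} (t : T2 α) (i : Nat) : α :=
  Bool.rec (motive := fun _ => α) (sel1 t.2 i) (sel1 t.1 i) (Nat.beq (Nat.land i 2) 0)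
def sel3 {α : Type} (t : T3 α) (i : Nat) : α :=
  Bool.rec (motive := fun _ => α) (sel2 t.2 i) (sel2 t.1 i) (Nat.beq (Nat.land i 4) 0)
def sel4 {α : Type} (t : T4 α) (i : Nat) : α :=
  Bool.rec (motive := fun _ => α) (sel3 t.2 i) (sel3 t.1 i) (Nat.beq (Nat.land i 8) 0)
def sel5 {α : Type} (t : T5 α) (i : Nat) : α :=
  Bool.rec (motive := fun _ => α) (sel4 t.2 i) (sel4 t.1 i) (Nat.beq (Nat.land i 16) 0)
def sel6 {α : Type} (t : T6 α) (i : Nat) : α :=
  Bool.rec (motive := fun _ => α) (sel5 t.2 i) (sel5 t.1 i) (Nat.beq (Nat.land i 32) 0)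
def sel7 {α : Type} (t : T7 α) (i : Nat) : α :=
  Bool.rec (motive := fun _ => α) (sel6 t.2 i) (sel6 t.1 i) (Nat.beq (Nat.land i 64) 0)
def sel8 {α : Type} (t : T8 α) (i : Nat) : α :=
  Bool.rec (motive := fun _ => α) (sel7 t.2 i) (sel7 t.1 i) (Nat.beq (Nat.land i 128) 0)
def sel9 {α : Type} (t : T9 α) (i : Nat) : α :=
  Bool.rec (motive := fun _ => α) (sel8 t.2 i) (sel8 t.1 i) (Nat.beq (Nat.land i 256) 0)
def sel10 {α : Type} (t : T10 α) (i : Nat) : α :=
  Bool.rec (motive := fun _ => α) (sel9 t.2 i) (sel9 t.1 i) (Nat.beq (Nat.land i 512) 0)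
def sel11 {α : Type} (t : T11 α) (i : Nat) : α :=
  Bool.rec (motive := fun _ => α) (sel10 t.2 i) (sel10 t.1 i) (Nat.beq (Nat.land i 1024) 0)
def sel12 {α : Type} (t : T12 α) (i : Nat) : α :=
  Bool.rec (motive := fun _ => α) (sel11 t.2 i) (sel11 t.1 i) (Nat.beq (Nat.land i 2048) 0)
def sel13 {α : Type} (t : T13 α) (i : Nat) : α :=
  Bool.rec (motive := fun _ => α) (sel12 t.2 i) (sel12 t.1 i) (Nat.beq (Nat.land i 4096) 0)

def ins1 (t : T1 Nat) (i v : Nat) (k : T1 Nat → Bool) : Bool :=
  Prod.rec (motive := fun _ => Bool) (fun l r =>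
    Bool.rec (motive := fun _ => Bool) (k (l, v)) (k (v, r)) (Nat.beq (Nat.land i 1) 0)) t
def ins2 (t : T2 Nat) (i v : Nat) (k : T2 Nat → Bool) : Bool :=
  Prod.rec (motive := fun _ => Bool) (fun l r =>
    Bool.rec (motive := fun _ => Bool) (ins1 r i v (fun u => k (l, u)))
      (ins1 l i v (fun u => k (u, r))) (Nat.beq (Nat.land i 2) 0)) t
def ins3 (t : T3 Nat) (i v : Nat) (k : T3 Nat → Bool) : Bool :=
  Prod.rec (motive := fun _ => Bool) (fun l r =>
    Bool.rec (motive := fun _ => Bool) (ins2 r i v (fun u => k (l, u)))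
      (ins2 l i v (fun u => k (u, r))) (Nat.beq (Nat.land i 4) 0)) t
def ins4 (t : T4 Nat) (i v : Nat) (k : T4 Nat → Bool) : Bool :=
  Prod.rec (motive := fun _ => Bool) (fun l r =>
    Bool.rec (motive := fun _ => Bool) (ins3 r i v (fun u => k (l, u)))
      (ins3 l i v (fun u => k (u, r))) (Nat.beq (Nat.land i 8) 0)) t
def ins5 (t : T5 Nat) (i v : Nat) (k : T5 Nat → Bool) : Bool :=
  Prod.rec (motive := fun _ => Bool) (fun l r =>
    Bool.rec (motive := fun _ => Bool) (ins4 r i v (fun u => k (l, u)))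
      (ins4 l i v (fun u => k (u, r))) (Nat.beq (Nat.land i 16) 0)) t
def ins6 (t : T6 Nat) (i v : Nat) (k : T6 Nat → Bool) : Bool :=
  Prod.rec (motive := fun _ => Bool) (fun l r =>
    Bool.rec (motive := fun _ => Bool) (ins5 r i v (fun u => k (l, u)))
      (ins5 l i v (fun u => k (u, r))) (Nat.beq (Nat.land i 32) 0)) t
def ins7 (t : T7 Nat) (i v : Nat) (k : T7 Nat → Bool) : Bool :=
  Prod.rec (motive := fun _ => Bool) (fun l r =>
    Bool.rec (motive := fun _ => Bool) (ins6 r i v (fun u => k (l, u)))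
      (ins6 l i v (fun u => k (u, r))) (Nat.beq (Nat.land i 64) 0)) t
def ins8 (t : T8 Nat) (i v : Nat) (k : T8 Nat → Bool) : Bool :=
  Prod.rec (motive := fun _ => Bool) (fun l r =>
    Bool.rec (motive := fun _ => Bool) (ins7 r i v (fun u => k (l, u)))
      (ins7 l i v (fun u => k (u, r))) (Nat.beq (Nat.land i 128) 0)) t
def ins9 (t : T9 Nat) (i v : Nat) (k : T9 Nat → Bool) : Bool :=
  Prod.rec (motive := fun _ => Bool) (fun l r =>
    Bool.rec (motive := fun _ => Bool) (ins8 r i v (fun u => k (l, u)))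
      (ins8 l i v (fun u => k (u, r))) (Nat.beq (Nat.land i 256) 0)) t
def ins10 (t : T10 Nat) (i v : Nat) (k : T10 Nat → Bool) : Bool :=
  Prod.rec (motive := fun _ => Bool) (fun l r =>
    Bool.rec (motive := fun _ => Bool) (ins9 r i v (fun u => k (l, u)))
      (ins9 l i v (fun u => k (u, r))) (Nat.beq (Nat.land i 512) 0)) t
def ins11 (t : T11 Nat) (i v : Nat) (k : T11 Nat → Bool) : Bool :=
  Prod.rec (motive := fun _ => Bool) (fun l r =>
    Bool.rec (motive := fun _ => Bool) (ins10 r i v (fun u => k (l, u)))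
      (ins10 l i v (fun u => k (u, r))) (Nat.beq (Nat.land i 1024) 0)) t
def ins12 (t : T12 Nat) (i v : Nat) (k : T12 Nat → Bool) : Bool :=
  Prod.rec (motive := fun _ => Bool) (fun l r =>
    Bool.rec (motive := fun _ => Bool) (ins11 r i v (fun u => k (l, u)))
      (ins11 l i v (fun u => k (u, r))) (Nat.beq (Nat.land i 2048) 0)) t
def ins13 (t : T13 Nat) (i v : Nat) (k : T13 Nat → Bool) : Bool :=
  Prod.rec (motive := fun _ => Bool) (fun l r =>
    Bool.rec (motive := fun _ => Bool) (ins12 r i v (fun u => k (l, u)))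
      (ins12 l i v (fun u => k (u, r))) (Nat.beq (Nat.land i 4096) 0)) t

/-- constant trees -/
def cst1 {α : Type} (a : α) : T1 α := (a, a)
def cst2 {α : Type} (a : α) : T2 α := (cst1 a, cst1 a)
def cst3 {α : Type} (a : α) : T3 α := (cst2 a, cst2 a)
def cst4 {α : Type} (a : α) : T4 α := (cst3 a, cst3 a)
def cst5 {α : Type} (a : α) : T5 α := (cst4 a, cst4 a)
def cst6 {α : Type} (a : α) : T6 α := (cst5 a, cst5 a)
def cst7 {α : Type} (a : α) : T7 α := (cst6 a, cst6 a)
def cst8 {α : Type} (a : α) : T8 α := (cst7 a, cst7 a)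
def cst9 {α : Type} (a : α) : T9 α := (cst8 a, cst8 a)
def cst10 {α : Type} (a : α) : T10 α := (cst9 a, cst9 a)
def cst11 {α : Type} (a : α) : T11 α := (cst10 a, cst10 a)
def cst12 {α : Type} (a : α) : T12 α := (cst11 a, cst11 a)
def cst13 {α : Type} (a : α) : T13 α := (cst12 a, cst12 a)

/-! ### Sparse numbers -/

/-- A sum of at most 8 terms `c * 2 ^ (16 * pos)`, from tokens `pos + 2 ^ 12 * c` of 16 bits. -/
def dec (t : Nat) : Nat :=
  Nat.rec (motive := fun _ => Nat → Nat) (fun _ => 0)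
    (fun _ ih t => Bool.rec (motive := fun _ => Nat)
      (Nat.add (Nat.shiftLeft (Nat.land (Nat.shiftRight t 12) 7) (Nat.mul 16 (Nat.land t 4095)))
        (ih (Nat.shiftRight t 16)))
      0 (Nat.beq t 0)) 8 t

def mk (a b : Nat) : Nat × Nat := (dec a, dec b)

/-- An atom: the inequality `P ≤ N`. -/
structure At where
  P : Nat
  N : Nat
  hP : ∃ t, P = dec t
  hN : ∃ t, N = dec t

def ma (a b : Nat) : At := ⟨dec a, dec b, ⟨a, rfl⟩, ⟨b, rfl⟩⟩

/-! ### Parameters -/

/-- top bits of 256 digits of 16 bits -/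
def topB : Nat := Nat.mul 32768 (Nat.div (Nat.sub (Nat.pow 2 4096) 1) 65535)

/-- `L ≤ R` is impossible if `L - R` has small nonnegative digits and a positive constant. -/
def contra (L R : Nat) (k : Bool) : Bool :=
  (fun d => Bool.rec (motive := fun _ => Bool) false
    (Bool.rec (motive := fun _ => Bool) k false (Nat.beq (Nat.land d 65535) 0))
    (Nat.beq (Nat.land d topB) 0)) (Nat.sub L R)

/-- The inequality `X ≤ Y` that holds if the literal `p` is false. -/
def negX (n3 p : Nat) (a : At) : Nat :=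
  Bool.rec (motive := fun _ => Nat)
    (Bool.rec (motive := fun _ => Nat) (Bool.rec (motive := fun _ => Nat) 0 a.1 (Nat.beq (Nat.mod p 3) 2))
      (Nat.add a.2 1) (Nat.beq (Nat.mod p 3) 1)) 0 (Nat.ble n3 p)

def negY (n3 p : Nat) (a : At) : Nat :=
  Bool.rec (motive := fun _ => Nat)
    (Bool.rec (motive := fun _ => Nat) (Bool.rec (motive := fun _ => Nat) 0 a.2 (Nat.beq (Nat.mod p 3) 2))
      a.1 (Nat.beq (Nat.mod p 3) 1)) 0 (Nat.ble n3 p)

/-- One literal (16 bits) with a multiplier (4 bits). -/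
def item (n3 : Nat) (A : Nat → At) (L R t m : Nat) (k : Nat → Nat → Bool) : Bool :=
  (fun p g => (fun a => contra (Nat.add L (Nat.mul g (negX n3 p a))) (Nat.add R (Nat.mul g (negY n3 p a)))
    (k (Nat.shiftRight t 20) (Nat.lor m (Nat.shiftLeft 1 p)))) (A (Nat.div p 3)))
    (Nat.land t 65535) (Nat.land (Nat.shiftRight t 16) 15)

/-- Accumulate literals with multipliers. -/
def accLits (n3 : Nat) (A : Nat → At) (n : Nat) :
    Nat → Nat → Nat → Nat → (Nat → Nat → Nat → Bool) → Bool :=
  Nat.rec (motive := fun _ => Nat → Nat → Nat → Nat → (Nat → Nat → Nat → Bool) → Bool)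
    (fun _ L R m k => k L R m)
    (fun _ ih t L R m k => (fun p g => (fun a =>
      ih (Nat.shiftRight t 20) (Nat.add L (Nat.mul g (negX n3 p a))) (Nat.add R (Nat.mul g (negY n3 p a)))
        (Nat.lor m (Nat.shiftLeft 1 p)) k) (A (Nat.div p 3)))
      (Nat.land t 65535) (Nat.land (Nat.shiftRight t 16) 15)) n

/-- Accumulate rows with signed multipliers; tokens `r + 64 * mult + 256 * sign`, 12 bits. -/
def accRows (Rw : Nat → Nat × Nat) (n : Nat) :
    Nat → Nat → Nat → (Nat → Nat → Nat → Bool) → Bool :=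
  Nat.rec (motive := fun _ => Nat → Nat → Nat → (Nat → Nat → Nat → Bool) → Bool)
    (fun t P N k => k t P N)
    (fun _ ih t P N k => (fun row mu => Bool.rec (motive := fun _ => Bool)
        (ih (Nat.shiftRight t 12) (Nat.add P (Nat.mul mu row.2)) (Nat.add N (Nat.mul mu row.1)) k)
        (ih (Nat.shiftRight t 12) (Nat.add P (Nat.mul mu row.1)) (Nat.add N (Nat.mul mu row.2)) k)
        (Nat.beq (Nat.land t 256) 0))
      (Rw (Nat.land t 63)) (Nat.land (Nat.shiftRight t 6) 3)) n

/-- `if c then k else false` -/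
def chk (c : Bool) (k : Bool) : Bool := Bool.rec (motive := fun _ => Bool) false k c

/-- The five items `V_m + c_m ≤ -1` -/
def items5 (n3 : Nat) (A : Nat → At) (Z P N : Nat) (t m : Nat)
    (k : Nat → Nat → Bool) : Bool :=
  item n3 A (Nat.add (Nat.land P Z) 1) (Nat.land N Z) t m (fun t m =>
  item n3 A (Nat.add (Nat.land (Nat.shiftRight P 4096) Z) 1) (Nat.land (Nat.shiftRight N 4096) Z) t m (fun t m =>
  item n3 A (Nat.add (Nat.land (Nat.shiftRight P 8192) Z) 1) (Nat.land (Nat.shiftRight N 8192) Z) t m (fun t m =>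
  item n3 A (Nat.add (Nat.land (Nat.shiftRight P 12288) Z) 1) (Nat.land (Nat.shiftRight N 12288) Z) t m (fun t m =>
  item n3 A (Nat.add (Nat.land (Nat.shiftRight P 16384) Z) 1) (Nat.land (Nat.shiftRight N 16384) Z) t m k))))

/-- Rule C. The class of the combination is `E a - E b`, which is no member. -/
def ruleC (n3 : Nat) (A : Nat → At) (Rw E : Nat → Nat × Nat) (fb Z r : Nat) (k : Nat → Bool) : Bool :=
  accRows Rw (Nat.land r 7) (Nat.shiftRight r 12) 0 0 (fun t P N =>
    (fun a b => chk (Nat.beq (Nat.land (Nat.shiftRight fb (Nat.add (Nat.mul 8 a) b)) 1) 1)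
      ((fun ea eb => chk (Nat.beq (Nat.add (Nat.shiftRight P 20480) (Nat.add ea.2 eb.1))
          (Nat.add (Nat.shiftRight N 20480) (Nat.add ea.1 eb.2)))
        (items5 n3 A Z P N t 0 (fun _ m => k m))) (E a) (E b)))
    (Nat.land (Nat.shiftRight r 3) 7) (Nat.land (Nat.shiftRight r 6) 7))

/-- Rule Z. The class of the combination is `0`. If `V + e_l ≥ 0` then `V = 0`. -/
def ruleZ (n3 : Nat) (A : Nat → At) (Rw : Nat → Nat × Nat) (Z r : Nat) (k : Nat → Bool) : Bool :=
  (fun l j => accRows Rw (Nat.land r 7) (Nat.shiftRight r 12) 0 0 (fun t P N =>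
    chk (Nat.ble l 4) (chk (Nat.ble j 4) (chk (Nat.beq (Nat.shiftRight P 20480) (Nat.shiftRight N 20480))
      (items5 n3 A Z (Nat.add P (Nat.shiftLeft 1 (Nat.mul 4096 l))) N t 0 (fun t m =>
        (fun u v => Bool.rec (motive := fun _ => Bool)
          (item n3 A v u t m (fun _ m => k m)) (item n3 A u v t m (fun _ m => k m))
            (Nat.beq (Nat.land (Nat.shiftRight r 9) 1) 0))
        (Nat.land (Nat.shiftRight P (Nat.mul 4096 j)) Z)
        (Nat.land (Nat.shiftRight N (Nat.mul 4096 j)) Z)))))))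
    (Nat.land (Nat.shiftRight r 3) 7) (Nat.land (Nat.shiftRight r 6) 7)

/-- The last items of rule X: `V_t ≤ -1` for `t < j`, `V_j ≤ 0`. -/
def itemsX (n3 : Nat) (A : Nat → At) (Z : Nat) (j : Nat) : Nat → Nat → Nat → Nat → (Nat → Bool) → Bool :=
  Nat.rec (motive := fun _ => Nat → Nat → Nat → Nat → (Nat → Bool) → Bool)
    (fun P N t m k => item n3 A (Nat.land P Z) (Nat.land N Z) t m (fun _ m => k m))
    (fun _ ih P N t m k => item n3 A (Nat.add (Nat.land P Z) 1) (Nat.land N Z) t m (fun t m =>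
      ih (Nat.shiftRight P 4096) (Nat.shiftRight N 4096) t m k)) j

/-- Rule X. The class of the combination is `0`, and the factorization of the row `r` is largest. -/
def ruleX (n3 : Nat) (A : Nat → At) (Rw : Nat → Nat × Nat) (Z r : Nat) (k : Nat → Bool) : Bool :=
  accRows Rw (Nat.land r 7) (Nat.shiftRight r 12) 0 0 (fun t P N =>
    chk (Nat.ble (Nat.land (Nat.shiftRight r 3) 7) 4)
    (chk (Nat.beq (Nat.shiftRight P 20480) (Nat.shiftRight N 20480))
      (items5 n3 A Z (Nat.add P (Rw (Nat.land (Nat.shiftRight r 6) 63)).1) N t 0 (fun t m =>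
        itemsX n3 A Z (Nat.land (Nat.shiftRight r 3) 7) P N t m k))))

/-- Rule T. The class of the combination is `2 (E a - E b)`, so it is not `2 u` with `u ≥ 0`. -/
def ruleT (n3 : Nat) (A : Nat → At) (Rw E : Nat → Nat × Nat) (fb Z r : Nat) (k : Nat → Bool) : Bool :=
  accRows Rw (Nat.land r 7) (Nat.shiftRight r 32) 0 0 (fun t P N =>
    (fun a b => chk (Nat.beq (Nat.land (Nat.shiftRight fb (Nat.add (Nat.mul 8 a) b)) 1) 1)
      ((fun ea eb => chk (Nat.beq (Nat.add (Nat.shiftRight P 20480) (Nat.mul 2 (Nat.add ea.2 eb.1)))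
          (Nat.add (Nat.shiftRight N 20480) (Nat.mul 2 (Nat.add ea.1 eb.2))))
        ((fun U => items5 n3 A Z P (Nat.add N U) t 0 (fun t m =>
            items5 n3 A Z (Nat.add N U) P t m (fun _ m => k m)))
          (Nat.mul 2 (Nat.add (Nat.land (Nat.shiftRight r 12) 15)
            (Nat.add (Nat.shiftLeft (Nat.land (Nat.shiftRight r 16) 15) 4096)
            (Nat.add (Nat.shiftLeft (Nat.land (Nat.shiftRight r 20) 15) 8192)
            (Nat.add (Nat.shiftLeft (Nat.land (Nat.shiftRight r 24) 15) 12288)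
              (Nat.shiftLeft (Nat.land (Nat.shiftRight r 28) 15) 16384)))))))) (E a) (E b)))
    (Nat.land (Nat.shiftRight r 3) 7) (Nat.land (Nat.shiftRight r 6) 7))

/-- Read `n` literals (16 bits each). -/
def rdLits (n : Nat) : Nat → Nat → (Nat → Nat → Bool) → Bool :=
  Nat.rec (motive := fun _ => Nat → Nat → (Nat → Nat → Bool) → Bool) (fun t m k => k t m)
    (fun _ ih t m k => ih (Nat.shiftRight t 16) (Nat.lor m (Nat.shiftLeft 1 (Nat.land t 65535))) k) n

/-- Unit propagation along hints. `nf` is the set of the literals not known to be false. -/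
def rup (look : Nat → Nat) (n : Nat) : Nat → Nat → Bool :=
  Nat.rec (motive := fun _ => Nat → Nat → Bool) (fun _ _ => false)
    (fun _ ih nf hs =>
      (fun rem => Bool.rec (motive := fun _ => Bool)
        (Bool.rec (motive := fun _ => Bool) false
          (ih ((fun x => Nat.xor (Nat.lor nf x) x) (Nat.lor (Nat.shiftLeft rem 1) (Nat.shiftRight rem 1)))
            (Nat.shiftRight hs 16)) (Nat.beq (Nat.land rem (Nat.sub rem 1)) 0))
        true (Nat.beq rem 0)) (Nat.land (look (Nat.land hs 65535)) nf)) n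

/-- Framing: a chunk is a sequence of records, each one preceded by its length in hexadecimal digits
(16 bits). A chunk ends if the rest is `0`. -/
def chunk {D : Type} (st : Nat → D → Nat → (D → Nat → Bool) → Bool) (n : Nat) :
    Nat → D → Nat → (D → Nat → Bool) → Bool :=
  Nat.rec (motive := fun _ => Nat → D → Nat → (D → Nat → Bool) → Bool) (fun _ _ _ _ => false)
    (fun _ ih c db G k => Bool.rec (motive := fun _ => Bool)
      ((fun len c' => st (Nat.land c' (Nat.sub (Nat.shiftLeft 1 len) 1)) db G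
        (fun db' G' => ih (Nat.shiftRight c' len) db' G' k))
        (Nat.mul 4 (Nat.land c 65535)) (Nat.shiftRight c 16))
      (k db G) (Nat.beq c 0)) n

def loop {D : Type} (st : Nat → D → Nat → (D → Nat → Bool) → Bool) (l : List Nat) :
    D → Nat → (D → Nat → Bool) → Bool :=
  List.rec (motive := fun _ => D → Nat → (D → Nat → Bool) → Bool) (fun db G k => k db G)
    (fun c _ ih db G k => chunk st 5000 c db G (fun db' G' => ih db' G' k)) l

section

variable {D : Type} (sel : D → Nat → Nat) (ins : D → Nat → Nat → (D → Bool) → Bool)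
  (A : Nat → At) (Rw E : Nat → Nat × Nat) (n3 fb Z : Nat)

/-- put a clause into the slot given by the header -/
def put (r m : Nat) (db : D) (G : Nat) (k : D → Nat → Bool) : Bool :=
  ins db (Nat.shiftRight (Nat.land r 65535) 3) m (fun db' => k db' G)

def stepL (r : Nat) (db : D) (G : Nat) (k : D → Nat → Bool) : Bool :=
  rdLits (Nat.land (Nat.shiftRight r 16) 65535) (Nat.shiftRight r 32) 0 (fun t m =>
    chk (rup (sel db) (Nat.land t 65535) (Nat.xor (Nat.lor G m) m) (Nat.shiftRight t 16))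
      (put ins r m db G k))

def stepTh (r : Nat) (db : D) (G : Nat) (k : D → Nat → Bool) : Bool :=
  accLits n3 A (Nat.land (Nat.shiftRight r 16) 31) (Nat.shiftRight r 24) 0 0 0 (fun L R m =>
    contra L R (put ins r m db G k))

def stepU (r : Nat) (db : D) (G : Nat) (k : D → Nat → Bool) : Bool :=
  (fun m => chk (Nat.beq (Nat.land m (Nat.sub m 1)) 0)
    (k db ((fun x => Nat.xor (Nat.lor G x) x) (Nat.lor (Nat.shiftLeft m 1) (Nat.shiftRight m 1)))))
    (Nat.land (sel db (Nat.shiftRight (Nat.land r 65535) 3)) G)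

/-- One record. The header (16 bits) is `kind + 8 * slot`. -/
def step (r : Nat) (db : D) (G : Nat) (k : D → Nat → Bool) : Bool :=
  Bool.rec (motive := fun _ => Bool)
    (Bool.rec (motive := fun _ => Bool)
      (Bool.rec (motive := fun _ => Bool)
        (Bool.rec (motive := fun _ => Bool)
          (Bool.rec (motive := fun _ => Bool)
            (Bool.rec (motive := fun _ => Bool)
              (ruleT n3 A Rw E fb Z (Nat.shiftRight r 16) (fun m => put ins r m db G k))
              (stepU sel r db G k) (Nat.beq (Nat.land r 7) 5))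
            (ruleZ n3 A Rw Z (Nat.shiftRight r 16) (fun m => put ins r m db G k)) (Nat.beq (Nat.land r 7) 4))
          (ruleX n3 A Rw Z (Nat.shiftRight r 16) (fun m => put ins r m db G k)) (Nat.beq (Nat.land r 7) 3))
        (ruleC n3 A Rw E fb Z (Nat.shiftRight r 16) (fun m => put ins r m db G k)) (Nat.beq (Nat.land r 7) 2))
      (stepTh ins A n3 r db G k) (Nat.beq (Nat.land r 7) 1))
    (stepL sel ins r db G k) (Nat.beq (Nat.land r 7) 0)

/-- A record of a list of clauses: slot, number of literals, literals (16 bits each). -/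
def stepIn (r : Nat) (db : D) (G : Nat) (k : D → Nat → Bool) : Bool :=
  rdLits (Nat.land (Nat.shiftRight r 16) 65535) (Nat.shiftRight r 32) 0 (fun _ m =>
    ins db (Nat.land r 65535) m (fun db' => k db' G))

def stepOut (r : Nat) (db : D) (G : Nat) (k : D → Nat → Bool) : Bool :=
  rdLits (Nat.land (Nat.shiftRight r 16) 65535) (Nat.shiftRight r 32) 0 (fun _ m =>
    chk (Nat.beq (Nat.land (sel db (Nat.land r 65535)) (Nat.xor (Nat.lor G m) m)) 0) (k db G))

/-- Read the clauses of `I`, do the steps of `S`, compare with the clauses of `O`. -/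
def run (db0 : D) (I S O : List Nat) : Bool :=
  chk (Nat.ble 3 n3)
    (loop (stepIn ins) I db0 (Nat.sub (Nat.pow 2 n3) 1) (fun db G =>
      loop (step sel ins A Rw E n3 fb Z) S db G (fun db G =>
        loop (stepOut sel) O db G (fun _ _ => true))))

end

def run10 (A : Nat → At) (Rw E : Nat → Nat × Nat) (n3 fb Z : Nat) (I S O : List Nat) : Bool :=
  run sel10 ins10 A Rw E n3 fb Z (cst10 6) I S O
def run11 (A : Nat → At) (Rw E : Nat → Nat × Nat) (n3 fb Z : Nat) (I S O : List Nat) : Bool :=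
  run sel11 ins11 A Rw E n3 fb Z (cst11 6) I S O
def run12 (A : Nat → At) (Rw E : Nat → Nat × Nat) (n3 fb Z : Nat) (I S O : List Nat) : Bool :=
  run sel12 ins12 A Rw E n3 fb Z (cst12 6) I S O
def run13 (A : Nat → At) (Rw E : Nat → Nat × Nat) (n3 fb Z : Nat) (I S O : List Nat) : Bool :=
  run sel13 ins13 A Rw E n3 fb Z (cst13 6) I S O

end

end Pool.Agent.NG5c
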