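import Pool.Agent.NG5c.ASModel

/-!
# The cubes (generated)
-/

set_option autoImplicit false

namespace Pool.Agent.NG5c

/-- the cubes `(val, fx)` -/
def cubes : List (ℕ × ℕ) := [
  (75368, 780029), (90308, 652797), (79562, 786399), (78502, 1047295), (9068, 456703), (78472, 506799),
  (93120, 1044464), (79532, 1048575), (86730, 916479), (74088, 1012607), (76194, 1026547), (75106, 1046503),
  (74890, 524015), (81576, 917499), (80419, 1048247), (79522, 917502), (75746, 1048566), (80706, 1048434),
  (80066, 490471), (77185, 1044381), (81026, 1047727), (66120, 1040125), (36, 432318), (10028, 982847),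
  (76876, 916685), (78437, 1045093), (92076, 1044479), (96964, 1047533), (78500, 523247), (75240, 1048573),
  (74126, 261630), (78123, 391487), (75203, 1048567), (67380, 874359), (78012, 520703), (80488, 1048559),
  (65764, 987884), (75208, 1048558), (75234, 1028094), (80546, 1047547), (103522, 374778), (76906, 1015806),
  (73898, 1047019), (74809, 1047999), (4482, 923526), (76972, 1031679), (74154, 1014783), (68698, 1040383),
  (76333, 1044095), (218796, 1048575), (75170, 1048570), (74882, 390655), (69990, 1037822), (79489, 522121),
  (79178, 524255), (73988, 1015142), (78953, 1015023), (74534, 999423), (93379, 1048575), (66499, 1035239),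
  (74891, 917247), (74792, 1015739), (74067, 915935), (24836, 948014), (74513, 654129), (66702, 1021423),
  (92371, 917503), (93385, 1048063), (67092, 516055), (75528, 1048425), (68742, 876543), (79508, 1048567),
  (74924, 917503), (75210, 1048575), (74986, 1048574), (66771, 1040127), (74872, 1044479), (75398, 655351),
  (75278, 507790), (79500, 1048575), (90792, 1046521), (73968, 1012213), (76891, 1048575), (74954, 1048575),
  (75144, 1011179), (77163, 1048447), (75163, 1048543), (79462, 786431), (91836, 1048575), (75402, 1032190),
  (75226, 1048542), (79299, 1048559), (75459, 1046519), (76886, 1048575), (74853, 915439), (79531, 1048511),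
  (74829, 1044191), (75721, 1044443), (78210, 523183), (76950, 1015774), (67304, 778221), (80076, 1048573),
  (80108, 1014783), (74778, 1042395), (75206, 1048575), (6280, 416718), (75634, 1048439), (1302, 316758),
  (79480, 1030015), (8740, 326518), (78664, 1046491), (67363, 1023923), (8739, 178979), (12680, 979336),
  (68805, 1036245), (31939, 982783), (74897, 1047959), (8488, 982511), (70016, 1036764), (6275, 974731),
  (76885, 1015415), (75194, 524223), (75497, 1048575), (77161, 1044479), (75483, 786431), (74812, 1046526),
  (13914, 950271), (79842, 786431), (74183, 1043439), (75176, 1048558), (9400, 458239), (66708, 1040381),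
  (78956, 522239), (91832, 1048511), (75241, 1048575), (91800, 1048573), (70118, 1037814), (74313, 1047167),
  (77133, 1015677), (74247, 637511), (74590, 519038), (75228, 786431), (80534, 1014751), (76851, 1048503),
  (9275, 671547), (75095, 917495), (80768, 1015755), (76817, 1048503), (67760, 1035768), (75066, 1015807),
  (81091, 1048575), (80866, 1048575), (79975, 1048575), (73935, 1047551), (9428, 458716), (75752, 1046527),
  (77006, 1048575), (69892, 1039703), (9992, 980799), (73943, 1029879), (80745, 1048575), (75094, 1048575),
  (66054, 782023), (75084, 524159), (13470, 982431), (76831, 917439), (76839, 1048511), (10951, 978943),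
  (7333, 974311), (76949, 523679), (76887, 1048575), (77015, 1047767), (91752, 227311), (15459, 983039),
  (80327, 1048575), (81572, 1048574), (78592, 1046330), (65940, 1039764), (0, 445194), (67402, 1040362),
  (67345, 1038263), (76425, 913343), (79239, 1048567), (92305, 1044433), (67254, 385023), (70434, 1040190),
  (67750, 1035198), (70016, 1005040), (10144, 983019), (69648, 71189), (2210, 921506), (0, 55728),
  (0, 974848), (69888, 69902), (0, 983040), (74602, 1011707), (14954, 983023), (79596, 1048573),
  (79946, 1048283), (75374, 1042175), (74574, 995198), (79438, 786287), (75113, 1015807), (718, 450271),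
  (80620, 1048575), (79948, 1032159), (4778, 973823), (14936, 983037), (92550, 1048503), (74060, 1048063),
  (10470, 978430), (15018, 458751)]

end Pool.Agent.NG5c
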