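import Pool.Agent.NG5c.ASModel

/-!
# Kernel check of `Covers`  (task T8)

A set of patterns (20 slots) is a number below `2 ^ (2 ^ 20)`: the bit number `∑ 2 ^ j * P j` says whether the
pattern `P` is in the set. The union of the cubes, the exchange of two slots and hence the action of the
permutations of the five indices are a few operations on such numbers, which the kernel computes with big
number arithmetic: `cvCheck B` closes the union of the cubes (and of the cubes for `D ↦ (a, b ↦ !D b a)`) under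
the ten transpositions, in the order of the chain `S_2 ⊂ S_3 ⊂ S_4 ⊂ S_5`, and compares with the full set.
The cubes are given in blocks (`B.flatten` is the list of the cubes; blocks of at most 500 cubes keep the recursion
depth small). The check takes about two seconds for 1000 cubes.
-/

set_option autoImplicit false

namespace Pool.Agent.NG5c

open Finset

noncomputable section

/-! ### The check -/

/-- the set of the patterns of a cube, slots below `n` -/
def cvBits (v f n : Nat) : Nat :=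
  Nat.rec (motive := fun _ => Nat) 1 (fun j S =>
    Bool.rec (motive := fun _ => Nat)
      (Bool.rec (motive := fun _ => Nat) (Nat.shiftLeft S (Nat.pow 2 j)) S
        (Nat.beq (Nat.land (Nat.shiftRight v j) 1) 0))
      (Nat.lor S (Nat.shiftLeft S (Nat.pow 2 j)))
      (Nat.beq (Nat.land (Nat.shiftRight f j) 1) 0)) n

/-- `acc` and the sets for the lower 16 slots of the cubes that contain the value `t` of the upper slots -/
def cvSlice (e : Nat → Nat → Nat) (t : Nat) (L : List (Nat × Nat)) : Nat → Nat :=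
  List.rec (motive := fun _ => Nat → Nat) (fun acc => acc)
    (fun c _ ih acc => Bool.rec (motive := fun _ => Nat) (ih acc)
      ((fun X => Bool.rec (motive := fun _ => Nat) (ih X) (ih X) (Nat.beq X 0))
        (Nat.lor acc (cvBits (e c.1 c.2) c.2 16)))
      (Nat.beq (Nat.land (Nat.shiftRight c.2 16) t) (Nat.shiftRight (e c.1 c.2) 16))) L

/-- the same for several blocks -/
def cvSlices (e : Nat → Nat → Nat) (t : Nat) (B : List (List (Nat × Nat))) : Nat → Nat :=
  List.rec (motive := fun _ => Nat → Nat) (fun acc => acc)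
    (fun L _ ih acc => (fun X => Bool.rec (motive := fun _ => Nat) (ih X) (ih X) (Nat.beq X 0))
      (cvSlice e t L acc)) B

/-- the union of the cubes -/
def cvAll (e : Nat → Nat → Nat) (B : List (List (Nat × Nat))) : Nat :=
  Nat.rec (motive := fun _ => Nat) 0 (fun t X =>
    Nat.lor X (Nat.shiftLeft (cvSlices e t B 0) (Nat.mul 65536 t))) 16

/-- exchange of the slots `p < q` -/
def cvSwap (p q X : Nat) : Nat :=
  (fun s => (fun t => Nat.xor (Nat.xor X t) (Nat.shiftLeft t s))
    (Nat.land (Nat.xor (Nat.shiftRight X s) X)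
      (cvBits (Nat.pow 2 p) (Nat.lor (Nat.pow 2 p) (Nat.pow 2 q)) 20)))
    (Nat.sub (Nat.pow 2 q) (Nat.pow 2 p))

/-- several exchanges -/
def cvSwaps (l : List (Nat × Nat)) (X : Nat) : Nat :=
  List.rec (motive := fun _ => Nat) X (fun c _ ih => cvSwap c.1 c.2 ih) l

def cvL01 : List (Nat × Nat) := [(0, 4), (1, 5), (8, 9), (2, 6), (12, 13), (3, 7), (16, 17)]
def cvL02 : List (Nat × Nat) := [(1, 8), (0, 9), (4, 5), (2, 10), (12, 14), (3, 11), (16, 18)]
def cvL12 : List (Nat × Nat) := [(5, 9), (4, 8), (0, 1), (6, 10), (13, 14), (7, 11), (17, 18)]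
def cvL03 : List (Nat × Nat) := [(2, 12), (0, 13), (4, 6), (1, 14), (8, 10), (3, 15), (16, 19)]
def cvL13 : List (Nat × Nat) := [(6, 13), (4, 12), (0, 2), (5, 14), (9, 10), (7, 15), (17, 19)]
def cvL23 : List (Nat × Nat) := [(10, 14), (8, 12), (1, 2), (9, 13), (5, 6), (11, 15), (18, 19)]
def cvL04 : List (Nat × Nat) := [(3, 16), (0, 17), (4, 7), (1, 18), (8, 11), (2, 19), (12, 15)]
def cvL14 : List (Nat × Nat) := [(7, 17), (4, 16), (0, 3), (5, 18), (9, 11), (6, 19), (13, 15)]
def cvL24 : List (Nat × Nat) := [(11, 18), (8, 16), (1, 3), (9, 17), (5, 7), (10, 19), (14, 15)]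
def cvL34 : List (Nat × Nat) := [(15, 19), (12, 16), (2, 3), (13, 17), (6, 7), (14, 18), (10, 11)]

/-- `(a, b) ↦ (b, a)` -/
def cvLtr : List (Nat × Nat) :=
  [(0, 4), (1, 8), (2, 12), (3, 16), (5, 9), (6, 13), (7, 17), (10, 14), (11, 18), (15, 19)]

def cvS1 (X : Nat) : Nat := Nat.lor X (cvSwaps cvL01 X)
def cvS2 (X : Nat) : Nat := Nat.lor X (Nat.lor (cvSwaps cvL02 X) (cvSwaps cvL12 X))
def cvS3 (X : Nat) : Nat :=
  Nat.lor X (Nat.lor (cvSwaps cvL03 X) (Nat.lor (cvSwaps cvL13 X) (cvSwaps cvL23 X)))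
def cvS4 (X : Nat) : Nat :=
  Nat.lor X (Nat.lor (cvSwaps cvL04 X) (Nat.lor (cvSwaps cvL14 X)
    (Nat.lor (cvSwaps cvL24 X) (cvSwaps cvL34 X))))

/-- the union of all cubes and dual cubes -/
def cvBase (B : List (List (Nat × Nat))) : Nat :=
  Nat.lor (cvAll (fun v _ => v) B) (cvSwaps cvLtr (cvAll (fun v f => Nat.xor v f) B))

def cvCheckN (N : Nat) (B : List (List (Nat × Nat))) : Bool :=
  Nat.beq (cvS4 (cvS3 (cvS2 (cvS1 (cvBase B))))) (Nat.sub (Nat.pow 2 N) 1)

/-- The cubes of the blocks cover all patterns up to the symmetries. -/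
def cvCheck (B : List (List (Nat × Nat))) : Bool := cvCheckN 1048576 B

/-! ### Indices of patterns -/

/-- the index of a pattern of `n` slots -/
def cvIdx (P : ℕ → Bool) (n : ℕ) : ℕ := ∑ j ∈ range n, if P j = true then 2 ^ j else 0

theorem cvIdx_succ (P : ℕ → Bool) (n : ℕ) :
    cvIdx P (n + 1) = (if P n = true then 2 ^ n else 0) + cvIdx P n := by
  unfold cvIdx
  rw [sum_range_succ, add_comm]

theorem cvIdx_lt (P : ℕ → Bool) (n : ℕ) : cvIdx P n < 2 ^ n := by
  induction n with
  | zero => simp [cvIdx]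
  | succ n ih =>
    rw [cvIdx_succ, pow_succ]
    split_ifs <;> omega

theorem cvIdx_testBit (P : ℕ → Bool) (n j : ℕ) (hj : j < n) : (cvIdx P n).testBit j = P j := by
  induction n with
  | zero => omega
  | succ n ih =>
    rw [cvIdx_succ]
    have hlt := cvIdx_lt P n
    by_cases h : P n = true
    · rw [if_pos h]
      by_cases hjn : j = n
      · subst hjn
        rw [Nat.testBit_two_pow_add_eq, Nat.testBit_lt_two_pow hlt, h]
        rfl
      · rw [Nat.testBit_two_pow_add_gt (by omega)]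
        exact ih (by omega)
    · rw [if_neg h, zero_add]
      by_cases hjn : j = n
      · subst hjn
        rw [Nat.testBit_lt_two_pow hlt]
        simpa using h
      · exact ih (by omega)

theorem cvIdx_congr {P Q : ℕ → Bool} {n : ℕ} (h : ∀ j < n, P j = Q j) : cvIdx P n = cvIdx Q n := by
  unfold cvIdx
  refine sum_congr rfl fun j hj => ?_
  rw [h j (mem_range.1 hj)]

theorem cvIdx_inj {P Q : ℕ → Bool} {n : ℕ} (h : cvIdx P n = cvIdx Q n) (j : ℕ) (hj : j < n) :
    P j = Q j := by
  rw [← cvIdx_testBit P n j hj, h, cvIdx_testBit Q n j hj]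

theorem cvIdx_of_testBit (x n : ℕ) (hx : x < 2 ^ n) : cvIdx (fun j => x.testBit j) n = x := by
  apply Nat.eq_of_testBit_eq
  intro j
  by_cases hj : j < n
  · rw [cvIdx_testBit _ n j hj]
  · have h1 : 2 ^ n ≤ 2 ^ j := Nat.pow_le_pow_right (by norm_num) (by omega)
    rw [Nat.testBit_lt_two_pow (lt_of_lt_of_le (cvIdx_lt _ n) h1),
      Nat.testBit_lt_two_pow (lt_of_lt_of_le hx h1)]

theorem cv_bit (v j : ℕ) : Nat.beq (Nat.land (Nat.shiftRight v j) 1) 0 = !v.testBit j := by
  have h1 : v.testBit j = (1 &&& (v >>> j) != 0) := rfl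
  have h2 : Nat.land (Nat.shiftRight v j) 1 = 1 &&& (v >>> j) := Nat.land_comm _ _
  rw [h1, h2]
  generalize 1 &&& (v >>> j) = w
  cases w <;> rfl

/-! ### The set of a cube -/

theorem cvBits_zero (v f : ℕ) : cvBits v f 0 = 1 := rfl

theorem cvBits_succ (v f n : ℕ) : cvBits v f (n + 1) =
    if f.testBit n = true then (if v.testBit n = true then cvBits v f n <<< 2 ^ n else cvBits v f n)
      else cvBits v f n ||| (cvBits v f n <<< 2 ^ n) := by
  have h : cvBits v f (n + 1) = Bool.rec (motive := fun _ => Nat)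
      (Bool.rec (motive := fun _ => Nat) (Nat.shiftLeft (cvBits v f n) (Nat.pow 2 n)) (cvBits v f n)
        (Nat.beq (Nat.land (Nat.shiftRight v n) 1) 0))
      (Nat.lor (cvBits v f n) (Nat.shiftLeft (cvBits v f n) (Nat.pow 2 n)))
      (Nat.beq (Nat.land (Nat.shiftRight f n) 1) 0) := rfl
  rw [h, cv_bit, cv_bit]
  generalize cvBits v f n = S
  cases f.testBit n <;> cases v.testBit n <;> rfl

theorem cvBits_lt (v f n : ℕ) : cvBits v f n < 2 ^ 2 ^ n := by
  induction n with
  | zero => rw [cvBits_zero]; norm_num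
  | succ n ih =>
    have h0 : 2 ^ 2 ^ n ≤ 2 ^ 2 ^ (n + 1) :=
      Nat.pow_le_pow_right (by norm_num) (Nat.pow_le_pow_right (by norm_num) (by omega))
    have h1 : cvBits v f n <<< 2 ^ n < 2 ^ 2 ^ (n + 1) := by
      rw [Nat.shiftLeft_eq, pow_succ 2 n, mul_two, pow_add]
      exact Nat.mul_lt_mul_of_pos_right ih (by positivity)
    have h2 : cvBits v f n < 2 ^ 2 ^ (n + 1) := lt_of_lt_of_le ih h0
    rw [cvBits_succ]
    split_ifs
    · exact h1
    · exact h2
    · exact Nat.or_lt_two_pow h2 h1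

theorem cvBits_idx (v f : ℕ) (P : ℕ → Bool) (n : ℕ) : (cvBits v f n).testBit (cvIdx P n) = true ↔
    ∀ j < n, f.testBit j = true → v.testBit j = P j := by
  induction n with
  | zero => simp [cvBits_zero, cvIdx]
  | succ n ih =>
    have hS := cvBits_lt v f n
    have hi := cvIdx_lt P n
    have hbig : ∀ k, 2 ^ n ≤ k → (cvBits v f n).testBit k = false := by
      intro k hk
      exact Nat.testBit_lt_two_pow (lt_of_lt_of_le hS (Nat.pow_le_pow_right (by norm_num) hk))
    have hsplit : (∀ j < n + 1, f.testBit j = true → v.testBit j = P j) ↔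
        (f.testBit n = true → v.testBit n = P n) ∧
          ∀ j < n, f.testBit j = true → v.testBit j = P j := by
      constructor
      · intro h
        exact ⟨h n (by omega), fun j hj => h j (by omega)⟩
      · rintro ⟨h1, h2⟩ j hj
        rcases Nat.lt_succ_iff_lt_or_eq.1 hj with h3 | h3
        · exact h2 j h3
        · rw [h3]; exact h1
    rw [hsplit, ← ih, cvIdx_succ, cvBits_succ]
    by_cases hP : P n = true
    · rw [if_pos hP, hP]
      have h1 : (cvBits v f n).testBit (2 ^ n + cvIdx P n) = false := hbig _ (by omega)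
      have h2 : (cvBits v f n <<< 2 ^ n).testBit (2 ^ n + cvIdx P n) =
          (cvBits v f n).testBit (cvIdx P n) := by
        rw [Nat.testBit_shiftLeft]
        simp
      by_cases hf : f.testBit n = true
      · rw [if_pos hf]
        by_cases hv : v.testBit n = true
        · rw [if_pos hv, h2]
          simp [hv]
        · rw [if_neg hv, h1]
          simp [hf, hv]
      · rw [if_neg hf, Nat.testBit_or, h1, h2]
        simp [hf]
    · rw [if_neg hP, zero_add]
      have hP' : P n = false := by simpa using hP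
      rw [hP']
      have h2 : (cvBits v f n <<< 2 ^ n).testBit (cvIdx P n) = false := by
        rw [Nat.testBit_shiftLeft]
        have : ¬ (2 ^ n ≤ cvIdx P n) := by omega
        simp [this]
      by_cases hf : f.testBit n = true
      · rw [if_pos hf]
        by_cases hv : v.testBit n = true
        · rw [if_pos hv, h2]
          simp [hf, hv]
        · rw [if_neg hv]
          simp [hv]
      · rw [if_neg hf, Nat.testBit_or, h2]
        simp [hf]

/-! ### Exchange of slots -/

theorem cvIdx_swap {P : ℕ → Bool} {n p q : ℕ} (hp : p < n) (hq : q < n) (hpq : p ≠ q)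
    (h1 : P p = true) (h2 : P q = false) :
    cvIdx (fun j => P (Equiv.swap p q j)) n + 2 ^ p = cvIdx P n + 2 ^ q := by
  unfold cvIdx
  have e1 : ∑ j ∈ range n, (if j = p then 2 ^ p else 0) = 2 ^ p := by
    rw [sum_ite_eq' (range n) p, if_pos (mem_range.2 hp)]
  have e2 : ∑ j ∈ range n, (if j = q then 2 ^ q else 0) = 2 ^ q := by
    rw [sum_ite_eq' (range n) q, if_pos (mem_range.2 hq)]
  rw [← e1, ← e2, ← sum_add_distrib, ← sum_add_distrib]
  refine sum_congr rfl fun j _ => ?_
  change (if P (Equiv.swap p q j) = true then 2 ^ j else 0) + (if j = p then 2 ^ p else 0) =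
    (if P j = true then 2 ^ j else 0) + (if j = q then 2 ^ q else 0)
  by_cases hjp : j = p
  · rw [hjp, Equiv.swap_apply_left, h2, h1, if_neg hpq]
    simp
  · by_cases hjq : j = q
    · rw [hjq, Equiv.swap_apply_right, h2, h1, if_neg (Ne.symm hpq)]
      simp
    · rw [Equiv.swap_apply_of_ne_of_ne hjp hjq, if_neg hjp, if_neg hjq]

/-- the mask of the slots `p`, `q` -/
theorem cvMask (p q : ℕ) (hpq : p ≠ q) (hp : p < 20) (hq : q < 20) (P : ℕ → Bool) :
    (cvBits (2 ^ p) (2 ^ p ||| 2 ^ q) 20).testBit (cvIdx P 20) = true ↔ P p = true ∧ P q = false := by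
  rw [cvBits_idx]
  constructor
  · intro h
    have h1 := h p hp (by simp)
    have h2 := h q hq (by simp)
    rw [Nat.testBit_two_pow_self] at h1
    rw [Nat.testBit_two_pow_of_ne hpq] at h2
    exact ⟨h1.symm, h2.symm⟩
  · rintro ⟨h1, h2⟩ j _ hj
    rw [Nat.testBit_or, Nat.testBit_two_pow, Nat.testBit_two_pow] at hj
    simp only [Bool.or_eq_true, decide_eq_true_eq] at hj
    rcases hj with rfl | rfl
    · rw [Nat.testBit_two_pow_self, h1]
    · rw [Nat.testBit_two_pow_of_ne hpq, h2]

theorem cvSwap_eq (p q X : ℕ) : cvSwap p q X =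
    (X ^^^ (((X >>> (2 ^ q - 2 ^ p)) ^^^ X) &&& cvBits (2 ^ p) (2 ^ p ||| 2 ^ q) 20)) ^^^
      ((((X >>> (2 ^ q - 2 ^ p)) ^^^ X) &&& cvBits (2 ^ p) (2 ^ p ||| 2 ^ q) 20) <<<
        (2 ^ q - 2 ^ p)) := rfl

theorem cvSwap_idx (p q X : ℕ) (hpq : p < q) (hq : q < 20) (P : ℕ → Bool) :
    (cvSwap p q X).testBit (cvIdx P 20) = X.testBit (cvIdx (fun j => P (Equiv.swap p q j)) 20) := by
  have hp : p < 20 := by omega
  have hne : p ≠ q := by omega
  have hpow : 2 ^ p < 2 ^ q := Nat.pow_lt_pow_right (by norm_num) hpq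
  rw [cvSwap_eq]
  obtain ⟨s, hs⟩ : ∃ s, 2 ^ q - 2 ^ p = s := ⟨_, rfl⟩
  rw [hs]
  obtain ⟨M, hM⟩ : ∃ M, cvBits (2 ^ p) (2 ^ p ||| 2 ^ q) 20 = M := ⟨_, rfl⟩
  have hmask := fun P => cvMask p q hne hp hq P
  rw [hM] at hmask ⊢
  rw [Nat.testBit_xor, Nat.testBit_xor, Nat.testBit_shiftLeft]
  simp only [Nat.testBit_and, Nat.testBit_xor, Nat.testBit_shiftRight]
  -- if the mask has the bit `i - s` then `P p = false`, `P q = true`
  have key : ∀ Q : ℕ → Bool, cvIdx Q 20 + s = cvIdx P 20 → M.testBit (cvIdx Q 20) = true →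
      P p = false ∧ P q = true := by
    intro Q hQ hMQ
    obtain ⟨h1, h2⟩ := (hmask Q).1 hMQ
    have h3 := cvIdx_swap hp hq hne h1 h2
    have h4 : cvIdx (fun j => Q (Equiv.swap p q j)) 20 = cvIdx P 20 := by omega
    have h5 := cvIdx_inj h4 p hp
    have h6 := cvIdx_inj h4 q hq
    simp only [Equiv.swap_apply_left, Equiv.swap_apply_right] at h5 h6
    exact ⟨by rw [← h5, h2], by rw [← h6, h1]⟩
  have key' : ¬ (P p = false ∧ P q = true) → s ≤ cvIdx P 20 →
      M.testBit (cvIdx P 20 - s) = false := by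
    intro hP hle
    by_contra hne'
    have h1 : M.testBit (cvIdx P 20 - s) = true := by simpa using hne'
    have hlt := cvIdx_lt P 20
    have h2 := cvIdx_of_testBit (cvIdx P 20 - s) 20 (by omega)
    rw [← h2] at h1
    exact hP (key _ (by rw [h2]; omega) h1)
  cases hPp : P p <;> cases hPq : P q
  · -- equal
    have e0 : cvIdx (fun j => P (Equiv.swap p q j)) 20 = cvIdx P 20 := by
      refine cvIdx_congr fun j _ => ?_
      by_cases hjp : j = p
      · rw [hjp, Equiv.swap_apply_left, hPp, hPq]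
      · by_cases hjq : j = q
        · rw [hjq, Equiv.swap_apply_right, hPp, hPq]
        · rw [Equiv.swap_apply_of_ne_of_ne hjp hjq]
    have e1 : M.testBit (cvIdx P 20) = false := by
      by_contra h
      have := (hmask P).1 (by simpa using h)
      rw [hPp] at this
      exact absurd this.1 (by simp)
    rw [e0, e1]
    by_cases hle : s ≤ cvIdx P 20
    · rw [key' (by rw [hPq]; simp) hle]
      simp
    · simp [hle]
  · -- `P p = false`, `P q = true`
    have e1 : M.testBit (cvIdx P 20) = false := by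
      by_contra h
      have := (hmask P).1 (by simpa using h)
      rw [hPp] at this
      exact absurd this.1 (by simp)
    obtain ⟨Q, hQ⟩ : ∃ Q : ℕ → Bool, Q = fun j => P (Equiv.swap p q j) := ⟨_, rfl⟩
    have hQp : Q p = true := by rw [hQ]; simp [hPq]
    have hQq : Q q = false := by rw [hQ]; simp [hPp]
    have h3 := cvIdx_swap hp hq hne hQp hQq
    have h4 : (fun j => Q (Equiv.swap p q j)) = P := by
      funext j
      rw [hQ]
      simp
    rw [h4] at h3
    have h5 : cvIdx P 20 = s + cvIdx Q 20 := by omega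
    have e2 : M.testBit (cvIdx Q 20) = true := (hmask Q).2 ⟨hQp, hQq⟩
    rw [← hQ, e1]
    have hle : s ≤ cvIdx P 20 := by omega
    have e3 : cvIdx P 20 - s = cvIdx Q 20 := by omega
    rw [e3, e2, ← h5]
    simp [hle]
  · -- `P p = true`, `P q = false`
    have e1 : M.testBit (cvIdx P 20) = true := (hmask P).2 ⟨hPp, hPq⟩
    have h3 := cvIdx_swap hp hq hne hPp hPq
    have h5 : cvIdx (fun j => P (Equiv.swap p q j)) 20 = s + cvIdx P 20 := by omega
    rw [h5, e1]
    by_cases hle : s ≤ cvIdx P 20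
    · rw [key' (by rw [hPq]; simp) hle]
      generalize X.testBit (cvIdx P 20) = u
      generalize X.testBit (s + cvIdx P 20) = w
      cases u <;> cases w <;> simp
    · rw [decide_eq_false hle]
      generalize X.testBit (cvIdx P 20) = u
      generalize X.testBit (s + cvIdx P 20) = w
      cases u <;> cases w <;> simp
  · -- equal
    have e0 : cvIdx (fun j => P (Equiv.swap p q j)) 20 = cvIdx P 20 := by
      refine cvIdx_congr fun j _ => ?_
      by_cases hjp : j = p
      · rw [hjp, Equiv.swap_apply_left, hPp, hPq]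
      · by_cases hjq : j = q
        · rw [hjq, Equiv.swap_apply_right, hPp, hPq]
        · rw [Equiv.swap_apply_of_ne_of_ne hjp hjq]
    have e1 : M.testBit (cvIdx P 20) = false := by
      by_contra h
      have := (hmask P).1 (by simpa using h)
      rw [hPq] at this
      exact absurd this.2 (by simp)
    rw [e0, e1]
    by_cases hle : s ≤ cvIdx P 20
    · rw [key' (by rw [hPp]; simp) hle]
      simp
    · simp [hle]

/-- the permutation of the slots -/
def cvPerm (l : List (ℕ × ℕ)) (j : ℕ) : ℕ :=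
  match l with
  | [] => j
  | c :: l => Equiv.swap c.1 c.2 (cvPerm l j)

theorem cvSwaps_idx (l : List (ℕ × ℕ)) (hl : ∀ c ∈ l, c.1 < c.2 ∧ c.2 < 20) (X : ℕ) (P : ℕ → Bool) :
    (cvSwaps l X).testBit (cvIdx P 20) = X.testBit (cvIdx (fun j => P (cvPerm l j)) 20) := by
  induction l generalizing P with
  | nil => rfl
  | cons c l ih =>
    have h1 := hl c List.mem_cons_self
    have h2 : cvSwaps (c :: l) X = cvSwap c.1 c.2 (cvSwaps l X) := rfl
    rw [h2, cvSwap_idx _ _ _ h1.1 h1.2, ih (fun d hd => hl d (List.mem_cons_of_mem _ hd))]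
    rfl

/-! ### The union of the cubes -/

theorem cvSlice_cons (e : ℕ → ℕ → ℕ) (t : ℕ) (c : ℕ × ℕ) (L : List (ℕ × ℕ)) (acc : ℕ) :
    cvSlice e t (c :: L) acc =
      if (c.2 >>> 16) &&& t = (e c.1 c.2) >>> 16 then
        cvSlice e t L (acc ||| cvBits (e c.1 c.2) c.2 16) else cvSlice e t L acc := by
  have h : cvSlice e t (c :: L) acc = Bool.rec (motive := fun _ => Nat) (cvSlice e t L acc)
      (Bool.rec (motive := fun _ => Nat) (cvSlice e t L (acc ||| cvBits (e c.1 c.2) c.2 16))
        (cvSlice e t L (acc ||| cvBits (e c.1 c.2) c.2 16))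
        (Nat.beq (acc ||| cvBits (e c.1 c.2) c.2 16) 0))
      (Nat.beq ((c.2 >>> 16) &&& t) ((e c.1 c.2) >>> 16)) := rfl
  rw [h]
  by_cases hc : (c.2 >>> 16) &&& t = (e c.1 c.2) >>> 16
  · have hb : Nat.beq ((c.2 >>> 16) &&& t) ((e c.1 c.2) >>> 16) = true := by
      rw [hc]
      exact Nat.beq_refl _
    rw [if_pos hc, hb]
    cases Nat.beq (acc ||| cvBits (e c.1 c.2) c.2 16) 0 <;> rfl
  · rw [if_neg hc]
    have : Nat.beq ((c.2 >>> 16) &&& t) ((e c.1 c.2) >>> 16) = false := by
      by_contra h'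
      exact hc (Nat.eq_of_beq_eq_true (by simpa using h'))
    rw [this]

theorem cvSlice_bit (e : ℕ → ℕ → ℕ) (t : ℕ) (L : List (ℕ × ℕ)) (acc k : ℕ)
    (h : (cvSlice e t L acc).testBit k = true) : acc.testBit k = true ∨ ∃ c ∈ L,
      (c.2 >>> 16) &&& t = (e c.1 c.2) >>> 16 ∧ (cvBits (e c.1 c.2) c.2 16).testBit k = true := by
  induction L generalizing acc with
  | nil => exact Or.inl h
  | cons c L ih =>
    rw [cvSlice_cons] at h
    split_ifs at h with hc
    · rcases ih _ h with h1 | ⟨d, hd, h1⟩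
      · rw [Nat.testBit_or, Bool.or_eq_true] at h1
        rcases h1 with h1 | h1
        · exact Or.inl h1
        · exact Or.inr ⟨c, List.mem_cons_self, hc, h1⟩
      · exact Or.inr ⟨d, List.mem_cons_of_mem _ hd, h1⟩
    · rcases ih _ h with h1 | ⟨d, hd, h1⟩
      · exact Or.inl h1
      · exact Or.inr ⟨d, List.mem_cons_of_mem _ hd, h1⟩

theorem cvSlices_bit (e : ℕ → ℕ → ℕ) (t : ℕ) (B : List (List (ℕ × ℕ))) (acc k : ℕ)
    (h : (cvSlices e t B acc).testBit k = true) : acc.testBit k = true ∨ ∃ c ∈ B.flatten,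
      (c.2 >>> 16) &&& t = (e c.1 c.2) >>> 16 ∧ (cvBits (e c.1 c.2) c.2 16).testBit k = true := by
  induction B generalizing acc with
  | nil => exact Or.inl h
  | cons L B ih =>
    have h0 : cvSlices e t (L :: B) acc = cvSlices e t B (cvSlice e t L acc) := by
      have h' : cvSlices e t (L :: B) acc = Bool.rec (motive := fun _ => Nat)
        (cvSlices e t B (cvSlice e t L acc)) (cvSlices e t B (cvSlice e t L acc))
          (Nat.beq (cvSlice e t L acc) 0) := rfl
      rw [h']
      cases Nat.beq (cvSlice e t L acc) 0 <;> rfl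
    rw [h0] at h
    rw [List.flatten_cons]
    rcases ih _ h with h1 | ⟨d, hd, h1⟩
    · rcases cvSlice_bit e t L acc k h1 with h2 | ⟨d, hd, h2⟩
      · exact Or.inl h2
      · exact Or.inr ⟨d, List.mem_append_left _ hd, h2⟩
    · exact Or.inr ⟨d, List.mem_append_right _ hd, h1⟩

theorem cvAll_bit (e : ℕ → ℕ → ℕ) (B : List (List (ℕ × ℕ))) (P : ℕ → Bool)
    (h : (cvAll e B).testBit (cvIdx P 20) = true) :
    ∃ c ∈ B.flatten, ∀ j < 20, c.2.testBit j = true → (e c.1 c.2).testBit j = P j := by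
  have gen : ∀ (n i : ℕ), (Nat.rec (motive := fun _ => Nat) 0 (fun t X =>
      Nat.lor X (Nat.shiftLeft (cvSlices e t B 0) (Nat.mul 65536 t))) n : ℕ).testBit i = true →
      ∃ t < n, 65536 * t ≤ i ∧ (cvSlices e t B 0).testBit (i - 65536 * t) = true := by
    intro n i hn
    induction n with
    | zero => simp at hn
    | succ n ih =>
      have h1 : ((Nat.rec (motive := fun _ => Nat) 0 (fun t X =>
          Nat.lor X (Nat.shiftLeft (cvSlices e t B 0) (Nat.mul 65536 t))) n : ℕ) |||
          (cvSlices e n B 0 <<< (65536 * n))).testBit i = true := hn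
      rw [Nat.testBit_or, Bool.or_eq_true] at h1
      rcases h1 with h1 | h1
      · obtain ⟨t, ht, h2⟩ := ih h1
        exact ⟨t, by omega, h2⟩
      · rw [Nat.testBit_shiftLeft, Bool.and_eq_true, decide_eq_true_eq] at h1
        exact ⟨n, by omega, h1⟩
  obtain ⟨t, ht, hle, h1⟩ := gen 16 _ h
  rcases cvSlices_bit e t B 0 _ h1 with h2 | ⟨c, hc, h2, h3⟩
  · simp at h2
  refine ⟨c, hc, ?_⟩
  obtain ⟨k, hk⟩ : ∃ k, cvIdx P 20 - 65536 * t = k := ⟨_, rfl⟩
  rw [hk] at h3
  have hk16 : k < 2 ^ 16 := by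
    by_contra hge
    have h4 := cvBits_lt (e c.1 c.2) c.2 16
    have h5 := Nat.testBit_lt_two_pow (lt_of_lt_of_le h4
      (Nat.pow_le_pow_right (by norm_num : 0 < 2) (not_lt.1 hge)))
    rw [h5] at h3
    exact absurd h3 (by simp)
  have hidx : cvIdx P 20 = 2 ^ 16 * t + k := by
    have : 65536 * t = 2 ^ 16 * t := by norm_num
    omega
  have hbit : ∀ j < 20, P j = if j < 16 then k.testBit j else t.testBit (j - 16) := by
    intro j hj
    rw [← cvIdx_testBit P 20 j hj, hidx, Nat.testBit_two_pow_mul_add _ hk16]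
  rw [← cvIdx_of_testBit k 16 hk16, cvBits_idx] at h3
  intro j hj hf
  by_cases hj16 : j < 16
  · rw [hbit j hj, if_pos hj16]
    exact h3 j hj16 hf
  · rw [hbit j hj, if_neg hj16]
    have h6 := congrArg (fun x => x.testBit (j - 16)) h2
    simp only [Nat.testBit_and, Nat.testBit_shiftRight] at h6
    have h7 : 16 + (j - 16) = j := by omega
    rw [h7, hf, Bool.true_and] at h6
    exact h6.symm

/-! ### Patterns -/

/-- the pair of the slot `j` -/
def cvRC (j : ℕ) : Fin 5 × Fin 5 :=
  (Fin.ofNat 5 (j / 4), Fin.ofNat 5 (if j % 4 < j / 4 then j % 4 else j % 4 + 1))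

/-- the values of the pattern in the slots -/
def cvPat (D : Fin 5 → Fin 5 → Bool) (j : ℕ) : Bool := D (cvRC j).1 (cvRC j).2

theorem cvRC_slot : ∀ a b : Fin 5, a ≠ b → slot a b < 20 ∧ cvRC (slot a b) = (a, b) := by
  decide +kernel

theorem cvPat_slot (D : Fin 5 → Fin 5 → Bool) (a b : Fin 5) (h : a ≠ b) :
    cvPat D (slot a b) = D a b := by
  unfold cvPat
  rw [(cvRC_slot a b h).2]

/-- the pattern is in a cube up to the symmetries -/
def CvHit (L : List (ℕ × ℕ)) (D : Fin 5 → Fin 5 → Bool) : Prop :=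
  ∃ σ : Equiv.Perm (Fin 5), ∃ c ∈ L,
    InCube c (fun a b => D (σ a) (σ b)) ∨ InCube c (fun a b => !D (σ b) (σ a))

/-- all elements of the set are good patterns -/
def CvGood (L : List (ℕ × ℕ)) (X : ℕ) : Prop :=
  ∀ D, X.testBit (cvIdx (cvPat D) 20) = true → CvHit L D

theorem CvGood.lor {L : List (ℕ × ℕ)} {X Y : ℕ} (hX : CvGood L X) (hY : CvGood L Y) :
    CvGood L (Nat.lor X Y) := by
  intro D h
  have h1 : (X ||| Y).testBit (cvIdx (cvPat D) 20) = true := h
  rw [Nat.testBit_or, Bool.or_eq_true] at h1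
  exact h1.elim (hX D) (hY D)

theorem CvGood.swaps {L : List (ℕ × ℕ)} {X : ℕ} (hX : CvGood L X) (l : List (ℕ × ℕ))
    (hl : ∀ c ∈ l, c.1 < c.2 ∧ c.2 < 20) (a b : Fin 5)
    (hrc : ∀ j < 20, cvRC (cvPerm l j) = (Equiv.swap a b (cvRC j).1, Equiv.swap a b (cvRC j).2)) :
    CvGood L (cvSwaps l X) := by
  intro D h
  rw [cvSwaps_idx l hl] at h
  have e : cvIdx (fun j => cvPat D (cvPerm l j)) 20 =
      cvIdx (cvPat fun x y => D (Equiv.swap a b x) (Equiv.swap a b y)) 20 := by
    refine cvIdx_congr fun j hj => ?_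
    unfold cvPat
    rw [hrc j hj]
  rw [e] at h
  obtain ⟨σ, c, hc, h1⟩ := hX _ h
  exact ⟨Equiv.swap a b * σ, c, hc, h1⟩

theorem cvGood_all (B : List (List (ℕ × ℕ))) : CvGood B.flatten (cvAll (fun v _ => v) B) := by
  intro D h
  obtain ⟨c, hc, h1⟩ := cvAll_bit _ B _ h
  refine ⟨1, c, hc, Or.inl ?_⟩
  intro a b hab hf
  have h2 := h1 (slot a b) (cvRC_slot a b hab).1 hf
  rw [cvPat_slot D a b hab] at h2
  exact h2

theorem cvGood_dual (B : List (List (ℕ × ℕ))) :
    CvGood B.flatten (cvSwaps cvLtr (cvAll (fun v f => Nat.xor v f) B)) := by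
  intro D h
  rw [cvSwaps_idx cvLtr (by decide)] at h
  obtain ⟨c, hc, h1⟩ := cvAll_bit _ B _ h
  refine ⟨1, c, hc, Or.inr ?_⟩
  have htr : ∀ j < 20, cvRC (cvPerm cvLtr j) = ((cvRC j).2, (cvRC j).1) := by decide +kernel
  intro a b hab hf
  have h2 := h1 (slot a b) (cvRC_slot a b hab).1 hf
  have h3 : cvPat D (cvPerm cvLtr (slot a b)) = D b a := by
    unfold cvPat
    rw [htr _ (cvRC_slot a b hab).1, (cvRC_slot a b hab).2]
  have h4 : (c.1 ^^^ c.2).testBit (slot a b) = D b a := by
    rw [← h3]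
    exact h2
  rw [Nat.testBit_xor, hf] at h4
  simp only [Equiv.Perm.coe_one, id_eq]
  rw [← h4]
  simp

theorem cvFull_bit (n i : ℕ) (h : i < n) : (Nat.sub (Nat.pow 2 n) 1).testBit i = true := by
  have h1 : Nat.sub (Nat.pow 2 n) 1 = 2 ^ n - 1 := rfl
  rw [h1, Nat.testBit_two_pow_sub_one]
  exact decide_eq_true h

theorem covers_of_checkN (N : ℕ) (hN : 2 ^ 20 ≤ N) (B : List (List (ℕ × ℕ)))
    (h : cvCheckN N B = true) : Covers B.flatten := by
  have g0 : CvGood B.flatten (cvBase B) := (cvGood_all B).lor (cvGood_dual B)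
  have g1 : CvGood B.flatten (cvS1 (cvBase B)) :=
    g0.lor (g0.swaps cvL01 (by decide) 0 1 (by decide +kernel))
  have g2 : CvGood B.flatten (cvS2 (cvS1 (cvBase B))) :=
    g1.lor ((g1.swaps cvL02 (by decide) 0 2 (by decide +kernel)).lor
      (g1.swaps cvL12 (by decide) 1 2 (by decide +kernel)))
  have g3 : CvGood B.flatten (cvS3 (cvS2 (cvS1 (cvBase B)))) :=
    g2.lor ((g2.swaps cvL03 (by decide) 0 3 (by decide +kernel)).lor
      ((g2.swaps cvL13 (by decide) 1 3 (by decide +kernel)).lor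
        (g2.swaps cvL23 (by decide) 2 3 (by decide +kernel))))
  have g4 : CvGood B.flatten (cvS4 (cvS3 (cvS2 (cvS1 (cvBase B))))) :=
    g3.lor ((g3.swaps cvL04 (by decide) 0 4 (by decide +kernel)).lor
      ((g3.swaps cvL14 (by decide) 1 4 (by decide +kernel)).lor
        ((g3.swaps cvL24 (by decide) 2 4 (by decide +kernel)).lor
          (g3.swaps cvL34 (by decide) 3 4 (by decide +kernel)))))
  have h1 : cvS4 (cvS3 (cvS2 (cvS1 (cvBase B)))) = Nat.sub (Nat.pow 2 N) 1 :=
    Nat.eq_of_beq_eq_true h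
  intro D
  apply g4 D
  rw [h1]
  exact cvFull_bit N _ (lt_of_lt_of_le (cvIdx_lt (cvPat D) 20) hN)

theorem covers_of_check (B : List (List (ℕ × ℕ))) (h : cvCheck B = true) : Covers B.flatten :=
  covers_of_checkN 1048576 (by norm_num) B h

theorem Covers.mono {L L' : List (ℕ × ℕ)} (h : Covers L) (hL : ∀ c ∈ L, c ∈ L') : Covers L' := by
  intro D
  obtain ⟨σ, c, hc, h1⟩ := h D
  exact ⟨σ, c, hL c hc, h1⟩

/-- one block -/
theorem covers_of_check_one (L : List (ℕ × ℕ)) (h : cvCheck [L] = true) : Covers L := by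
  have h1 := covers_of_check [L] h
  simpa using h1

end

end Pool.Agent.NG5c
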