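import Mathlib
import Pool.Agent.NG5c.Chk

/-!
# Digits of numbers in base `2 ^ 16`
-/

set_option autoImplicit false

namespace Pool.Agent.NG5c

open Finset

/-- the digit at position `d` -/
def dig (n d : ℕ) : ℕ := n / 2 ^ (16 * d) % 2 ^ 16

theorem dig_lt (n d : ℕ) : dig n d < 2 ^ 16 := Nat.mod_lt _ (by norm_num)

theorem dig_zero_left (d : ℕ) : dig 0 d = 0 := by simp [dig]

theorem dig_div (n k d : ℕ) : dig (n / 2 ^ (16 * k)) d = dig n (k + d) := by
  unfold dig
  rw [Nat.div_div_eq_div_mul, ← pow_add, ← mul_add]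

theorem div_add_of_dig (n m : ℕ) : ∀ d, (∀ e < d, dig n e + dig m e < 2 ^ 16) →
    (n + m) / 2 ^ (16 * d) = n / 2 ^ (16 * d) + m / 2 ^ (16 * d)
  | 0, _ => by simp
  | d + 1, h => by
    have ih := div_add_of_dig n m d (fun e he => h e (by omega))
    have hd := h d (by omega)
    have e1 : 2 ^ (16 * (d + 1)) = 2 ^ (16 * d) * 2 ^ 16 := by rw [← pow_add]; ring_nf
    rw [e1, ← Nat.div_div_eq_div_mul, ← Nat.div_div_eq_div_mul, ← Nat.div_div_eq_div_mul, ih,
      Nat.add_div (by norm_num)]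
    unfold dig at hd
    rw [if_neg (by omega)]
    simp

theorem dig_add (n m d : ℕ) (h : ∀ e ≤ d, dig n e + dig m e < 2 ^ 16) :
    dig (n + m) d = dig n d + dig m d := by
  have h1 := div_add_of_dig n m d (fun e he => h e (by omega))
  have h2 := h d le_rfl
  unfold dig at h2 ⊢
  rw [h1, Nat.add_mod, Nat.mod_eq_of_lt h2]

/-- All digits at positions `< w` are at most `b`. -/
def Bd (w b n : ℕ) : Prop := ∀ d < w, dig n d ≤ b

theorem Bd.mono {w b c n : ℕ} (h : Bd w b n) (hbc : b ≤ c) : Bd w c n :=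
  fun d hd => (h d hd).trans hbc

theorem bd_zero (w : ℕ) : Bd w 0 0 := fun d _ => by simp [dig_zero_left]

theorem dig_add_bd {w a b n m : ℕ} (hn : Bd w a n) (hm : Bd w b m) (hab : a + b < 2 ^ 16)
    {d : ℕ} (hd : d < w) : dig (n + m) d = dig n d + dig m d :=
  dig_add n m d (fun e he => by
    have := hn e (by omega); have := hm e (by omega); omega)

theorem Bd.add {w a b n m : ℕ} (hn : Bd w a n) (hm : Bd w b m) (hab : a + b < 2 ^ 16) :
    Bd w (a + b) (n + m) := fun d hd => by
  rw [dig_add_bd hn hm hab hd]; exact Nat.add_le_add (hn d hd) (hm d hd)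

theorem dig_mul_bd {w a n : ℕ} (hn : Bd w a n) : ∀ c : ℕ, c * a < 2 ^ 16 →
    ∀ d < w, dig (c * n) d = c * dig n d
  | 0, _, d, _ => by simp [dig_zero_left]
  | c + 1, h, d, hd => by
    have h' : c * a < 2 ^ 16 := lt_of_le_of_lt (by nlinarith) h
    have ih := dig_mul_bd hn c h'
    have hb : Bd w (c * a) (c * n) := fun e he => by
      rw [ih e he]; exact Nat.mul_le_mul_left _ (hn e he)
    rw [add_mul, one_mul, dig_add_bd hb hn (by nlinarith) hd, ih d hd, add_mul, one_mul]

theorem Bd.mul {w a n : ℕ} (hn : Bd w a n) (c : ℕ) (h : c * a < 2 ^ 16) : Bd w (c * a) (c * n) :=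
  fun d hd => by rw [dig_mul_bd hn c h d hd]; exact Nat.mul_le_mul_left _ (hn d hd)

/-- digit of a single term -/
theorem dig_shiftLeft (c p d : ℕ) (hc : c < 2 ^ 16) :
    dig (c <<< (16 * p)) d = if d = p then c else 0 := by
  unfold dig
  rw [Nat.shiftLeft_eq]
  split
  · next h => subst h; rw [Nat.mul_div_cancel _ (by positivity), Nat.mod_eq_of_lt hc]
  · next h =>
    rcases lt_or_gt_of_ne h with h | h
    · obtain ⟨k, rfl⟩ := Nat.exists_eq_add_of_lt h
      have : c * 2 ^ (16 * (d + k + 1)) = (c * 2 ^ (16 * k) * 2 ^ 16) * 2 ^ (16 * d) := by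
        rw [mul_assoc, mul_assoc, ← pow_add, ← pow_add]; congr 2; ring
      rw [this, Nat.mul_div_cancel _ (by positivity), Nat.mul_mod_left]
    · obtain ⟨k, rfl⟩ := Nat.exists_eq_add_of_lt h
      have : 2 ^ (16 * (p + k + 1)) = 2 ^ (16 * p) * 2 ^ (16 * (k + 1)) := by
        rw [← pow_add]; congr 1; ring
      rw [this, ← Nat.div_div_eq_div_mul, Nat.mul_div_cancel _ (by positivity),
        Nat.div_eq_of_lt (lt_of_lt_of_le hc (Nat.pow_le_pow_right (by norm_num) (by omega))),
        Nat.zero_mod]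

theorem bd_shiftLeft (w c p : ℕ) (hc : c < 2 ^ 16) : Bd w c (c <<< (16 * p)) := fun d _ => by
  rw [dig_shiftLeft c p d hc]; split <;> omega

theorem dig_land (n m d : ℕ) : dig (n &&& m) d = dig n d &&& dig m d := by
  unfold dig
  apply Nat.eq_of_testBit_eq
  intro i
  simp only [Nat.testBit_and, Nat.testBit_mod_two_pow, Nat.testBit_div_two_pow]
  by_cases hi : i < 16 <;> simp [hi]

theorem land_le (a b : ℕ) : a &&& b ≤ a := Nat.and_le_left

theorem Bd.land {w b n : ℕ} (h : Bd w b n) (m : ℕ) : Bd w b (n &&& m) := fun d hd => by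
  rw [dig_land]; exact Nat.and_le_left.trans (h d hd)

/-- the value of the block `m` -/
def ev (x : ℕ → ℕ) (m n : ℕ) : ℕ := ∑ d ∈ range 256, dig n (256 * m + d) * x d

theorem ev_add {w a b n k : ℕ} (x : ℕ → ℕ) (m : ℕ) (hn : Bd w a n) (hk : Bd w b k)
    (hab : a + b < 2 ^ 16) (hm : 256 * m + 256 ≤ w) : ev x m (n + k) = ev x m n + ev x m k := by
  unfold ev
  rw [← sum_add_distrib]
  refine sum_congr rfl fun d hd => ?_
  rw [mem_range] at hd
  rw [dig_add_bd hn hk hab (by omega), add_mul]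

theorem ev_mul {w a n : ℕ} (x : ℕ → ℕ) (m : ℕ) (hn : Bd w a n) (c : ℕ)
    (hc : c * a < 2 ^ 16) (hm : 256 * m + 256 ≤ w) : ev x m (c * n) = c * ev x m n := by
  unfold ev
  rw [mul_sum]
  refine sum_congr rfl fun d hd => ?_
  rw [mem_range] at hd
  rw [dig_mul_bd hn c hc _ (by omega), mul_assoc]

theorem ev_zero (x : ℕ → ℕ) (m : ℕ) : ev x m 0 = 0 := by simp [ev, dig_zero_left]

theorem ev_single (x : ℕ → ℕ) (m c p : ℕ) (hc : c < 2 ^ 16) :
    ev x m (c <<< (16 * p)) = if 256 * m ≤ p ∧ p < 256 * m + 256 then c * x (p - 256 * m) else 0 := by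
  unfold ev
  simp only [dig_shiftLeft _ _ _ hc]
  split
  · next h =>
    rw [sum_eq_single (p - 256 * m)]
    · rw [if_pos (by omega)]
    · intro b _ hb; rw [if_neg (by omega)]; simp
    · intro hb; exact absurd (mem_range.2 (by omega)) hb
  · next h =>
    apply sum_eq_zero
    intro b hb
    rw [mem_range] at hb
    rw [if_neg (by omega)]; simp

theorem ev_one (x : ℕ → ℕ) (hx : x 0 = 1) : ev x 0 1 = 1 := by
  have := ev_single x 0 1 0 (by norm_num)
  simpa [hx] using this

/-- Block extraction with a zero pattern. -/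
theorem ev_blk (x : ℕ → ℕ) (m n Z : ℕ) (hZ : ∀ d < 256, dig Z d = 65535 ∨ x d = 0) :
    ev x 0 ((n / 2 ^ (4096 * m)) &&& Z) = ev x m n := by
  unfold ev
  refine sum_congr rfl fun d hd => ?_
  rw [mem_range] at hd
  have e : 4096 * m = 16 * (256 * m) := by ring
  rw [dig_land, e, dig_div]
  simp only [mul_zero, zero_add]
  rcases hZ d hd with h | h
  · rw [h]
    have h1 := dig_lt n (256 * m + d)
    have h2 : dig n (256 * m + d) &&& 65535 = dig n (256 * m + d) := by
      have : (65535 : ℕ) = 2 ^ 16 - 1 := by norm_num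
      rw [this, Nat.and_two_pow_sub_one_eq_mod, Nat.mod_eq_of_lt h1]
    rw [h2]
  · rw [h]; simp

theorem Bd.blk {w b n : ℕ} (h : Bd w b n) (m Z : ℕ) {w' : ℕ} (hw : 256 * m + w' ≤ w) :
    Bd w' b ((n / 2 ^ (4096 * m)) &&& Z) := by
  apply Bd.land
  intro d hd
  have e : 4096 * m = 16 * (256 * m) := by ring
  rw [e, dig_div]
  exact h _ (by omega)

/-! ### The function `dec` -/

theorem dec_eq (t : ℕ) : dec t = Nat.rec (motive := fun _ => ℕ → ℕ) (fun _ => 0)
    (fun _ ih t => if t = 0 then 0 else ((t >>> 12) &&& 7) <<< (16 * (t &&& 4095)) + ih (t >>> 16)) 8 t := by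
  have key : ∀ (n t : ℕ), (Nat.rec (motive := fun _ => Nat → Nat) (fun _ => 0)
    (fun _ ih t => Bool.rec (motive := fun _ => Nat)
      (Nat.add (Nat.shiftLeft (Nat.land (Nat.shiftRight t 12) 7) (Nat.mul 16 (Nat.land t 4095)))
        (ih (Nat.shiftRight t 16)))
      0 (Nat.beq t 0)) n t : ℕ) = Nat.rec (motive := fun _ => ℕ → ℕ) (fun _ => 0)
    (fun _ ih t => if t = 0 then 0 else ((t >>> 12) &&& 7) <<< (16 * (t &&& 4095)) + ih (t >>> 16)) n t := by
    intro n
    induction n with
    | zero => intro t; rfl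
    | succ n ih =>
      intro t
      show Bool.rec (motive := fun _ => Nat) _ _ (Nat.beq t 0) = _
      by_cases ht : t = 0
      · subst ht; rfl
      · have : Nat.beq t 0 = false := by
          rw [← Bool.not_eq_true, Nat.beq_eq]; exact ht
        rw [this]
        simp only [if_neg ht]
        exact congrArg (fun z => ((t >>> 12) &&& 7) <<< (16 * (t &&& 4095)) + z) (ih (t >>> 16))
  exact key 8 t

/-- the list of the terms `(position, coefficient)` -/
def toks : ℕ → ℕ → List (ℕ × ℕ)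
  | 0, _ => []
  | n + 1, t => if t = 0 then [] else (t &&& 4095, (t >>> 12) &&& 7) :: toks n (t >>> 16)

theorem dec_eq_sum (t : ℕ) : dec t = ((toks 8 t).map fun q => q.2 <<< (16 * q.1)).sum := by
  rw [dec_eq]
  have key : ∀ (n t : ℕ), (Nat.rec (motive := fun _ => ℕ → ℕ) (fun _ => 0)
    (fun _ ih t => if t = 0 then 0 else ((t >>> 12) &&& 7) <<< (16 * (t &&& 4095)) + ih (t >>> 16)) n t : ℕ)
      = ((toks n t).map fun q => q.2 <<< (16 * q.1)).sum := by
    intro n
    induction n with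
    | zero => intro t; rfl
    | succ n ih =>
      intro t
      by_cases ht : t = 0
      · simp [toks, ht]
      · simp only [toks, if_neg ht, List.map_cons, List.sum_cons]
        rw [ih]
  exact key 8 t

theorem toks_le (n t : ℕ) : ∀ q ∈ toks n t, q.2 ≤ 7 := by
  induction n generalizing t with
  | zero => simp [toks]
  | succ n ih =>
    intro q hq
    rw [toks] at hq
    split at hq
    · simp at hq
    · rcases List.mem_cons.1 hq with rfl | hq
      · exact Nat.and_le_right
      · exact ih _ q hq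

theorem toks_length (n t : ℕ) : (toks n t).length ≤ n := by
  induction n generalizing t with
  | zero => simp [toks]
  | succ n ih =>
    rw [toks]
    split
    · simp
    · simpa using ih _

theorem sum_toks_bd (w : ℕ) (l : List (ℕ × ℕ)) (hl : ∀ q ∈ l, q.2 ≤ 7) (hn : l.length ≤ 8) :
    Bd w (7 * l.length) (l.map fun q => q.2 <<< (16 * q.1)).sum := by
  induction l with
  | nil => simpa using bd_zero w
  | cons q l ih =>
    simp only [List.map_cons, List.sum_cons, List.length_cons] at hn ⊢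
    have h1 := ih (fun p hp => hl p (List.mem_cons_of_mem _ hp)) (by omega)
    have h2 : Bd w 7 (q.2 <<< (16 * q.1)) := (bd_shiftLeft w q.2 q.1 (by
      have := hl q List.mem_cons_self; omega)).mono (hl q List.mem_cons_self)
    have h3 := h2.add h1 (by omega)
    exact h3.mono (by omega)

theorem dec_bd (w t : ℕ) : Bd w 56 (dec t) := by
  rw [dec_eq_sum]
  exact (sum_toks_bd w _ (toks_le 8 t) (toks_length 8 t)).mono (by
    have := toks_length 8 t; omega)

theorem ev_sum_toks (x : ℕ → ℕ) (m : ℕ) (l : List (ℕ × ℕ)) (hl : ∀ q ∈ l, q.2 ≤ 7) (hn : l.length ≤ 8) :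
    ev x m (l.map fun q => q.2 <<< (16 * q.1)).sum =
      (l.map fun q => if 256 * m ≤ q.1 ∧ q.1 < 256 * m + 256 then q.2 * x (q.1 - 256 * m) else 0).sum := by
  induction l with
  | nil => simp [ev_zero]
  | cons q l ih =>
    simp only [List.map_cons, List.sum_cons, List.length_cons] at hn ⊢
    have h1 := sum_toks_bd (256 * m + 256) l (fun p hp => hl p (List.mem_cons_of_mem _ hp)) (by omega)
    have hq := hl q List.mem_cons_self
    have h2 : Bd (256 * m + 256) 7 (q.2 <<< (16 * q.1)) :=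
      (bd_shiftLeft _ q.2 q.1 (by omega)).mono hq
    rw [ev_add x m h2 h1 (by omega) le_rfl, ih (fun p hp => hl p (List.mem_cons_of_mem _ hp)) (by omega),
      ev_single x m q.2 q.1 (by omega)]

theorem ev_dec (x : ℕ → ℕ) (m t : ℕ) : ev x m (dec t) =
    ((toks 8 t).map fun q => if 256 * m ≤ q.1 ∧ q.1 < 256 * m + 256 then q.2 * x (q.1 - 256 * m) else 0).sum := by
  rw [dec_eq_sum]
  exact ev_sum_toks x m _ (toks_le 8 t) (toks_length 8 t)

end Pool.Agent.NG5c
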