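import Pool.Agent.NG5c.Main

/-!
# Rows given by lists of terms
-/

set_option autoImplicit false

namespace Pool.Agent.NG5c

open Finset Pool.Agent.NG5

/-- the number with the terms `c * 2 ^ (16 * pos)`, `(pos, c)` in the list -/
def num (l : List (ℕ × ℕ)) : ℕ := (l.map fun q => q.2 <<< (16 * q.1)).sum

/-- value of the block `m` -/
def evL (x : ℕ → ℕ) (m : ℕ) (l : List (ℕ × ℕ)) : ℕ :=
  (l.map fun q => if 256 * m ≤ q.1 ∧ q.1 < 256 * m + 256 then q.2 * x (q.1 - 256 * m) else 0).sum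

/-- value of the class (block `5`) -/
def clL (Q : ℕ → ℤ) (l : List (ℕ × ℕ)) : ℤ :=
  (l.map fun q => if 1280 ≤ q.1 ∧ q.1 < 1288 then (q.2 : ℤ) * Q (q.1 - 1280) else 0).sum

theorem ev_num (x : ℕ → ℕ) (m : ℕ) (l : List (ℕ × ℕ)) (hl : ∀ q ∈ l, q.2 ≤ 7) (hn : l.length ≤ 8) :
    ev x m (num l) = evL x m l := ev_sum_toks x m l hl hn

theorem num_bd (w : ℕ) (l : List (ℕ × ℕ)) (hl : ∀ q ∈ l, q.2 ≤ 7) (hn : l.length ≤ 8) :
    Bd w 56 (num l) := (sum_toks_bd w l hl hn).mono (by omega)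

theorem cl_num (Q : ℕ → ℤ) (l : List (ℕ × ℕ)) (hl : ∀ q ∈ l, q.2 ≤ 7) (hn : l.length ≤ 8) :
    cl Q (num l) = clL Q l := by
  induction l with
  | nil =>
    show cl Q 0 = 0
    unfold cl
    apply sum_eq_zero
    intro d _
    rw [dig_zero_left]; simp
  | cons q l ih =>
    have h1 : Bd 2048 (7 * l.length) (num l) := sum_toks_bd 2048 l (fun p hp => hl p (List.mem_cons_of_mem _ hp))
      (by simp only [List.length_cons] at hn; omega)
    have hq := hl q List.mem_cons_self
    have h2 : Bd 2048 7 (q.2 <<< (16 * q.1)) := (bd_shiftLeft _ q.2 q.1 (by omega)).mono hq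
    simp only [List.length_cons] at hn
    have e1 : num (q :: l) = q.2 <<< (16 * q.1) + num l := by simp [num]
    have e2 : clL Q (q :: l) = (if 1280 ≤ q.1 ∧ q.1 < 1288 then (q.2 : ℤ) * Q (q.1 - 1280) else 0) +
        clL Q l := by simp [clL]
    rw [e1, e2, cl_add Q h2 h1 (by omega), ih (fun p hp => hl p (List.mem_cons_of_mem _ hp)) (by omega)]
    congr 1
    unfold cl
    simp only [dig_shiftLeft _ _ _ (show q.2 < 2 ^ 16 by omega)]
    split
    · next h =>
      rw [sum_eq_single (q.1 - 1280)]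
      · rw [if_pos (by omega)]
      · intro b _ hb; rw [if_neg (by omega)]; simp
      · intro hb; exact absurd (mem_range.2 (by omega)) hb
    · next h =>
      apply sum_eq_zero
      intro b hb
      rw [mem_range] at hb
      rw [if_neg (by omega)]; simp

/-- A row from lists. -/
theorem rowOK_of {g : Fin 5 → ℕ} {x : ℕ → ℕ} {Q : ℕ → ℤ} {P N : List (ℕ × ℕ)}
    (hP : ∀ q ∈ P, q.2 ≤ 7) (hP8 : P.length ≤ 8) (hN : ∀ q ∈ N, q.2 ≤ 7) (hN8 : N.length ≤ 8)
    {y : Fin 5 → ℕ} (hy : ∀ m : Fin 5, evL x m P = y m) (hlex : LexMax g y)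
    (hsum : ∑ m : Fin 5, ((evL x m P : ℤ) - evL x m N) * g m = clL Q P - clL Q N) :
    RowOK g x Q (num P, num N) := by
  refine ⟨⟨num_bd _ P hP hP8, num_bd _ N hN hN8, ?_⟩, y, fun m => ?_, hlex⟩
  · rw [cl_num Q P hP hP8, cl_num Q N hN hN8, ← hsum]
    refine sum_congr rfl fun m _ => ?_
    rw [ev_num x m P hP hP8, ev_num x m N hN hN8]
  · rw [ev_num x m P hP hP8, hy]

/-- value of an element -/
def ecL (Q : ℕ → ℤ) (l : List (ℕ × ℕ)) : ℤ :=
  (l.map fun q => if q.1 < 8 then (q.2 : ℤ) * Q q.1 else 0).sum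

theorem ec_num (Q : ℕ → ℤ) (l : List (ℕ × ℕ)) (hl : ∀ q ∈ l, q.2 ≤ 7) (hn : l.length ≤ 8) :
    ec Q (num l) = ecL Q l := by
  induction l with
  | nil =>
    show ec Q 0 = 0
    unfold ec
    apply sum_eq_zero
    intro d _
    rw [dig_zero_left]; simp
  | cons q l ih =>
    have h1 : Bd 8 (7 * l.length) (num l) := sum_toks_bd 8 l (fun p hp => hl p (List.mem_cons_of_mem _ hp))
      (by simp only [List.length_cons] at hn; omega)
    have hq := hl q List.mem_cons_self
    have h2 : Bd 8 7 (q.2 <<< (16 * q.1)) := (bd_shiftLeft _ q.2 q.1 (by omega)).mono hq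
    simp only [List.length_cons] at hn
    have e1 : num (q :: l) = q.2 <<< (16 * q.1) + num l := by simp [num]
    have e2 : ecL Q (q :: l) = (if q.1 < 8 then (q.2 : ℤ) * Q q.1 else 0) + ecL Q l := by simp [ecL]
    rw [e1, e2, ec_add Q h2 h1 (by omega), ih (fun p hp => hl p (List.mem_cons_of_mem _ hp)) (by omega)]
    congr 1
    unfold ec
    simp only [dig_shiftLeft _ _ _ (show q.2 < 2 ^ 16 by omega)]
    split
    · next h =>
      rw [sum_eq_single q.1]
      · rw [if_pos rfl]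
      · intro b _ hb; rw [if_neg (by omega)]; simp
      · intro hb; exact absurd (mem_range.2 (by omega)) hb
    · next h =>
      apply sum_eq_zero
      intro b hb
      rw [mem_range] at hb
      rw [if_neg (by omega)]; simp

end Pool.Agent.NG5c
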