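import Pool.Agent.NG5c.Rules

/-!
# Soundness of the certificate checker: propagation, loops, trees
-/

set_option autoImplicit false

namespace Pool.Agent.NG5c

open Finset Pool.Agent.NG5

variable {A : ℕ → At} {Rw E : ℕ → ℕ × ℕ} {fb Z : ℕ} {g : Fin 5 → ℕ} {x : ℕ → ℕ} {Q : ℕ → ℤ} {n3 : ℕ}

/-- all true literals are in the set `nf` -/
def NF (n3 : ℕ) (A : ℕ → At) (x : ℕ → ℕ) (nf : ℕ) : Prop :=
  ∀ p, LitT n3 A x p → nf.testBit p = true

theorem pow_of_land_pred {n p : ℕ} (h : n &&& (n - 1) = 0) (hp : n.testBit p = true) : n = 2 ^ p := by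
  have hn : n ≠ 0 := by rintro rfl; simp at hp
  -- the top bit
  have hk : n.testBit n.log2 = true := Nat.testBit_log2 hn
  have h1 : 2 ^ n.log2 ≤ n := Nat.log2_self_le hn
  have h2 : n < 2 ^ (n.log2 + 1) := Nat.lt_log2_self
  have h3 : n = 2 ^ n.log2 := by
    by_contra hne
    have h4 : 2 ^ n.log2 ≤ n - 1 := by omega
    have h5 : (n - 1).testBit n.log2 = true := by
      rw [Nat.testBit_eq_decide_div_mod_eq]
      have : (n - 1) / 2 ^ n.log2 = 1 := by
        apply Nat.div_eq_of_lt_le <;> [skip; skip]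
        · omega
        · rw [pow_succ] at h2; omega
      rw [this]; rfl
    have h6 : (n &&& (n - 1)).testBit n.log2 = true := by
      rw [Nat.testBit_and, hk, h5]; rfl
    rw [h] at h6
    simp at h6
  have h7 : n.log2 = p := by
    rw [h3, Nat.testBit_two_pow] at hp
    exact of_decide_eq_true hp
  rw [h3, h7]

theorem NF.clear {nf rem p : ℕ} (h : NF n3 A x nf) (hr : rem = 2 ^ p) (hp : LitT n3 A x p) :
    NF n3 A x ((nf ||| ((rem <<< 1) ||| (rem >>> 1))) ^^^ ((rem <<< 1) ||| (rem >>> 1))) := by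
  intro q hq
  have h1 : ((rem <<< 1) ||| (rem >>> 1)).testBit q = false := by
    rw [hr, Nat.testBit_or, Nat.testBit_shiftLeft, Nat.testBit_shiftRight, Nat.testBit_two_pow,
      Nat.testBit_two_pow]
    have e1 : ¬ p = q - 1 ∨ ¬ q ≥ 1 := by
      by_contra hc
      push Not at hc
      obtain ⟨rfl, hc⟩ := hc
      have : q = q - 1 + 1 := by omega
      rw [this] at hq
      exact hp.not_succ hq
    have e2 : ¬ p = 1 + q := by
      rintro rfl
      rw [add_comm] at hp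
      exact hp.not_pred hq
    rcases e1 with e1 | e1 <;> simp [e1, e2]
  rw [Nat.testBit_xor, Nat.testBit_or, h1, h q hq]
  rfl

theorem rup_sound {look : ℕ → ℕ} (hl : ∀ i, Sat n3 A x (look i)) (n : ℕ) {nf hs : ℕ}
    (hnf : NF n3 A x nf) : rup look n nf hs = false := by
  induction n generalizing nf hs with
  | zero => rfl
  | succ n ih =>
    obtain ⟨p, hp1, hp2⟩ := hl (hs &&& 65535)
    set rem := (look (hs &&& 65535)) &&& nf with hrem
    have hpr : rem.testBit p = true := by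
      rw [hrem, Nat.testBit_and, hp1, hnf p hp2]; rfl
    have hrem0 : rem ≠ 0 := by intro h0; rw [h0] at hpr; simp at hpr
    have e : rup look (n + 1) nf hs = Bool.rec (motive := fun _ => Bool)
        (Bool.rec (motive := fun _ => Bool) false
          (rup look n ((nf ||| ((rem <<< 1) ||| (rem >>> 1))) ^^^ ((rem <<< 1) ||| (rem >>> 1))) (hs >>> 16))
          (Nat.beq (rem &&& (rem - 1)) 0)) true (Nat.beq rem 0) := rfl
    rw [e, brec, brec]
    have e1 : Nat.beq rem 0 = false := by rw [← Bool.not_eq_true, Nat.beq_eq]; exact hrem0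
    rw [e1, cond_false]
    cases h2 : Nat.beq (rem &&& (rem - 1)) 0 with
    | false => rfl
    | true =>
      rw [cond_true]
      exact ih (hnf.clear (pow_of_land_pred (beq_iff.1 h2) hpr) hp2)

/-- the clause read by `rdLits` -/
def rdMask (n : ℕ) : ℕ → ℕ → ℕ :=
  Nat.rec (motive := fun _ => ℕ → ℕ → ℕ) (fun _ m => m)
    (fun _ ih t m => ih (t >>> 16) (m ||| (1 <<< (t &&& 65535)))) n

theorem rdLits_eq (n : ℕ) {t m : ℕ} {k : ℕ → ℕ → Bool} (h : rdLits n t m k = true) :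
    ∃ t', k t' (rdMask n t m) = true := by
  induction n generalizing t m with
  | zero => exact ⟨t, h⟩
  | succ n ih => exact ih h

/-- the clause of a record in a list of clauses -/
def recMask (r : ℕ) : ℕ := rdMask ((r >>> 16) &&& 65535) (r >>> 32) 0

/-- the records in a chunk -/
def recsC (n : ℕ) : ℕ → List ℕ :=
  Nat.rec (motive := fun _ => ℕ → List ℕ) (fun _ => [])
    (fun _ ih c => if c = 0 then [] else
      ((c >>> 16) &&& (1 <<< (4 * (c &&& 65535)) - 1)) :: ih ((c >>> 16) >>> (4 * (c &&& 65535)))) n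

def recs (l : List ℕ) : List ℕ := l.flatMap (recsC 5000)

theorem chunk_sound {D : Type} {Inv : D → ℕ → Prop} {st : ℕ → D → ℕ → (D → ℕ → Bool) → Bool}
    {ψ φ : ℕ → Prop}
    (hst : ∀ r db G k, ψ r → Inv db G → st r db G k = true →
      φ r ∧ ∃ db' G', Inv db' G' ∧ k db' G' = true)
    (n : ℕ) {c : ℕ} {db : D} {G : ℕ} {k : D → ℕ → Bool} (hψ : ∀ r ∈ recsC n c, ψ r)
    (hI : Inv db G) (h : chunk st n c db G k = true) :
    (∀ r ∈ recsC n c, φ r) ∧ ∃ db' G', Inv db' G' ∧ k db' G' = true := by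
  induction n generalizing c db G k with
  | zero => exact absurd h (by simp [chunk])
  | succ n ih =>
    have h' : Bool.rec (motive := fun _ => Bool)
      (st ((c >>> 16) &&& (1 <<< (4 * (c &&& 65535)) - 1)) db G
        (fun db' G' => chunk st n ((c >>> 16) >>> (4 * (c &&& 65535))) db' G' k))
      (k db G) (Nat.beq c 0) = true := h
    rw [brec] at h'
    have er : recsC (n + 1) c = if c = 0 then [] else
      ((c >>> 16) &&& (1 <<< (4 * (c &&& 65535)) - 1)) :: recsC n ((c >>> 16) >>> (4 * (c &&& 65535))) := rfl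
    by_cases hc : c = 0
    · subst hc
      rw [er, if_pos rfl]
      have : Nat.beq 0 0 = true := rfl
      rw [this, cond_true] at h'
      exact ⟨by simp, db, G, hI, h'⟩
    · have hb : Nat.beq c 0 = false := by rw [← Bool.not_eq_true, Nat.beq_eq]; exact hc
      rw [hb, cond_false] at h'
      rw [er, if_neg hc] at hψ ⊢
      obtain ⟨f1, db', G', hI', h2⟩ := hst _ _ _ _ (hψ _ List.mem_cons_self) hI h'
      obtain ⟨f2, f3⟩ := ih (fun r hr => hψ r (List.mem_cons_of_mem _ hr)) hI' h2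
      refine ⟨fun r hr => ?_, f3⟩
      rcases List.mem_cons.1 hr with rfl | hr
      · exact f1
      · exact f2 r hr

theorem loop_sound {D : Type} {Inv : D → ℕ → Prop} {st : ℕ → D → ℕ → (D → ℕ → Bool) → Bool}
    {ψ φ : ℕ → Prop}
    (hst : ∀ r db G k, ψ r → Inv db G → st r db G k = true →
      φ r ∧ ∃ db' G', Inv db' G' ∧ k db' G' = true)
    (l : List ℕ) {db : D} {G : ℕ} {k : D → ℕ → Bool} (hψ : ∀ r ∈ recs l, ψ r)
    (hI : Inv db G) (h : loop st l db G k = true) :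
    (∀ r ∈ recs l, φ r) ∧ ∃ db' G', Inv db' G' ∧ k db' G' = true := by
  induction l generalizing db G with
  | nil => exact ⟨by simp [recs], db, G, hI, h⟩
  | cons c l ih =>
    have h' : chunk st 5000 c db G (fun db' G' => loop st l db' G' k) = true := h
    have er : recs (c :: l) = recsC 5000 c ++ recs l := rfl
    rw [er] at hψ ⊢
    obtain ⟨f1, db', G', hI', h2⟩ := chunk_sound hst 5000
      (fun r hr => hψ r (List.mem_append_left _ hr)) hI h'
    obtain ⟨f2, f3⟩ := ih (fun r hr => hψ r (List.mem_append_right _ hr)) hI' h2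
    exact ⟨fun r hr => (List.mem_append.1 hr).elim (f1 r) (f2 r), f3⟩

/-- What is needed of the store of clauses. -/
structure Store {D : Type} (sel : D → ℕ → ℕ) (ins : D → ℕ → ℕ → (D → Bool) → Bool) (db0 : D)
    (S : ℕ → Prop) (ok : D → Prop) : Prop where
  start : S 6 → ok db0
  sel : ∀ db i, ok db → S (sel db i)
  ins : ∀ db i v k, ok db → S v → ins db i v k = true → ∃ db', ok db' ∧ k db' = true

section

variable {D : Type} {sel : D → ℕ → ℕ} {ins : D → ℕ → ℕ → (D → Bool) → Bool} {db0 : D} {ok : D → Prop}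

theorem put_sound (St : Store sel ins db0 (Sat n3 A x) ok) {r m : ℕ} {db : D} {G : ℕ}
    {k : D → ℕ → Bool} (hok : ok db) (hG : NF n3 A x G) (hm : Sat n3 A x m)
    (h : put ins r m db G k = true) : ∃ db' G', (ok db' ∧ NF n3 A x G') ∧ k db' G' = true := by
  obtain ⟨db', h1, h2⟩ := St.ins _ _ _ _ hok hm h
  exact ⟨db', G, ⟨h1, hG⟩, h2⟩

theorem step_sound (C : Ctx Rw E fb Z g x Q) (St : Store sel ins db0 (Sat n3 A x) ok)
    (r : ℕ) (db : D) (G : ℕ) (k : D → ℕ → Bool) (_ : True) (hI : ok db ∧ NF n3 A x G)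
    (h : step sel ins A Rw E n3 fb Z r db G k = true) :
    True ∧ ∃ db' G', (ok db' ∧ NF n3 A x G') ∧ k db' G' = true := by
  refine ⟨trivial, ?_⟩
  obtain ⟨hok, hG⟩ := hI
  unfold step at h
  rw [brec] at h
  cases h0 : Nat.beq (Nat.land r 7) 0 with
  | true =>
    rw [h0, cond_true] at h
    unfold stepL at h
    obtain ⟨t, h⟩ := rdLits_eq _ h
    rw [chk_eq_true] at h
    obtain ⟨h1, h2⟩ := h
    refine put_sound St hok hG ?_ h2
    by_contra hS
    have : NF n3 A x (Nat.xor (Nat.lor G (rdMask (Nat.land (Nat.shiftRight r 16) 65535) (Nat.shiftRight r 32) 0))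
        (rdMask (Nat.land (Nat.shiftRight r 16) 65535) (Nat.shiftRight r 32) 0)) := by
      intro p hp
      show ((G ||| _) ^^^ _ : ℕ).testBit p = true
      rw [Nat.testBit_xor, Nat.testBit_or, hG p hp]
      have : (rdMask (Nat.land (Nat.shiftRight r 16) 65535) (Nat.shiftRight r 32) 0).testBit p = false := by
        by_contra hc
        exact hS ⟨p, by simpa using hc, hp⟩
      rw [this]; rfl
    have h3 := rup_sound (look := sel db) (fun i => St.sel db i hok) (Nat.land t 65535)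
      (hs := Nat.shiftRight t 16) this
    rw [h3] at h1
    cases h1
  | false =>
  rw [h0, cond_false, brec] at h
  cases h0 : Nat.beq (Nat.land r 7) 1 with
  | true =>
    rw [h0, cond_true] at h
    unfold stepTh at h
    have hn : Nat.land (Nat.shiftRight r 16) 31 ≤ 31 := Nat.and_le_right
    obtain ⟨L, R, m, h1, h2, h3⟩ := accLits_sound C.x0 (Nat.land (Nat.shiftRight r 16) 31)
      (i := 0) (by omega) (by simpa using bd_zero 256) (by simpa using bd_zero 256) (fun _ => le_rfl) h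
    have h4 := (contra_iff.1 h1).2.2
    refine put_sound St hok hG ?_ h4
    by_contra hS
    exact contra_sound h1 x C.x0 (h2.mono (by norm_num)) (h3 hS)
  | false =>
  rw [h0, cond_false, brec] at h
  cases h0 : Nat.beq (Nat.land r 7) 2 with
  | true =>
    rw [h0, cond_true] at h
    obtain ⟨m, h1, h2⟩ := ruleC_sound C h
    exact put_sound St hok hG h1 h2
  | false =>
  rw [h0, cond_false, brec] at h
  cases h0 : Nat.beq (Nat.land r 7) 3 with
  | true =>
    rw [h0, cond_true] at h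
    obtain ⟨m, h1, h2⟩ := ruleX_sound C h
    exact put_sound St hok hG h1 h2
  | false =>
  rw [h0, cond_false, brec] at h
  cases h0 : Nat.beq (Nat.land r 7) 4 with
  | true =>
    rw [h0, cond_true] at h
    obtain ⟨m, h1, h2⟩ := ruleZ_sound C h
    exact put_sound St hok hG h1 h2
  | false =>
  rw [h0, cond_false, brec] at h
  cases h0 : Nat.beq (Nat.land r 7) 5 with
  | true =>
    rw [h0, cond_true] at h
    unfold stepU at h
    beta_reduce at h
    rw [chk_eq_true] at h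
    obtain ⟨h1, h2⟩ := h
    obtain ⟨p, hp1, hp2⟩ := St.sel db (Nat.shiftRight (Nat.land r 65535) 3) hok
    refine ⟨db, _, ⟨hok, ?_⟩, h2⟩
    refine hG.clear (p := p) (pow_of_land_pred (beq_iff.1 h1) ?_) hp2
    show (sel db _ &&& G : ℕ).testBit p = true
    rw [Nat.testBit_and, hp1, hG p hp2]; rfl
  | false =>
    rw [h0, cond_false] at h
    obtain ⟨m, h1, h2⟩ := ruleT_sound C h
    exact put_sound St hok hG h1 h2

theorem stepIn_sound (St : Store sel ins db0 (Sat n3 A x) ok)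
    (r : ℕ) (db : D) (G : ℕ) (k : D → ℕ → Bool) (hr : Sat n3 A x (recMask r))
    (hI : ok db ∧ NF n3 A x G) (h : stepIn ins r db G k = true) :
    True ∧ ∃ db' G', (ok db' ∧ NF n3 A x G') ∧ k db' G' = true := by
  refine ⟨trivial, ?_⟩
  obtain ⟨hok, hG⟩ := hI
  unfold stepIn at h
  obtain ⟨t, h⟩ := rdLits_eq _ h
  obtain ⟨db', h1, h2⟩ := St.ins _ _ _ _ hok hr h
  exact ⟨db', G, ⟨h1, hG⟩, h2⟩

theorem stepOut_sound (St : Store sel ins db0 (Sat n3 A x) ok)
    (r : ℕ) (db : D) (G : ℕ) (k : D → ℕ → Bool) (_ : True)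
    (hI : ok db ∧ NF n3 A x G) (h : stepOut sel r db G k = true) :
    Sat n3 A x (recMask r) ∧ ∃ db' G', (ok db' ∧ NF n3 A x G') ∧ k db' G' = true := by
  obtain ⟨hok, hG⟩ := hI
  unfold stepOut at h
  obtain ⟨t, h⟩ := rdLits_eq _ h
  rw [chk_eq_true] at h
  obtain ⟨h1, h2⟩ := h
  have h1' : sel db (Nat.land r 65535) &&& ((G ||| recMask r) ^^^ recMask r) = 0 := beq_iff.1 h1
  obtain ⟨p, hp1, hp2⟩ := St.sel db (Nat.land r 65535) hok
  refine ⟨⟨p, ?_, hp2⟩, db, G, ⟨hok, hG⟩, h2⟩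
  have h3 : (sel db (Nat.land r 65535) &&& ((G ||| recMask r) ^^^ recMask r)).testBit p = false := by
    rw [h1']; simp
  rw [Nat.testBit_and, hp1, Nat.testBit_xor, Nat.testBit_or, hG p hp2] at h3
  simpa using h3

/-- all clauses of the list are true -/
def AllSat (n3 : ℕ) (A : ℕ → At) (x : ℕ → ℕ) (l : List ℕ) : Prop :=
  ∀ r ∈ recs l, Sat n3 A x (recMask r)

theorem run_sound (C : Ctx Rw E fb Z g x Q) (St : Store sel ins db0 (Sat n3 A x) ok)
    {I S O : List ℕ} (h : run sel ins A Rw E n3 fb Z db0 I S O = true) (hI : AllSat n3 A x I) :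
    AllSat n3 A x O := by
  unfold run at h
  rw [chk_eq_true] at h
  obtain ⟨h3, h⟩ := h
  rw [Nat.ble_eq] at h3
  have hS6 : Sat n3 A x 6 := by
    by_cases hle : ev x 0 (A 0).1 ≤ ev x 0 (A 0).2
    · exact ⟨1, by decide, by omega, Or.inl ⟨by norm_num, by simpa using hle⟩⟩
    · exact ⟨2, by decide, by omega, Or.inr ⟨by norm_num, by simpa using hle⟩⟩
  have hG0 : NF n3 A x (Nat.sub (Nat.pow 2 n3) 1) := by
    intro p hp
    show (2 ^ n3 - 1 : ℕ).testBit p = true
    rw [Nat.testBit_two_pow_sub_one]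
    exact decide_eq_true hp.1
  obtain ⟨-, db1, G1, hI1, h⟩ := loop_sound (ψ := fun r => Sat n3 A x (recMask r)) (φ := fun _ => True)
    (Inv := fun db G => ok db ∧ NF n3 A x G) (stepIn_sound St) I hI ⟨St.start hS6, hG0⟩ h
  obtain ⟨-, db2, G2, hI2, h⟩ := loop_sound (ψ := fun _ => True) (φ := fun _ => True)
    (Inv := fun db G => ok db ∧ NF n3 A x G) (step_sound C St) S (fun _ _ => trivial) hI1 h
  obtain ⟨h, -⟩ := loop_sound (ψ := fun _ => True) (φ := fun r => Sat n3 A x (recMask r))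
    (Inv := fun db G => ok db ∧ NF n3 A x G) (stepOut_sound St) O (fun _ _ => trivial) hI2 h
  exact h

end

theorem allSat_nil : AllSat n3 A x [] := by simp [AllSat, recs]

theorem sat_zero : ¬ Sat n3 A x 0 := by rintro ⟨p, h, -⟩; simp at h

/-! ### Trees -/

section Trees

variable {α : Type}

def All1 (S : α → Prop) (t : T1 α) : Prop := S t.1 ∧ S t.2
def All2 (S : α → Prop) (t : T2 α) : Prop := All1 S t.1 ∧ All1 S t.2
def All3 (S : α → Prop) (t : T3 α) : Prop := All2 S t.1 ∧ All2 S t.2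
def All4 (S : α → Prop) (t : T4 α) : Prop := All3 S t.1 ∧ All3 S t.2
def All5 (S : α → Prop) (t : T5 α) : Prop := All4 S t.1 ∧ All4 S t.2
def All6 (S : α → Prop) (t : T6 α) : Prop := All5 S t.1 ∧ All5 S t.2
def All7 (S : α → Prop) (t : T7 α) : Prop := All6 S t.1 ∧ All6 S t.2
def All8 (S : α → Prop) (t : T8 α) : Prop := All7 S t.1 ∧ All7 S t.2
def All9 (S : α → Prop) (t : T9 α) : Prop := All8 S t.1 ∧ All8 S t.2
def All10 (S : α → Prop) (t : T10 α) : Prop := All9 S t.1 ∧ All9 S t.2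
def All11 (S : α → Prop) (t : T11 α) : Prop := All10 S t.1 ∧ All10 S t.2
def All12 (S : α → Prop) (t : T12 α) : Prop := All11 S t.1 ∧ All11 S t.2
def All13 (S : α → Prop) (t : T13 α) : Prop := All12 S t.1 ∧ All12 S t.2

theorem all1_sel {S : α → Prop} {t : T1 α} (h : All1 S t) (i : ℕ) : S (sel1 t i) := by
  unfold sel1; rw [brec]; cases Nat.beq (Nat.land i 1) 0
  · exact h.2
  · exact h.1

theorem all2_sel {S : α → Prop} {t : T2 α} (h : All2 S t) (i : ℕ) : S (sel2 t i) := by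
  unfold sel2; rw [brec]; cases Nat.beq (Nat.land i 2) 0
  · exact all1_sel h.2 i
  · exact all1_sel h.1 i

theorem all3_sel {S : α → Prop} {t : T3 α} (h : All3 S t) (i : ℕ) : S (sel3 t i) := by
  unfold sel3; rw [brec]; cases Nat.beq (Nat.land i 4) 0
  · exact all2_sel h.2 i
  · exact all2_sel h.1 i

theorem all4_sel {S : α → Prop} {t : T4 α} (h : All4 S t) (i : ℕ) : S (sel4 t i) := by
  unfold sel4; rw [brec]; cases Nat.beq (Nat.land i 8) 0
  · exact all3_sel h.2 i
  · exact all3_sel h.1 i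

theorem all5_sel {S : α → Prop} {t : T5 α} (h : All5 S t) (i : ℕ) : S (sel5 t i) := by
  unfold sel5; rw [brec]; cases Nat.beq (Nat.land i 16) 0
  · exact all4_sel h.2 i
  · exact all4_sel h.1 i

theorem all6_sel {S : α → Prop} {t : T6 α} (h : All6 S t) (i : ℕ) : S (sel6 t i) := by
  unfold sel6; rw [brec]; cases Nat.beq (Nat.land i 32) 0
  · exact all5_sel h.2 i
  · exact all5_sel h.1 i

theorem all7_sel {S : α → Prop} {t : T7 α} (h : All7 S t) (i : ℕ) : S (sel7 t i) := by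
  unfold sel7; rw [brec]; cases Nat.beq (Nat.land i 64) 0
  · exact all6_sel h.2 i
  · exact all6_sel h.1 i

theorem all8_sel {S : α → Prop} {t : T8 α} (h : All8 S t) (i : ℕ) : S (sel8 t i) := by
  unfold sel8; rw [brec]; cases Nat.beq (Nat.land i 128) 0
  · exact all7_sel h.2 i
  · exact all7_sel h.1 i

theorem all9_sel {S : α → Prop} {t : T9 α} (h : All9 S t) (i : ℕ) : S (sel9 t i) := by
  unfold sel9; rw [brec]; cases Nat.beq (Nat.land i 256) 0
  · exact all8_sel h.2 i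
  · exact all8_sel h.1 i

theorem all10_sel {S : α → Prop} {t : T10 α} (h : All10 S t) (i : ℕ) : S (sel10 t i) := by
  unfold sel10; rw [brec]; cases Nat.beq (Nat.land i 512) 0
  · exact all9_sel h.2 i
  · exact all9_sel h.1 i

theorem all11_sel {S : α → Prop} {t : T11 α} (h : All11 S t) (i : ℕ) : S (sel11 t i) := by
  unfold sel11; rw [brec]; cases Nat.beq (Nat.land i 1024) 0
  · exact all10_sel h.2 i
  · exact all10_sel h.1 i

theorem all12_sel {S : α → Prop} {t : T12 α} (h : All12 S t) (i : ℕ) : S (sel12 t i) := by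
  unfold sel12; rw [brec]; cases Nat.beq (Nat.land i 2048) 0
  · exact all11_sel h.2 i
  · exact all11_sel h.1 i

theorem all13_sel {S : α → Prop} {t : T13 α} (h : All13 S t) (i : ℕ) : S (sel13 t i) := by
  unfold sel13; rw [brec]; cases Nat.beq (Nat.land i 4096) 0
  · exact all12_sel h.2 i
  · exact all12_sel h.1 i

theorem all1_cst {S : α → Prop} {a : α} (h : S a) : All1 S (cst1 a) := ⟨h, h⟩
theorem all2_cst {S : α → Prop} {a : α} (h : S a) : All2 S (cst2 a) := ⟨all1_cst h, all1_cst h⟩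
theorem all3_cst {S : α → Prop} {a : α} (h : S a) : All3 S (cst3 a) := ⟨all2_cst h, all2_cst h⟩
theorem all4_cst {S : α → Prop} {a : α} (h : S a) : All4 S (cst4 a) := ⟨all3_cst h, all3_cst h⟩
theorem all5_cst {S : α → Prop} {a : α} (h : S a) : All5 S (cst5 a) := ⟨all4_cst h, all4_cst h⟩
theorem all6_cst {S : α → Prop} {a : α} (h : S a) : All6 S (cst6 a) := ⟨all5_cst h, all5_cst h⟩
theorem all7_cst {S : α → Prop} {a : α} (h : S a) : All7 S (cst7 a) := ⟨all6_cst h, all6_cst h⟩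
theorem all8_cst {S : α → Prop} {a : α} (h : S a) : All8 S (cst8 a) := ⟨all7_cst h, all7_cst h⟩
theorem all9_cst {S : α → Prop} {a : α} (h : S a) : All9 S (cst9 a) := ⟨all8_cst h, all8_cst h⟩
theorem all10_cst {S : α → Prop} {a : α} (h : S a) : All10 S (cst10 a) := ⟨all9_cst h, all9_cst h⟩
theorem all11_cst {S : α → Prop} {a : α} (h : S a) : All11 S (cst11 a) := ⟨all10_cst h, all10_cst h⟩
theorem all12_cst {S : α → Prop} {a : α} (h : S a) : All12 S (cst12 a) := ⟨all11_cst h, all11_cst h⟩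
theorem all13_cst {S : α → Prop} {a : α} (h : S a) : All13 S (cst13 a) := ⟨all12_cst h, all12_cst h⟩

end Trees

theorem all1_ins {S : ℕ → Prop} (t : T1 ℕ) (i v : ℕ) (k : T1 ℕ → Bool) (h : All1 S t) (hv : S v)
    (hk : ins1 t i v k = true) : ∃ t', All1 S t' ∧ k t' = true := by
  obtain ⟨l, r⟩ := t
  unfold ins1 at hk
  change Bool.rec (motive := fun _ => Bool) _ _ _ = true at hk
  rw [brec] at hk
  cases hb : Nat.beq (Nat.land i 1) 0
  · rw [hb] at hk; exact ⟨(l, v), ⟨h.1, hv⟩, hk⟩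
  · rw [hb] at hk; exact ⟨(v, r), ⟨hv, h.2⟩, hk⟩

theorem all2_ins {S : ℕ → Prop} (t : T2 ℕ) (i v : ℕ) (k : T2 ℕ → Bool) (h : All2 S t) (hv : S v)
    (hk : ins2 t i v k = true) : ∃ t', All2 S t' ∧ k t' = true := by
  obtain ⟨l, r⟩ := t
  unfold ins2 at hk
  change Bool.rec (motive := fun _ => Bool) _ _ _ = true at hk
  rw [brec] at hk
  cases hb : Nat.beq (Nat.land i 2) 0
  · rw [hb, cond_false] at hk
    obtain ⟨u, h1, h2⟩ := all1_ins r i v _ h.2 hv hk
    exact ⟨(l, u), ⟨h.1, h1⟩, h2⟩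
  · rw [hb, cond_true] at hk
    obtain ⟨u, h1, h2⟩ := all1_ins l i v _ h.1 hv hk
    exact ⟨(u, r), ⟨h1, h.2⟩, h2⟩

theorem all3_ins {S : ℕ → Prop} (t : T3 ℕ) (i v : ℕ) (k : T3 ℕ → Bool) (h : All3 S t) (hv : S v)
    (hk : ins3 t i v k = true) : ∃ t', All3 S t' ∧ k t' = true := by
  obtain ⟨l, r⟩ := t
  unfold ins3 at hk
  change Bool.rec (motive := fun _ => Bool) _ _ _ = true at hk
  rw [brec] at hk
  cases hb : Nat.beq (Nat.land i 4) 0
  · rw [hb, cond_false] at hk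
    obtain ⟨u, h1, h2⟩ := all2_ins r i v _ h.2 hv hk
    exact ⟨(l, u), ⟨h.1, h1⟩, h2⟩
  · rw [hb, cond_true] at hk
    obtain ⟨u, h1, h2⟩ := all2_ins l i v _ h.1 hv hk
    exact ⟨(u, r), ⟨h1, h.2⟩, h2⟩

theorem all4_ins {S : ℕ → Prop} (t : T4 ℕ) (i v : ℕ) (k : T4 ℕ → Bool) (h : All4 S t) (hv : S v)
    (hk : ins4 t i v k = true) : ∃ t', All4 S t' ∧ k t' = true := by
  obtain ⟨l, r⟩ := t
  unfold ins4 at hk
  change Bool.rec (motive := fun _ => Bool) _ _ _ = true at hk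
  rw [brec] at hk
  cases hb : Nat.beq (Nat.land i 8) 0
  · rw [hb, cond_false] at hk
    obtain ⟨u, h1, h2⟩ := all3_ins r i v _ h.2 hv hk
    exact ⟨(l, u), ⟨h.1, h1⟩, h2⟩
  · rw [hb, cond_true] at hk
    obtain ⟨u, h1, h2⟩ := all3_ins l i v _ h.1 hv hk
    exact ⟨(u, r), ⟨h1, h.2⟩, h2⟩

theorem all5_ins {S : ℕ → Prop} (t : T5 ℕ) (i v : ℕ) (k : T5 ℕ → Bool) (h : All5 S t) (hv : S v)
    (hk : ins5 t i v k = true) : ∃ t', All5 S t' ∧ k t' = true := by
  obtain ⟨l, r⟩ := t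
  unfold ins5 at hk
  change Bool.rec (motive := fun _ => Bool) _ _ _ = true at hk
  rw [brec] at hk
  cases hb : Nat.beq (Nat.land i 16) 0
  · rw [hb, cond_false] at hk
    obtain ⟨u, h1, h2⟩ := all4_ins r i v _ h.2 hv hk
    exact ⟨(l, u), ⟨h.1, h1⟩, h2⟩
  · rw [hb, cond_true] at hk
    obtain ⟨u, h1, h2⟩ := all4_ins l i v _ h.1 hv hk
    exact ⟨(u, r), ⟨h1, h.2⟩, h2⟩

theorem all6_ins {S : ℕ → Prop} (t : T6 ℕ) (i v : ℕ) (k : T6 ℕ → Bool) (h : All6 S t) (hv : S v)
    (hk : ins6 t i v k = true) : ∃ t', All6 S t' ∧ k t' = true := by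
  obtain ⟨l, r⟩ := t
  unfold ins6 at hk
  change Bool.rec (motive := fun _ => Bool) _ _ _ = true at hk
  rw [brec] at hk
  cases hb : Nat.beq (Nat.land i 32) 0
  · rw [hb, cond_false] at hk
    obtain ⟨u, h1, h2⟩ := all5_ins r i v _ h.2 hv hk
    exact ⟨(l, u), ⟨h.1, h1⟩, h2⟩
  · rw [hb, cond_true] at hk
    obtain ⟨u, h1, h2⟩ := all5_ins l i v _ h.1 hv hk
    exact ⟨(u, r), ⟨h1, h.2⟩, h2⟩

theorem all7_ins {S : ℕ → Prop} (t : T7 ℕ) (i v : ℕ) (k : T7 ℕ → Bool) (h : All7 S t) (hv : S v)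
    (hk : ins7 t i v k = true) : ∃ t', All7 S t' ∧ k t' = true := by
  obtain ⟨l, r⟩ := t
  unfold ins7 at hk
  change Bool.rec (motive := fun _ => Bool) _ _ _ = true at hk
  rw [brec] at hk
  cases hb : Nat.beq (Nat.land i 64) 0
  · rw [hb, cond_false] at hk
    obtain ⟨u, h1, h2⟩ := all6_ins r i v _ h.2 hv hk
    exact ⟨(l, u), ⟨h.1, h1⟩, h2⟩
  · rw [hb, cond_true] at hk
    obtain ⟨u, h1, h2⟩ := all6_ins l i v _ h.1 hv hk
    exact ⟨(u, r), ⟨h1, h.2⟩, h2⟩

theorem all8_ins {S : ℕ → Prop} (t : T8 ℕ) (i v : ℕ) (k : T8 ℕ → Bool) (h : All8 S t) (hv : S v)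
    (hk : ins8 t i v k = true) : ∃ t', All8 S t' ∧ k t' = true := by
  obtain ⟨l, r⟩ := t
  unfold ins8 at hk
  change Bool.rec (motive := fun _ => Bool) _ _ _ = true at hk
  rw [brec] at hk
  cases hb : Nat.beq (Nat.land i 128) 0
  · rw [hb, cond_false] at hk
    obtain ⟨u, h1, h2⟩ := all7_ins r i v _ h.2 hv hk
    exact ⟨(l, u), ⟨h.1, h1⟩, h2⟩
  · rw [hb, cond_true] at hk
    obtain ⟨u, h1, h2⟩ := all7_ins l i v _ h.1 hv hk
    exact ⟨(u, r), ⟨h1, h.2⟩, h2⟩

theorem all9_ins {S : ℕ → Prop} (t : T9 ℕ) (i v : ℕ) (k : T9 ℕ → Bool) (h : All9 S t) (hv : S v)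
    (hk : ins9 t i v k = true) : ∃ t', All9 S t' ∧ k t' = true := by
  obtain ⟨l, r⟩ := t
  unfold ins9 at hk
  change Bool.rec (motive := fun _ => Bool) _ _ _ = true at hk
  rw [brec] at hk
  cases hb : Nat.beq (Nat.land i 256) 0
  · rw [hb, cond_false] at hk
    obtain ⟨u, h1, h2⟩ := all8_ins r i v _ h.2 hv hk
    exact ⟨(l, u), ⟨h.1, h1⟩, h2⟩
  · rw [hb, cond_true] at hk
    obtain ⟨u, h1, h2⟩ := all8_ins l i v _ h.1 hv hk
    exact ⟨(u, r), ⟨h1, h.2⟩, h2⟩

theorem all10_ins {S : ℕ → Prop} (t : T10 ℕ) (i v : ℕ) (k : T10 ℕ → Bool) (h : All10 S t) (hv : S v)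
    (hk : ins10 t i v k = true) : ∃ t', All10 S t' ∧ k t' = true := by
  obtain ⟨l, r⟩ := t
  unfold ins10 at hk
  change Bool.rec (motive := fun _ => Bool) _ _ _ = true at hk
  rw [brec] at hk
  cases hb : Nat.beq (Nat.land i 512) 0
  · rw [hb, cond_false] at hk
    obtain ⟨u, h1, h2⟩ := all9_ins r i v _ h.2 hv hk
    exact ⟨(l, u), ⟨h.1, h1⟩, h2⟩
  · rw [hb, cond_true] at hk
    obtain ⟨u, h1, h2⟩ := all9_ins l i v _ h.1 hv hk
    exact ⟨(u, r), ⟨h1, h.2⟩, h2⟩

theorem all11_ins {S : ℕ → Prop} (t : T11 ℕ) (i v : ℕ) (k : T11 ℕ → Bool) (h : All11 S t) (hv : S v)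
    (hk : ins11 t i v k = true) : ∃ t', All11 S t' ∧ k t' = true := by
  obtain ⟨l, r⟩ := t
  unfold ins11 at hk
  change Bool.rec (motive := fun _ => Bool) _ _ _ = true at hk
  rw [brec] at hk
  cases hb : Nat.beq (Nat.land i 1024) 0
  · rw [hb, cond_false] at hk
    obtain ⟨u, h1, h2⟩ := all10_ins r i v _ h.2 hv hk
    exact ⟨(l, u), ⟨h.1, h1⟩, h2⟩
  · rw [hb, cond_true] at hk
    obtain ⟨u, h1, h2⟩ := all10_ins l i v _ h.1 hv hk
    exact ⟨(u, r), ⟨h1, h.2⟩, h2⟩

theorem all12_ins {S : ℕ → Prop} (t : T12 ℕ) (i v : ℕ) (k : T12 ℕ → Bool) (h : All12 S t) (hv : S v)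
    (hk : ins12 t i v k = true) : ∃ t', All12 S t' ∧ k t' = true := by
  obtain ⟨l, r⟩ := t
  unfold ins12 at hk
  change Bool.rec (motive := fun _ => Bool) _ _ _ = true at hk
  rw [brec] at hk
  cases hb : Nat.beq (Nat.land i 2048) 0
  · rw [hb, cond_false] at hk
    obtain ⟨u, h1, h2⟩ := all11_ins r i v _ h.2 hv hk
    exact ⟨(l, u), ⟨h.1, h1⟩, h2⟩
  · rw [hb, cond_true] at hk
    obtain ⟨u, h1, h2⟩ := all11_ins l i v _ h.1 hv hk
    exact ⟨(u, r), ⟨h1, h.2⟩, h2⟩

theorem all13_ins {S : ℕ → Prop} (t : T13 ℕ) (i v : ℕ) (k : T13 ℕ → Bool) (h : All13 S t) (hv : S v)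
    (hk : ins13 t i v k = true) : ∃ t', All13 S t' ∧ k t' = true := by
  obtain ⟨l, r⟩ := t
  unfold ins13 at hk
  change Bool.rec (motive := fun _ => Bool) _ _ _ = true at hk
  rw [brec] at hk
  cases hb : Nat.beq (Nat.land i 4096) 0
  · rw [hb, cond_false] at hk
    obtain ⟨u, h1, h2⟩ := all12_ins r i v _ h.2 hv hk
    exact ⟨(l, u), ⟨h.1, h1⟩, h2⟩
  · rw [hb, cond_true] at hk
    obtain ⟨u, h1, h2⟩ := all12_ins l i v _ h.1 hv hk
    exact ⟨(u, r), ⟨h1, h.2⟩, h2⟩

theorem store10 (S : ℕ → Prop) : Store (D := T10 ℕ) sel10 ins10 (cst10 6) S (All10 S) :=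
  ⟨all10_cst, fun _ i h => all10_sel h i, fun t i v k h hv hk => all10_ins t i v k h hv hk⟩

theorem run10_sound (C : Ctx Rw E fb Z g x Q) {I S O : List ℕ}
    (h : run10 A Rw E n3 fb Z I S O = true) (hI : AllSat n3 A x I) : AllSat n3 A x O :=
  run_sound C (store10 _) h hI

theorem store11 (S : ℕ → Prop) : Store (D := T11 ℕ) sel11 ins11 (cst11 6) S (All11 S) :=
  ⟨all11_cst, fun _ i h => all11_sel h i, fun t i v k h hv hk => all11_ins t i v k h hv hk⟩

theorem run11_sound (C : Ctx Rw E fb Z g x Q) {I S O : List ℕ}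
    (h : run11 A Rw E n3 fb Z I S O = true) (hI : AllSat n3 A x I) : AllSat n3 A x O :=
  run_sound C (store11 _) h hI

theorem store12 (S : ℕ → Prop) : Store (D := T12 ℕ) sel12 ins12 (cst12 6) S (All12 S) :=
  ⟨all12_cst, fun _ i h => all12_sel h i, fun t i v k h hv hk => all12_ins t i v k h hv hk⟩

theorem run12_sound (C : Ctx Rw E fb Z g x Q) {I S O : List ℕ}
    (h : run12 A Rw E n3 fb Z I S O = true) (hI : AllSat n3 A x I) : AllSat n3 A x O :=
  run_sound C (store12 _) h hI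

theorem store13 (S : ℕ → Prop) : Store (D := T13 ℕ) sel13 ins13 (cst13 6) S (All13 S) :=
  ⟨all13_cst, fun _ i h => all13_sel h i, fun t i v k h hv hk => all13_ins t i v k h hv hk⟩

theorem run13_sound (C : Ctx Rw E fb Z g x Q) {I S O : List ℕ}
    (h : run13 A Rw E n3 fb Z I S O = true) (hI : AllSat n3 A x I) : AllSat n3 A x O :=
  run_sound C (store13 _) h hI

theorem allSat_false {l : List ℕ} (h : AllSat n3 A x l)
    (hl : (recs l).any (fun r => Nat.beq (recMask r) 0) = true) : False := by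
  rw [List.any_eq_true] at hl
  obtain ⟨r, hr, h0⟩ := hl
  have := h r hr
  rw [beq_iff.1 h0] at this
  exact sat_zero this

end Pool.Agent.NG5c
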