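import Pool.Agent.NG5c.Lists
import Pool.Agent.NG5c.Tab
import Pool.Agent.NG5.Assembly

/-!
# The model of the nearly Gorenstein case  (task T9)

`p i` is the number of the pseudo-Frobenius number `q (p i)` chosen for `g i`, and `w i = w j` if and only if
`q (p i) + g i = q (p j) + g j`.
Rows `r = 5 * k + i < 25`: the lexicographically largest factorization `y` of `q k + g i`; the row is
`y - e_i`, its class is `q k` (class digit `k`).
Rows `r = 25 + 5 * k + j < 50`, for `p j ≠ k`: let `i` be the first index with `w i = w j`, and `y` the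
lexicographically largest factorization of `w_i - q k`, `w_i = q (p i) + g i` (a member). The row is
`y - e_j`, its class is `q (p j) - q k`. If there is `m` with `w m = w j` and `p m = k`, then `w_i - q k = g m` and
`y = e_m`. Otherwise `y m = 0` for the `m` with `w m = w j` or `p m = k` (`NGData.supp`).
-/

set_option autoImplicit false

namespace Pool.Agent.NG5c

open Finset Pool.Agent.NG5

def mVar (k i m : ℕ) : ℕ := 1 + (k * 5 + i) * 4 + (if m < i then m else m - 1)

def nVar (k i m : ℕ) : ℕ := 101 + (k * 5 + i) * 5 + m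

/-- the first index with the same `w` -/
def rep (w : ℕ → ℕ) (j : ℕ) : ℕ := ((List.range 5).find? fun i => w i == w j).getD 0

def ngP (p w : ℕ → ℕ) (r : ℕ) : List (ℕ × ℕ) :=
  if r < 25 then
    (((List.range 5).filter (fun m => m ≠ r % 5)).map fun m => (256 * m + mVar (r / 5) (r % 5) m, 1)) ++
      [(1280 + r / 5, 1)]
  else if r < 50 then
    let k := (r - 25) / 5
    let j := r % 5
    if p j = k then [] else
      (match (List.range 5).find? fun m => w m == w j && p m == k with
        | some m => [(256 * m, 1)]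
        | none => ((List.range 5).filter (fun m => w m ≠ w j ∧ p m ≠ k)).map fun m =>
            (256 * m + nVar k (rep w j) m, 1)) ++ [(1280 + p j, 1)]
  else []

def ngN (p w : ℕ → ℕ) (r : ℕ) : List (ℕ × ℕ) :=
  if r < 25 then [(256 * (r % 5), 1)]
  else if r < 50 then
    if p (r % 5) = (r - 25) / 5 then [] else [(256 * (r % 5), 1), (1280 + (r - 25) / 5, 1)]
  else []

def ngE (a : ℕ) : List (ℕ × ℕ) := if a = 0 ∨ 6 ≤ a then [] else [(a - 1, 1)]

theorem eNG_eq : ∀ a < 8, eNG a = (num (ngE a), num []) := by decide +kernel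

/-! ### Auxiliary facts -/

theorem ngm_sum_filter {F : ℕ × ℕ → ℤ} (c : ℕ → Bool) (G : ℕ → ℕ × ℕ) (l : List ℕ) :
    (((l.filter c).map G).map F).sum = (l.map fun m => if c m then F (G m) else 0).sum := by
  induction l with
  | nil => rfl
  | cons a l ih =>
    by_cases h : c a = true
    · rw [List.filter_cons_of_pos h]
      simp only [List.map_cons, List.sum_cons, ih, h, if_true]
    · rw [List.filter_cons_of_neg h]
      simp only [List.map_cons, List.sum_cons, ih, h]
      simp

theorem ngm_sum_filter_nat {F : ℕ × ℕ → ℕ} (c : ℕ → Bool) (G : ℕ → ℕ × ℕ) (l : List ℕ) :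
    (((l.filter c).map G).map F).sum = (l.map fun m => if c m then F (G m) else 0).sum := by
  induction l with
  | nil => rfl
  | cons a l ih =>
    by_cases h : c a = true
    · rw [List.filter_cons_of_pos h]
      simp only [List.map_cons, List.sum_cons, ih, h, if_true]
    · rw [List.filter_cons_of_neg h]
      simp only [List.map_cons, List.sum_cons, ih, h]
      simp

/-- the value of the blocks of a list with a filter -/
theorem ngm_evL (x : ℕ → ℕ) (c : ℕ → Bool) (f : ℕ → ℕ) (k : ℕ) (hf : ∀ m < 5, f m < 256)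
    (m : ℕ) (hm : m < 5) :
    evL x m ((((List.range 5).filter c).map fun m => (256 * m + f m, 1)) ++ [(1280 + k, 1)]) =
      if c m then x (f m) else 0 := by
  unfold evL
  rw [List.map_append, List.sum_append, ngm_sum_filter_nat]
  have h1 : ¬ (256 * m ≤ 1280 + k ∧ 1280 + k < 256 * m + 256) := by omega
  simp only [List.map_cons, List.map_nil, List.sum_cons, List.sum_nil, if_neg h1, add_zero, one_mul]
  have h2 : ∀ m' < 5, (256 * m ≤ 256 * m' + f m' ∧ 256 * m' + f m' < 256 * m + 256) ↔ m' = m := by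
    intro m' hm'
    have := hf m' hm'
    constructor
    · rintro ⟨h3, h4⟩; omega
    · rintro rfl; omega
  have h3 : (List.range 5).map (fun m_1 => if c m_1 = true then
      if 256 * m ≤ 256 * m_1 + f m_1 ∧ 256 * m_1 + f m_1 < 256 * m + 256 then
        x (256 * m_1 + f m_1 - 256 * m) else 0 else 0) =
      (List.range 5).map (fun m' => if m' = m then (if c m = true then x (f m) else 0) else 0) := by
    apply List.map_congr_left
    intro m' hm'
    rw [List.mem_range] at hm'
    by_cases h4 : m' = m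
    · subst h4
      rw [if_pos ((h2 m' hm').2 rfl), if_pos rfl, Nat.add_sub_cancel_left]
    · rw [if_neg (fun h => h4 ((h2 m' hm').1 h)), if_neg h4]
      simp
  rw [h3]
  interval_cases m <;> simp [List.range_succ]

theorem ngm_clL (Q : ℕ → ℤ) (c : ℕ → Bool) (f : ℕ → ℕ) (k : ℕ) (hk : k < 8)
    (hf : ∀ m < 5, f m < 256) :
    clL Q ((((List.range 5).filter c).map fun m => (256 * m + f m, 1)) ++ [(1280 + k, 1)]) = Q k := by
  unfold clL
  rw [List.map_append, List.sum_append, ngm_sum_filter]
  have h1 : 1280 ≤ 1280 + k ∧ 1280 + k < 1288 := by omega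
  simp only [List.map_cons, List.map_nil, List.sum_cons, List.sum_nil, if_pos h1, add_zero,
    Nat.add_sub_cancel_left, Nat.cast_one, one_mul]
  have h3 : ((List.range 5).map (fun m => if c m = true then
      if 1280 ≤ 256 * m + f m ∧ 256 * m + f m < 1288 then Q (256 * m + f m - 1280) else 0 else 0)) =
      (List.range 5).map (fun _ => (0 : ℤ)) := by
    apply List.map_congr_left
    intro m' hm'
    rw [List.mem_range] at hm'
    have := hf m' hm'
    have h4 : ¬ (1280 ≤ 256 * m' + f m' ∧ 256 * m' + f m' < 1288) := by omega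
    simp only [if_neg h4, ite_self]
  rw [h3]
  simp [List.range_succ]

theorem ngm_coef (c : ℕ → Bool) (f : ℕ → ℕ) (k : ℕ) :
    ∀ q ∈ ((((List.range 5).filter c).map fun m => (256 * m + f m, 1)) ++ [(1280 + k, 1)]),
      q.2 ≤ 7 := by
  intro q hq
  rw [List.mem_append] at hq
  rcases hq with hq | hq
  · rw [List.mem_map] at hq
    obtain ⟨m, _, rfl⟩ := hq
    norm_num
  · rw [List.mem_singleton] at hq
    subst hq
    norm_num

theorem ngm_len (c : ℕ → Bool) (f : ℕ → ℕ) (k : ℕ) :
    ((((List.range 5).filter c).map fun m => (256 * m + f m, 1)) ++ [(1280 + k, 1)]).length ≤ 8 := by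
  rw [List.length_append, List.length_map]
  have h := List.length_filter_le c (List.range 5)
  rw [List.length_range] at h
  simp only [List.length_cons, List.length_nil]
  omega

theorem ngm_evL_one (x : ℕ → ℕ) (i m : ℕ) : evL x m [(256 * i, 1)] = if m = i then x 0 else 0 := by
  unfold evL
  simp only [List.map_cons, List.map_nil, List.sum_cons, List.sum_nil, add_zero, one_mul]
  by_cases h : m = i
  · subst h
    rw [if_pos (by omega), if_pos rfl, Nat.sub_self]
  · rw [if_neg (by omega), if_neg h]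

theorem ngm_clL_one (Q : ℕ → ℤ) (i : ℕ) (hi : i < 5) : clL Q [(256 * i, 1)] = 0 := by
  unfold clL
  simp only [List.map_cons, List.map_nil, List.sum_cons, List.sum_nil, add_zero]
  rw [if_neg (by omega)]

theorem ngm_evL_two (x : ℕ → ℕ) (i k m : ℕ) (hm : m < 5) :
    evL x m [(256 * i, 1), (1280 + k, 1)] = if m = i then x 0 else 0 := by
  unfold evL
  simp only [List.map_cons, List.map_nil, List.sum_cons, List.sum_nil, add_zero, one_mul]
  rw [if_neg (show ¬ (256 * m ≤ 1280 + k ∧ 1280 + k < 256 * m + 256) by omega), add_zero]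
  by_cases h : m = i
  · subst h
    rw [if_pos (by omega), if_pos rfl, Nat.sub_self]
  · rw [if_neg (by omega), if_neg h]

theorem ngm_clL_two (Q : ℕ → ℤ) (i k : ℕ) (hi : i < 5) (hk : k < 8) :
    clL Q [(256 * i, 1), (1280 + k, 1)] = Q k := by
  unfold clL
  simp only [List.map_cons, List.map_nil, List.sum_cons, List.sum_nil, add_zero, Nat.cast_one, one_mul,
    Nat.add_sub_cancel_left]
  rw [if_neg (by omega), if_pos (by omega), zero_add]

theorem ngm_coef_two (a b : ℕ) : ∀ q ∈ [(a, 1), (b, 1)], q.2 ≤ 7 := by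
  intro q hq
  rw [List.mem_cons, List.mem_singleton] at hq
  rcases hq with rfl | rfl <;> norm_num

theorem ngm_coef_one (a : ℕ) : ∀ q ∈ [(a, 1)], q.2 ≤ 7 := by
  intro q hq
  rw [List.mem_singleton] at hq
  subst hq
  norm_num

/-- the empty row -/
theorem ngm_row_nil {g : Fin 5 → ℕ} (hg : MinGen g) (x : ℕ → ℕ) (Q : ℕ → ℤ) :
    RowOK g x Q (num [], num []) := by
  refine rowOK_of (y := 0) (by simp) (by simp) (by simp) (by simp) (fun m => by simp [evL]) ?_
    (by simp [evL, clL])
  intro y' hy' k _ hlt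
  have h1 : ∑ i, y' i * g i = 0 := by rw [hy']; simp
  have h2 : y' k * g k = 0 := by
    have h3 : y' k * g k ≤ ∑ j, y' j * g j :=
      Finset.single_le_sum (f := fun j => y' j * g j) (fun j _ => Nat.zero_le _) (Finset.mem_univ k)
    omega
  have h4 := gen_pos hg k
  have h5 : y' k = 0 := by
    rcases Nat.mul_eq_zero.1 h2 with h | h
    · exact h
    · omega
  rw [h5] at hlt
  exact absurd hlt (by simp)

/-- A general row: `y - e_j`, with class `Q a - Q b` (or `Q a` if `b` is absent). -/
theorem ngm_sum {g : Fin 5 → ℕ} (y : Fin 5 → ℕ) (j : Fin 5) :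
    ∑ m : Fin 5, ((y m : ℤ) - ((if m = j then 1 else 0 : ℕ) : ℤ)) * g m =
      ((∑ i, y i * g i : ℕ) : ℤ) - g j := by
  have h1 : ∀ m : Fin 5, ((y m : ℤ) - ((if m = j then 1 else 0 : ℕ) : ℤ)) * g m =
      ((y m * g m : ℕ) : ℤ) - (if m = j then (g m : ℤ) else 0) := by
    intro m
    split
    · push_cast; ring
    · push_cast; ring
  rw [Finset.sum_congr rfl (fun m _ => h1 m), Finset.sum_sub_distrib, Finset.sum_ite_eq' Finset.univ j]
  simp

theorem ngm_els (a : ℕ) : Bd 8 56 (eNG a).1 ∧ Bd 8 56 (eNG a).2 := by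
  have h : ∃ b c, eNG a = mk b c := by
    unfold eNG sel3
    cases Nat.beq (Nat.land a 4) 0 <;> unfold sel2 <;> cases Nat.beq (Nat.land a 2) 0 <;>
      unfold sel1 <;> cases Nat.beq (Nat.land a 1) 0 <;> exact ⟨_, _, rfl⟩
  obtain ⟨b, c, hbc⟩ := h
  rw [hbc]
  exact ⟨dec_bd _ _, dec_bd _ _⟩

theorem ngm_zAll : ∀ d < 256, dig zAll d = 65535 := by decide +kernel

theorem ngm_fb : ∀ a < 8, ∀ b < 8, (fbNG >>> (8 * a + b)) &&& 1 = 1 → a ≠ b ∧ a < 6 ∧ b < 6 := by
  decide +kernel

theorem ngm_ec (Q : ℕ → ℤ) (a : ℕ) (ha : a < 6) :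
    ec Q (eNG a).1 - ec Q (eNG a).2 = if a = 0 then 0 else Q (a - 1) := by
  rw [eNG_eq a (by omega)]
  have h1 : ec Q (num []) = 0 := by
    rw [ec_num Q [] (by simp) (by simp)]; simp [ecL]
  have h2 : ∀ q ∈ ngE a, q.2 ≤ 7 := by
    unfold ngE; intro q hq; split at hq
    · simp at hq
    · exact ngm_coef_one _ q hq
  have h3 : (ngE a).length ≤ 8 := by
    unfold ngE; split <;> simp
  change ec Q (num (ngE a)) - ec Q (num []) = _
  rw [h1, ec_num Q _ h2 h3, sub_zero]
  unfold ngE
  by_cases h : a = 0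
  · rw [if_pos (Or.inl h), if_pos h]; simp [ecL]
  · rw [if_neg (by omega), if_neg h]
    simp only [ecL, List.map_cons, List.map_nil, List.sum_cons, List.sum_nil, add_zero,
      Nat.cast_one, one_mul]
    rw [if_pos (by omega)]

theorem rep_spec (w : ℕ → ℕ) (j : ℕ) (hj : j < 5) : rep w j < 5 ∧ w (rep w j) = w j := by
  unfold rep
  cases h : (List.range 5).find? fun i => w i == w j with
  | none =>
    exfalso
    rw [List.find?_eq_none] at h
    exact h j (List.mem_range.2 hj) (by simp)
  | some i =>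
    have h1 := List.find?_some h
    have h2 := List.mem_of_find?_eq_some h
    rw [List.mem_range] at h2
    simp only [Option.getD_some]
    exact ⟨h2, by simpa using h1⟩

/-- the values of the variables -/
def ngX (Y V : Fin 5 → Fin 5 → Fin 5 → ℕ) (d : ℕ) : ℕ :=
  if d = 0 then 1
  else if d ≤ 100 then
    Y (Fin.ofNat 5 ((d - 1) / 4 / 5)) (Fin.ofNat 5 ((d - 1) / 4 % 5))
      (Fin.ofNat 5 (if (d - 1) % 4 < (d - 1) / 4 % 5 then (d - 1) % 4 else (d - 1) % 4 + 1))
  else if d ≤ 225 then
    V (Fin.ofNat 5 ((d - 101) / 5 / 5)) (Fin.ofNat 5 ((d - 101) / 5 % 5)) (Fin.ofNat 5 ((d - 101) % 5))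
  else 0

theorem ngX_zero (Y V : Fin 5 → Fin 5 → Fin 5 → ℕ) : ngX Y V 0 = 1 := by simp [ngX]

theorem fin_ofNat_val (m : Fin 5) (n : ℕ) (h : n = m) : Fin.ofNat 5 n = m := by
  subst h
  apply Fin.ext
  simp [Fin.ofNat, Nat.mod_eq_of_lt m.2]

theorem ngX_mVar (Y V : Fin 5 → Fin 5 → Fin 5 → ℕ) (k i m : Fin 5) (h : m ≠ i) :
    ngX Y V (mVar k i m) = Y k i m := by
  have hk := k.2
  have hi := i.2
  have hm := m.2
  have hne : (m : ℕ) ≠ i := fun h' => h (Fin.ext h')
  obtain ⟨t, ht⟩ : ∃ t, t = (if (m : ℕ) < i then (m : ℕ) else m - 1) := ⟨_, rfl⟩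
  have ht4 : t < 4 := by
    rw [ht]; split <;> omega
  have hd : mVar k i m = 1 + ((k : ℕ) * 5 + i) * 4 + t := by rw [ht]; rfl
  have h1 : (mVar k i m - 1) / 4 = (k : ℕ) * 5 + i := by rw [hd]; omega
  have h2 : (mVar k i m - 1) % 4 = t := by rw [hd]; omega
  have h3 : ((k : ℕ) * 5 + i) / 5 = k := by omega
  have h4 : ((k : ℕ) * 5 + i) % 5 = i := by omega
  unfold ngX
  rw [if_neg (by rw [hd]; omega), if_pos (by rw [hd]; omega), h1, h2, h3, h4,
    fin_ofNat_val k _ rfl, fin_ofNat_val i _ rfl, fin_ofNat_val m]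
  rw [ht]
  by_cases h5 : (m : ℕ) < i
  · rw [if_pos h5, if_pos h5]
  · rw [if_neg h5, if_neg (by omega)]; omega

theorem ngX_nVar (Y V : Fin 5 → Fin 5 → Fin 5 → ℕ) (k i m : Fin 5) :
    ngX Y V (nVar k i m) = V k i m := by
  have hk := k.2
  have hi := i.2
  have hm := m.2
  have hd : nVar k i m = 101 + ((k : ℕ) * 5 + i) * 5 + m := rfl
  have h1 : (nVar k i m - 101) / 5 = (k : ℕ) * 5 + i := by rw [hd]; omega
  have h2 : (nVar k i m - 101) % 5 = m := by rw [hd]; omega
  have h3 : ((k : ℕ) * 5 + i) / 5 = k := by omega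
  have h4 : ((k : ℕ) * 5 + i) % 5 = i := by omega
  unfold ngX
  rw [if_neg (by rw [hd]; omega), if_neg (by rw [hd]; omega), if_pos (by rw [hd]; omega),
    h1, h2, h3, h4, fin_ofNat_val k _ rfl, fin_ofNat_val i _ rfl, fin_ofNat_val m _ rfl]

/-- the values of the classes -/
def ngQ (q : Fin 5 → ℤ) (k : ℕ) : ℤ := if h : k < 5 then q ⟨k, h⟩ else 0

theorem ngQ_lt (q : Fin 5 → ℤ) (k : ℕ) (h : k < 5) : ngQ q k = q ⟨k, h⟩ := by
  unfold ngQ
  rw [dif_pos h]

theorem mVar_lt (k i m : ℕ) (hk : k < 5) (hi : i < 5) (hm : m < 5) : mVar k i m < 256 := by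
  unfold mVar
  split <;> omega

theorem nVar_lt (k i m : ℕ) (hk : k < 5) (hi : i < 5) (hm : m < 5) : nVar k i m < 256 := by
  unfold nVar
  omega

/-- The model. Use `rowOK_of`, `ec_num`, `eNG_eq`, `pf_diff`, `exists_lexMax`, `lexMax_single`. -/
theorem ng_ctx {g : Fin 5 → ℕ} {q : Fin 5 → ℤ} {idx : Fin 5 → Fin 5} (D : NGData g q idx)
    {p w : ℕ → ℕ} (hp : ∀ i : Fin 5, (idx i : ℕ) = p i)
    (hw : ∀ i j : Fin 5, w i = w j ↔ q (idx i) + g i = q (idx j) + g j)
    {rw : ℕ → ℕ × ℕ} (hrw : ∀ r, ∃ r', rw r = (num (ngP p w r'), num (ngN p w r'))) :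
    ∃ (x : ℕ → ℕ) (Q : ℕ → ℤ), Ctx rw eNG fbNG zAll g x Q := by
  have hg := D.min
  have hY0 : ∀ k i : Fin 5, ∃ y : Fin 5 → ℕ, ((∑ m, y m * g m : ℕ) : ℤ) = q k + g i ∧ LexMax g y :=
    fun k i => exists_lexMax hg ((D.pf k).add i)
  choose Y hY hYlex using hY0
  have hV0 : ∀ k i : Fin 5, ∃ y : Fin 5 → ℕ,
      ((∑ m, y m * g m : ℕ) : ℤ) = q (idx i) + g i - q k ∧ LexMax g y :=
    fun k i => exists_lexMax hg (D.ng i k)
  choose V hV hVlex using hV0
  have hYii : ∀ k i, Y k i i = 0 := by
    intro k i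
    by_contra h
    have h1 := mem_sub_of_pos (hY k i) h
    rw [add_sub_cancel_right] at h1
    exact (D.pf k).nmem h1
  refine ⟨ngX Y V, ngQ q, hg, ngX_zero Y V,
    fun d hd => Or.inl (ngm_zAll d hd), ?_, ngm_els, ?_⟩
  · intro r
    obtain ⟨r', hr'⟩ := hrw r
    rw [hr']
    by_cases h1 : r' < 25
    · -- rows of the first kind
      obtain ⟨k, hk⟩ : ∃ k : Fin 5, (k : ℕ) = r' / 5 := ⟨⟨r' / 5, by omega⟩, rfl⟩
      obtain ⟨i, hi⟩ : ∃ i : Fin 5, (i : ℕ) = r' % 5 := ⟨⟨r' % 5, by omega⟩, rfl⟩
      have eP : ngP p w r' = (((List.range 5).filter (fun m => decide (m ≠ (i : ℕ)))).map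
          fun m => (256 * m + mVar k i m, 1)) ++ [(1280 + (k : ℕ), 1)] := by
        unfold ngP
        rw [if_pos h1, ← hk, ← hi]
      have eN : ngN p w r' = [(256 * (i : ℕ), 1)] := by
        unfold ngN
        rw [if_pos h1, ← hi]
      have hf : ∀ m < 5, mVar k i m < 256 := fun m hm => mVar_lt _ _ _ k.2 i.2 hm
      have hev : ∀ m : Fin 5, evL (ngX Y V) m ((((List.range 5).filter
          (fun m => decide (m ≠ (i : ℕ)))).map
          fun m => (256 * m + mVar k i m, 1)) ++ [(1280 + (k : ℕ), 1)]) = Y k i m := by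
        intro m
        rw [ngm_evL _ _ (fun m => mVar k i m) _ hf m m.2]
        by_cases h2 : m = i
        · subst h2
          rw [if_neg (by simp), hYii]
        · have h3 : (m : ℕ) ≠ i := fun h' => h2 (Fin.ext h')
          rw [if_pos (by simpa using h3), ngX_mVar Y V k i m h2]
      rw [eP, eN]
      refine rowOK_of (y := Y k i) (ngm_coef _ _ _) (ngm_len _ _ _) (ngm_coef_one _) (by simp)
        hev (hYlex k i) ?_
      rw [ngm_clL _ _ (fun m => mVar k i m) _ (by have := k.2; omega) hf, ngm_clL_one _ _ i.2,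
        sub_zero, ngQ_lt q _ k.2]
      have h2 : ∀ m : Fin 5, ((evL (ngX Y V) m ((((List.range 5).filter
          (fun m => decide (m ≠ (i : ℕ)))).map
          fun m => (256 * m + mVar k i m, 1)) ++ [(1280 + (k : ℕ), 1)]) : ℤ) -
          (evL (ngX Y V) m [(256 * (i : ℕ), 1)] : ℤ)) * g m =
          ((Y k i m : ℤ) - ((if m = i then 1 else 0 : ℕ) : ℤ)) * g m := by
        intro m
        rw [hev, ngm_evL_one, ngX_zero]
        by_cases h3 : m = i
        · subst h3; simp
        · have h4 : (m : ℕ) ≠ i := fun h' => h3 (Fin.ext h')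
          rw [if_neg h4, if_neg h3]
      rw [Finset.sum_congr rfl (fun m _ => h2 m), ngm_sum, hY k i]
      simp
    · by_cases h2 : r' < 50
      · -- rows of the second kind
        obtain ⟨k, hk⟩ : ∃ k : Fin 5, (k : ℕ) = (r' - 25) / 5 := ⟨⟨(r' - 25) / 5, by omega⟩, rfl⟩
        obtain ⟨j, hj⟩ : ∃ j : Fin 5, (j : ℕ) = r' % 5 := ⟨⟨r' % 5, by omega⟩, rfl⟩
        by_cases h3 : p j = k
        · have eP : ngP p w r' = [] := by
            unfold ngP
            rw [if_neg h1, if_pos h2, ← hk, ← hj]
            simp only [h3, if_true]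
          have eN : ngN p w r' = [] := by
            unfold ngN
            rw [if_neg h1, if_pos h2, ← hk, ← hj, if_pos h3]
          rw [eP, eN]
          exact ngm_row_nil hg _ _
        · have eN : ngN p w r' = [(256 * (j : ℕ), 1), (1280 + (k : ℕ), 1)] := by
            unfold ngN
            rw [if_neg h1, if_pos h2, ← hk, ← hj, if_neg h3]
          have hpj : p j < 8 := by
            rw [← hp j]
            have := (idx j).2
            omega
          have hQpj : ngQ q (p j) = q (idx j) := by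
            have h4 : p j < 5 := by rw [← hp j]; exact (idx j).2
            rw [ngQ_lt q _ h4]
            congr 1
            exact Fin.ext (hp j).symm
          have hQk : ngQ q k = q k := ngQ_lt q _ k.2
          -- the general row
          have key : ∀ (P : List (ℕ × ℕ)) (y : Fin 5 → ℕ), (∀ q ∈ P, q.2 ≤ 7) → P.length ≤ 8 →
              (∀ m : Fin 5, evL (ngX Y V) m P = y m) → LexMax g y →
              clL (ngQ q) P = q (idx j) →
              ((∑ i, y i * g i : ℕ) : ℤ) = q (idx j) + g j - q k →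
              RowOK g (ngX Y V) (ngQ q)
                (num P, num [(256 * (j : ℕ), 1), (1280 + (k : ℕ), 1)]) := by
            intro P y hP1 hP2 hev hlex hcl hsum
            refine rowOK_of (y := y) hP1 hP2 (ngm_coef_two _ _) (by simp) hev hlex ?_
            rw [hcl, ngm_clL_two _ _ _ j.2 (by have := k.2; omega), hQk]
            have h5 : ∀ m : Fin 5, ((evL (ngX Y V) m P : ℤ) -
                (evL (ngX Y V) m [(256 * (j : ℕ), 1), (1280 + (k : ℕ), 1)] : ℤ)) * g m =
                ((y m : ℤ) - ((if m = j then 1 else 0 : ℕ) : ℤ)) * g m := by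
              intro m
              rw [hev, ngm_evL_two _ _ _ _ m.2, ngX_zero]
              by_cases h3 : m = j
              · subst h3; simp
              · have h4 : (m : ℕ) ≠ j := fun h' => h3 (Fin.ext h')
                rw [if_neg h4, if_neg h3]
            rw [Finset.sum_congr rfl (fun m _ => h5 m), ngm_sum, hsum]
            ring
          have hmatch : ngP p w r' = (match (List.range 5).find? fun m => w m == w j && p m == k with
              | some m => [(256 * m, 1)]
              | none => ((List.range 5).filter (fun m => w m ≠ w j ∧ p m ≠ k)).map fun m =>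
                (256 * m + nVar k (rep w j) m, 1)) ++ [(1280 + p j, 1)] := by
            unfold ngP
            rw [if_neg h1, if_pos h2, ← hk, ← hj]
            simp only [if_neg h3]
          rw [eN, hmatch]
          cases hfind : (List.range 5).find? fun m => w m == w j && p m == k with
          | some m0 =>
            have h4 := List.find?_some hfind
            have h5 := List.mem_of_find?_eq_some hfind
            rw [List.mem_range] at h5
            simp only [Bool.and_eq_true, beq_iff_eq] at h4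
            obtain ⟨m, hm⟩ : ∃ m : Fin 5, (m : ℕ) = m0 := ⟨⟨m0, h5⟩, rfl⟩
            subst hm
            have h6 : idx m = k := Fin.ext (by rw [hp m, h4.2])
            have h7 := (hw m j).1 h4.1
            rw [h6] at h7
            refine key _ (Pi.single m 1) (ngm_coef_two _ _) (by simp) ?_ (lexMax_single hg m) ?_ ?_
            · intro m'
              change evL (ngX Y V) m' [(256 * (m : ℕ), 1), (1280 + p j, 1)] = _
              rw [ngm_evL_two _ _ _ _ m'.2, ngX_zero]
              by_cases h8 : m' = m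
              · subst h8; simp
              · have h9 : (m' : ℕ) ≠ m := fun h' => h8 (Fin.ext h')
                rw [if_neg h9, Pi.single_eq_of_ne h8]
            · change clL _ [(256 * (m : ℕ), 1), (1280 + p j, 1)] = _
              rw [ngm_clL_two _ _ _ m.2 hpj, hQpj]
            · rw [sum_single_gen, ← h7]
              ring
          | none =>
            rw [List.find?_eq_none] at hfind
            obtain ⟨hr5, hrw'⟩ := rep_spec w j j.2
            obtain ⟨i, hi⟩ : ∃ i : Fin 5, (i : ℕ) = rep w j := ⟨⟨rep w j, hr5⟩, rfl⟩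
            rw [← hi] at hrw'
            simp only [← hi]
            have hwi := (hw i j).1 hrw'
            have hf : ∀ m < 5, nVar k i m < 256 := fun m hm => nVar_lt _ _ _ k.2 i.2 hm
            refine key _ (V k i) (ngm_coef _ _ _) (ngm_len _ _ _) ?_ (hVlex k i) ?_ ?_
            · intro m
              rw [ngm_evL _ _ (fun m => nVar k i m) _ hf m m.2, ngX_nVar]
              by_cases h4 : w m ≠ w j ∧ p m ≠ k
              · rw [if_pos (by simpa using h4)]
              · rw [if_neg (by simpa using h4)]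
                by_contra h5
                have h6 := mem_sub_of_pos (hV k i) (Ne.symm h5)
                refine D.supp (i := i) (j := m) (k := k) ?_ h6
                by_cases h7 : w m = w j
                · left
                  refine ⟨(hw m i).1 (h7.trans hrw'.symm), fun h8 => ?_⟩
                  have h9 := hfind m (List.mem_range.2 m.2)
                  apply h9
                  rw [h7, ← hp m, h8]
                  simp
                · right
                  have h8 : p m = k := by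
                    by_contra h9
                    exact h4 ⟨h7, h9⟩
                  refine ⟨Fin.ext (by rw [hp m, h8]), fun h9 => ?_⟩
                  exact h7 (((hw m i).2 h9).trans hrw')
            · rw [ngm_clL _ _ (fun m => nVar k i m) _ hpj hf, hQpj]
            · rw [hV k i, hwi]
      · have eP : ngP p w r' = [] := by
          unfold ngP
          rw [if_neg h1, if_neg h2]
        have eN : ngN p w r' = [] := by
          unfold ngN
          rw [if_neg h1, if_neg h2]
        rw [eP, eN]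
        exact ngm_row_nil hg _ _
  · intro a ha b hb hfb y
    obtain ⟨hab, ha6, hb6⟩ := ngm_fb a ha b hb hfb
    rw [ngm_ec _ a ha6, ngm_ec _ b hb6]
    intro hy
    have hmem : Mem g ((if a = 0 then 0 else ngQ q (a - 1)) - (if b = 0 then 0 else ngQ q (b - 1))) :=
      ⟨y, hy⟩
    by_cases ha0 : a = 0
    · have hb0 : b ≠ 0 := fun h => hab (ha0.trans h.symm)
      have hb5 : b - 1 < 5 := by omega
      rw [if_pos ha0, if_neg hb0, ngQ_lt q _ hb5] at hmem
      have h1 := mem_nonneg hmem
      have h2 := (D.pf ⟨b - 1, hb5⟩).pos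
      omega
    · have ha5 : a - 1 < 5 := by omega
      by_cases hb0 : b = 0
      · rw [if_neg ha0, if_pos hb0, sub_zero, ngQ_lt q _ ha5] at hmem
        exact (D.pf ⟨a - 1, ha5⟩).nmem hmem
      · have hb5 : b - 1 < 5 := by omega
        rw [if_neg ha0, if_neg hb0, ngQ_lt q _ ha5, ngQ_lt q _ hb5] at hmem
        refine pf_diff (D.pf ⟨a - 1, ha5⟩) (D.pf ⟨b - 1, hb5⟩) (fun h => ?_) hmem
        have h1 := congrArg Fin.val (D.inj h)
        simp only at h1
        omega

/-- No semigroup with the structure `(p, w)`. -/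
def NGFalse (s : List ℕ × List ℕ) : Prop :=
  ∀ (g : Fin 5 → ℕ) (q : Fin 5 → ℤ) (idx : Fin 5 → Fin 5), NGData g q idx →
    (∀ i : Fin 5, (idx i : ℕ) = s.1.getD i 0) →
    (∀ i j : Fin 5, s.2.getD i 0 = s.2.getD j 0 ↔ q (idx i) + g i = q (idx j) + g j) → False

theorem ngm_land (r k : ℕ) (hk : 63 &&& k = k) : Nat.land r k = Nat.land (r % 64) k := by
  have h1 : r &&& 63 = r % 64 := Nat.and_two_pow_sub_one_eq_mod r 6
  have h2 : r &&& k = (r % 64) &&& k := by
    rw [← h1, Nat.and_assoc, hk]
  exact h2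

theorem ngm_sel6 (t : T6 (ℕ × ℕ)) (r : ℕ) : sel6 t r = sel6 t (r % 64) := by
  have e1 := ngm_land r 1 (by decide)
  have e2 := ngm_land r 2 (by decide)
  have e3 := ngm_land r 4 (by decide)
  have e4 := ngm_land r 8 (by decide)
  have e5 := ngm_land r 16 (by decide)
  have e6 := ngm_land r 32 (by decide)
  unfold sel6 sel5 sel4 sel3 sel2 sel1
  rw [e1, e2, e3, e4, e5, e6]

theorem ngFalse_of (s : List ℕ × List ℕ) (t : T6 (ℕ × ℕ))
    (ht : ∀ r < 64, sel6 t r = (num (ngP (fun i => s.1.getD i 0) (fun i => s.2.getD i 0) r),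
      num (ngN (fun i => s.1.getD i 0) (fun i => s.2.getD i 0) r)))
    (h : ∀ g x Q, Ctx (sel6 t) eNG fbNG zAll g x Q → False) : NGFalse s := by
  intro g q idx D hp hw
  obtain ⟨x, Q, hc⟩ := ng_ctx D (p := fun i => s.1.getD i 0) (w := fun i => s.2.getD i 0) hp hw
    (rw := sel6 t) (fun r => ⟨r % 64, by rw [ngm_sel6, ht (r % 64) (Nat.mod_lt _ (by norm_num))]⟩)
  exact h g x Q hc

end Pool.Agent.NG5c
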