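import Pool.Agent.NG5c.NGModel

/-!
# The structures of the nearly Gorenstein case  (task T9b)
-/

set_option autoImplicit false

namespace Pool.Agent.NG5c

open Finset Pool.Agent.NG5

/-- representatives of the structures -/
def ngList : List (List ℕ × List ℕ) :=
  [([0,0,0,1,1], [0,1,2,0,1]), ([0,0,0,1,1], [0,1,2,0,3]),
   ([0,0,0,1,2], [0,1,2,0,0]), ([0,0,0,1,2], [0,1,2,0,1]), ([0,0,0,1,2], [0,1,2,0,3]),
   ([0,0,0,1,2], [0,1,2,3,3]),
   ([0,0,1,1,2], [0,1,0,1,0]), ([0,0,1,1,2], [0,1,0,1,2]), ([0,0,1,1,2], [0,1,0,2,0]),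
   ([0,0,1,1,2], [0,1,0,2,1]), ([0,0,1,1,2], [0,1,0,2,3]), ([0,0,1,1,2], [0,1,2,3,0]),
   ([0,0,1,2,3], [0,1,0,0,0]), ([0,0,1,2,3], [0,1,0,0,1]), ([0,0,1,2,3], [0,1,0,0,2]),
   ([0,0,1,2,3], [0,1,0,1,2]), ([0,0,1,2,3], [0,1,0,2,2]), ([0,0,1,2,3], [0,1,0,2,3]),
   ([0,0,1,2,3], [0,1,2,2,2]), ([0,0,1,2,3], [0,1,2,2,3]),
   ([0,1,2,3,4], [0,0,0,0,1]), ([0,1,2,3,4], [0,0,0,1,1]), ([0,1,2,3,4], [0,0,0,1,2]),
   ([0,1,2,3,4], [0,0,1,1,2]), ([0,1,2,3,4], [0,0,1,2,3])]

/-! ### Transport by permutations -/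

theorem mem_comp (g : Fin 5 → ℕ) (σ : Equiv.Perm (Fin 5)) (z : ℤ) : Mem (g ∘ σ) z ↔ Mem g z := by
  constructor
  · rintro ⟨y, hy⟩
    refine ⟨y ∘ σ.symm, ?_⟩
    rw [← hy, ← Equiv.sum_comp σ (fun i => (y ∘ σ.symm) i * g i)]
    simp
  · rintro ⟨y, hy⟩
    refine ⟨y ∘ σ, ?_⟩
    rw [← hy, ← Equiv.sum_comp σ (fun i => y i * g i)]
    simp

theorem minGen_comp {g : Fin 5 → ℕ} (hg : MinGen g) (σ : Equiv.Perm (Fin 5)) : MinGen (g ∘ σ) := by
  intro l y hy
  have h1 := hg (σ l) (y ∘ σ.symm) (by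
    rw [← Equiv.sum_comp σ (fun i => (y ∘ σ.symm) i * g i)]
    simpa using hy)
  funext i
  have h2 := congrFun h1 (σ i)
  simp only [Function.comp_apply, Equiv.symm_apply_apply] at h2
  rw [h2]
  by_cases h : i = l
  · subst h; simp
  · rw [Pi.single_eq_of_ne (fun he => h (σ.injective he)), Pi.single_eq_of_ne h]

theorem isPF_comp {g : Fin 5 → ℕ} {f : ℤ} (hf : IsPF g f) (σ : Equiv.Perm (Fin 5)) :
    IsPF (g ∘ σ) f where
  pos := hf.pos
  nmem := fun h => hf.nmem ((mem_comp g σ f).mp h)
  add := fun i => (mem_comp g σ _).mpr (hf.add (σ i))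

theorem NGData_perm {g : Fin 5 → ℕ} {q : Fin 5 → ℤ} {idx : Fin 5 → Fin 5} (D : NGData g q idx)
    (σ τ : Equiv.Perm (Fin 5)) : NGData (g ∘ σ) (q ∘ τ.symm) (τ ∘ idx ∘ σ) where
  min := minGen_comp D.min σ
  inj := D.inj.comp τ.symm.injective
  pf := fun k => isPF_comp (D.pf (τ.symm k)) σ
  ng := by
    intro i k
    rw [mem_comp]
    simpa using D.ng (σ i) (τ.symm k)

/-! ### The finite check -/

/-- the list of the values -/
def toL (f : Fin 5 → Fin 5) : List ℕ := [(f 0 : ℕ), (f 1 : ℕ), (f 2 : ℕ), (f 3 : ℕ), (f 4 : ℕ)]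

/-- the relation of equality of the entries -/
def kl (l : List ℕ) : List Bool :=
  match l with
  | [a, b, c, d, e] => [a == b, a == c, a == d, a == e, b == c, b == d, b == e, c == d, c == e, d == e]
  | _ => []

/-- the composition with a list of indices -/
def cmp (l p : List ℕ) : List ℕ := p.map fun i => l.getD i 0

/-- the permutations of the indices -/
def permsL : List (List ℕ) :=
  (List.range 5).flatMap fun a => ((List.range 5).filter fun b => b != a).flatMap fun b =>
    ((List.range 5).filter fun c => c != a && c != b).flatMap fun c =>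
    ((List.range 5).filter fun d => d != a && d != b && d != c).flatMap fun d =>
    ((List.range 5).filter fun e => e != a && e != b && e != c && e != d).map fun e => [a, b, c, d, e]

/-- a list of indices as a function -/
def fn (l : List ℕ) (i : Fin 5) : Fin 5 := ⟨l.getD i 0 % 5, Nat.mod_lt _ (by norm_num)⟩

theorem permsL_ok : ∀ p ∈ permsL, p.length = 5 ∧ (∀ i : Fin 5, p.getD i 0 < 5) ∧
    Function.Injective (fn p) := by
  decide +kernel

theorem toL_getD (f : Fin 5 → Fin 5) (i : Fin 5) : (toL f).getD i 0 = (f i : ℕ) := by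
  fin_cases i <;> rfl

theorem list5 {α : Type*} {l : List α} (h : l.length = 5) :
    ∃ a b c d e, l = [a, b, c, d, e] := by
  match l, h with
  | [a, b, c, d, e], _ => exact ⟨a, b, c, d, e, rfl⟩

theorem cmp_toL (f : Fin 5 → Fin 5) {p : List ℕ} (hp : p ∈ permsL) :
    cmp (toL f) p = toL (f ∘ fn p) := by
  obtain ⟨h1, h2, -⟩ := permsL_ok p hp
  obtain ⟨a, b, c, d, e, rfl⟩ := list5 h1
  have key : ∀ x : ℕ, x < 5 → (toL f).getD x 0 = (f ⟨x % 5, Nat.mod_lt _ (by norm_num)⟩ : ℕ) := by
    intro x hx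
    rw [show x = ((⟨x, hx⟩ : Fin 5) : ℕ) from rfl, toL_getD]
    congr 2
    ext
    exact (Nat.mod_eq_of_lt hx).symm
  have ha := key a (h2 0)
  have hb := key b (h2 1)
  have hc := key c (h2 2)
  have hd := key d (h2 3)
  have he := key e (h2 4)
  unfold cmp
  simp only [List.map_cons, List.map_nil]
  rw [ha, hb, hc, hd, he]
  rfl

theorem kl_iff {f : Fin 5 → Fin 5} {m : List ℕ} (hm : m.length = 5) (h : kl (toL f) = kl m) :
    ∀ i j : Fin 5, f i = f j ↔ m.getD i 0 = m.getD j 0 := by
  obtain ⟨a, b, c, d, e, rfl⟩ := list5 hm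
  simp only [kl, toL, List.cons.injEq, Bool.beq_eq_decide_eq, decide_eq_decide, and_true] at h
  obtain ⟨h1, h2, h3, h4, h5, h6, h7, h8, h9, h10⟩ := h
  have e1 : ∀ i j : Fin 5, f i = f j ↔ (f i : ℕ) = (f j : ℕ) := fun i j => Fin.ext_iff
  have key : ∀ i j : Fin 5, i < j → (f i = f j ↔ [a, b, c, d, e].getD i 0 = [a, b, c, d, e].getD j 0) := by
    intro i j hij
    rw [e1]
    fin_cases i <;> fin_cases j <;> first | (exfalso; revert hij; decide) | assumption
  intro i j
  rcases lt_trichotomy i j with hl | hl | hl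
  · exact key i j hl
  · subst hl; simp
  · rw [eq_comm, key j i hl, eq_comm]

/-- the first index with the same value -/
def nf (f : Fin 5 → Fin 5) (i : Fin 5) : Fin 5 :=
  if f 0 = f i then 0 else if f 1 = f i then 1 else if f 2 = f i then 2 else if f 3 = f i then 3 else 4

theorem nf_spec (f : Fin 5 → Fin 5) (i : Fin 5) : f (nf f i) = f i := by
  unfold nf
  split_ifs with h0 h1 h2 h3
  · exact h0
  · exact h1
  · exact h2
  · exact h3
  · fin_cases i
    · exact absurd rfl h0
    · exact absurd rfl h1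
    · exact absurd rfl h2
    · exact absurd rfl h3
    · rfl

theorem nf_iff (f : Fin 5 → Fin 5) (i j : Fin 5) : nf f i = nf f j ↔ f i = f j := by
  constructor
  · intro h
    have h1 := nf_spec f i
    have h2 := nf_spec f j
    rw [h] at h1
    exact h1.symm.trans h2
  · intro h
    unfold nf
    rw [h]

theorem nf_le (f : Fin 5 → Fin 5) (i : Fin 5) : nf f i ≤ i := by
  unfold nf
  fin_cases i
  · simp
  · split_ifs with h0 h1
    all_goals first | decide | exact absurd rfl h1
  · split_ifs with h0 h1 h2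
    all_goals first | decide | exact absurd rfl h2
  · split_ifs with h0 h1 h2 h3
    all_goals first | decide | exact absurd rfl h3
  · split_ifs <;> decide

/-- the types of `idx` -/
def types : List (List ℕ) :=
  [[0,0,0,1,1], [0,0,0,1,2], [0,0,1,1,2], [0,0,1,2,3], [0,1,2,3,4]]

theorem check1 : ((List.range 2).all fun g1 => (List.range 3).all fun g2 => (List.range 4).all fun g3 =>
    (List.range 5).all fun g4 => permsL.any fun p =>
      let k := kl (cmp [0, g1, g2, g3, g4] p)
      (k == kl [0,0,0,0,0]) || (k == kl [0,0,0,0,1]) || types.any fun t => k == kl t) = true := by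
  decide +kernel

/-- the conditions -/
def cond (t g : List ℕ) : Bool :=
  ((kl t).zip (kl g)).all (fun x => !(x.1 && x.2)) && ((kl t).zip (kl g)).any (fun x => !x.1 && x.2) &&
    (kl g).any (fun x => !x)

theorem check2 : (types.all fun t => (List.range 2).all fun g1 => (List.range 3).all fun g2 =>
    (List.range 4).all fun g3 => (List.range 5).all fun g4 => !(cond t [0, g1, g2, g3, g4]) ||
      permsL.any fun p =>
        let k := kl (cmp t p)
        (k == kl t) && (let m := kl (cmp [0, g1, g2, g3, g4] p)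
          ngList.any fun s => (k == kl s.1) && (m == kl s.2))) = true := by
  decide +kernel

theorem kl_congr {l m : List ℕ} (hl : l.length = 5) (hm : m.length = 5)
    (h : ∀ i j : Fin 5, l.getD i 0 = l.getD j 0 ↔ m.getD i 0 = m.getD j 0) : kl l = kl m := by
  obtain ⟨a, b, c, d, e, rfl⟩ := list5 hl
  obtain ⟨a', b', c', d', e', rfl⟩ := list5 hm
  have h01 := h 0 1
  have h02 := h 0 2
  have h03 := h 0 3
  have h04 := h 0 4
  have h12 := h 1 2
  have h13 := h 1 3
  have h14 := h 1 4
  have h23 := h 2 3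
  have h24 := h 2 4
  have h34 := h 3 4
  simp only [kl, List.cons.injEq, Bool.beq_eq_decide_eq, decide_eq_decide, and_true]
  exact ⟨h01, h02, h03, h04, h12, h13, h14, h23, h24, h34⟩

theorem cond_of (A B : Fin 5 → Fin 5) (hA : ∀ i j, i ≠ j → A i = A j → B i ≠ B j)
    (hB : ∃ i j, A i ≠ A j ∧ B i = B j) (hC : ∃ i j, B i ≠ B j) :
    cond (toL A) (toL B) = true := by
  have h1 : ((kl (toL A)).zip (kl (toL B))).all (fun x => !(x.1 && x.2)) = true := by
    have key : ∀ i j : Fin 5, i ≠ j → (!(((A i : ℕ) == (A j : ℕ)) && ((B i : ℕ) == (B j : ℕ)))) = true := by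
      intro i j hij
      have := hA i j hij
      simp only [Bool.not_eq_true', Bool.and_eq_false_iff, beq_eq_false_iff_ne, ne_eq, Fin.val_inj]
      tauto
    simp only [kl, toL, List.zip_cons_cons, List.zip_nil_right, List.all_cons, List.all_nil,
      Bool.and_true]
    rw [key 0 1 (by decide), key 0 2 (by decide), key 0 3 (by decide), key 0 4 (by decide),
      key 1 2 (by decide), key 1 3 (by decide), key 1 4 (by decide), key 2 3 (by decide),
      key 2 4 (by decide), key 3 4 (by decide)]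
    rfl
  have h2 : ((kl (toL A)).zip (kl (toL B))).any (fun x => !x.1 && x.2) = true := by
    obtain ⟨i, j, hij1, hij2⟩ : ∃ i j, i < j ∧ A i ≠ A j ∧ B i = B j := by
      obtain ⟨i, j, h1, h2⟩ := hB
      rcases lt_trichotomy i j with hl | hl | hl
      · exact ⟨i, j, hl, h1, h2⟩
      · exact absurd (by rw [hl]) h1
      · exact ⟨j, i, hl, fun h => h1 h.symm, h2.symm⟩
    have key : (!((A i : ℕ) == (A j : ℕ)) && ((B i : ℕ) == (B j : ℕ))) = true := by
      simp only [Bool.and_eq_true, Bool.not_eq_true', beq_eq_false_iff_ne, ne_eq, Fin.val_inj,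
        beq_iff_eq]
      exact hij2
    simp only [kl, toL, List.zip_cons_cons, List.zip_nil_right, List.any_cons, List.any_nil,
      Bool.or_false]
    fin_cases i <;> fin_cases j <;> first
      | (exfalso; revert hij1; decide)
      | (simp only [Fin.mk_zero, Fin.mk_one, Fin.reduceFinMk] at key; rw [key]; simp)
  have h3 : (kl (toL B)).any (fun x => !x) = true := by
    obtain ⟨i, j, hij1, hij2⟩ : ∃ i j, i < j ∧ B i ≠ B j := by
      obtain ⟨i, j, h1⟩ := hC
      rcases lt_trichotomy i j with hl | hl | hl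
      · exact ⟨i, j, hl, h1⟩
      · exact absurd (by rw [hl]) h1
      · exact ⟨j, i, hl, fun h => h1 h.symm⟩
    have key : (!((B i : ℕ) == (B j : ℕ))) = true := by
      simp only [Bool.not_eq_true', beq_eq_false_iff_ne, ne_eq, Fin.val_inj]
      exact hij2
    simp only [kl, toL, List.any_cons, List.any_nil, Bool.or_false]
    fin_cases i <;> fin_cases j <;> first
      | (exfalso; revert hij1; decide)
      | (simp only [Fin.mk_zero, Fin.mk_one, Fin.reduceFinMk] at key; rw [key]; simp)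
  unfold cond
  rw [h1, h2, h3]
  rfl

theorem toL_nf (f : Fin 5 → Fin 5) : ∃ g1 < 2, ∃ g2 < 3, ∃ g3 < 4, ∃ g4 < 5,
    toL (nf f) = [0, g1, g2, g3, g4] := by
  have h0 := nf_le f 0
  have h1 := nf_le f 1
  have h2 := nf_le f 2
  have h3 := nf_le f 3
  have e0 : (nf f 0 : ℕ) = 0 := by
    have : (nf f 0 : ℕ) ≤ 0 := h0
    omega
  refine ⟨(nf f 1 : ℕ), ?_, (nf f 2 : ℕ), ?_, (nf f 3 : ℕ), ?_, (nf f 4 : ℕ), (nf f 4).isLt, ?_⟩
  · have : (nf f 1 : ℕ) ≤ 1 := h1
    omega
  · have : (nf f 2 : ℕ) ≤ 2 := h2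
    omega
  · have : (nf f 3 : ℕ) ≤ 3 := h3
    omega
  · unfold toL
    rw [e0]

theorem toL_length (f : Fin 5 → Fin 5) : (toL f).length = 5 := rfl

theorem cmp_length (l p : List ℕ) : (cmp l p).length = p.length := by simp [cmp]

/-- The combinatorial core. -/
theorem comb (a b : Fin 5 → Fin 5) (hA : ∀ i j, i ≠ j → a i = a j → b i ≠ b j)
    (hB : ∃ i j, a i ≠ a j ∧ b i = b j) (hC : ∃ i j, b i ≠ b j)
    (h4 : ¬ ∃ i4 i0 : Fin 5, i0 ≠ i4 ∧ ∀ i, i ≠ i4 → a i = a i0) :
    ∃ s ∈ ngList, ∃ σ : Equiv.Perm (Fin 5),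
      (∀ i j : Fin 5, a (σ i) = a (σ j) ↔ s.1.getD i 0 = s.1.getD j 0) ∧
      (∀ i j : Fin 5, b (σ i) = b (σ j) ↔ s.2.getD i 0 = s.2.getD j 0) := by
  obtain ⟨g1, h1, g2, h2, g3, h3, g4, h4', hg⟩ := toL_nf a
  have hc1 := check1
  rw [List.all_eq_true] at hc1
  have hc2 := hc1 g1 (List.mem_range.mpr h1)
  rw [List.all_eq_true] at hc2
  have hc3 := hc2 g2 (List.mem_range.mpr h2)
  rw [List.all_eq_true] at hc3
  have hc4 := hc3 g3 (List.mem_range.mpr h3)
  rw [List.all_eq_true] at hc4
  have hc5 := hc4 g4 (List.mem_range.mpr h4')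
  rw [List.any_eq_true] at hc5
  obtain ⟨p, hp, hpk⟩ := hc5
  obtain ⟨hp1, hp2, hp3⟩ := permsL_ok p hp
  rw [← hg, cmp_toL (nf a) hp] at hpk
  have hbij : Function.Bijective (fn p) := Finite.injective_iff_bijective.mp hp3
  simp only [Bool.or_eq_true, beq_iff_eq, List.any_eq_true] at hpk
  rcases hpk with (hk | hk) | ⟨t, ht, hk⟩
  · exfalso
    apply h4
    have := kl_iff (by rfl) hk
    refine ⟨0, 1, by decide, fun i _ => ?_⟩
    obtain ⟨i', rfl⟩ := hbij.2 i
    obtain ⟨j', hj'⟩ := hbij.2 1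
    rw [← hj', ← nf_iff a]
    refine (this i' j').mpr ?_
    fin_cases i' <;> fin_cases j' <;> rfl
  · exfalso
    apply h4
    have := kl_iff (by rfl) hk
    refine ⟨fn p 4, fn p 0, fun he => absurd (hp3 he) (by decide), fun i hi => ?_⟩
    obtain ⟨i', rfl⟩ := hbij.2 i
    rw [← nf_iff a]
    refine (this i' 0).mpr ?_
    fin_cases i'
    · rfl
    · rfl
    · rfl
    · rfl
    · exact absurd rfl hi
  · have htl : t.length = 5 := (by decide : ∀ t ∈ types, t.length = 5) t ht
    obtain ⟨σ1, hσ1⟩ : ∃ σ1 : Equiv.Perm (Fin 5), ∀ i, σ1 i = fn p i :=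
      ⟨Equiv.ofBijective (fn p) hbij, fun i => rfl⟩
    have hfn : fn p = σ1 := (funext hσ1).symm
    rw [hfn] at hk
    obtain ⟨g1, h1, g2, h2, g3, h3, g4, h4', hg'⟩ := toL_nf (b ∘ σ1)
    have hd := check2
    rw [List.all_eq_true] at hd
    have hd0 := hd t ht
    rw [List.all_eq_true] at hd0
    have hd1 := hd0 g1 (List.mem_range.mpr h1)
    rw [List.all_eq_true] at hd1
    have hd2 := hd1 g2 (List.mem_range.mpr h2)
    rw [List.all_eq_true] at hd2
    have hd3 := hd2 g3 (List.mem_range.mpr h3)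
    rw [List.all_eq_true] at hd3
    have hd4 := hd3 g4 (List.mem_range.mpr h4')
    rw [← hg'] at hd4
    have hcond : cond t (toL (nf (b ∘ σ1))) = true := by
      have : cond t (toL (nf (b ∘ σ1))) = cond (toL (nf a ∘ σ1)) (toL (nf (b ∘ σ1))) := by
        unfold cond
        rw [hk]
      rw [this]
      apply cond_of
      · intro i j hij h
        rw [Ne, nf_iff]
        refine hA (σ1 i) (σ1 j) (fun he => hij (σ1.injective he)) ?_
        exact (nf_iff a _ _).mp h
      · obtain ⟨i, j, h1, h2⟩ := hB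
        refine ⟨σ1.symm i, σ1.symm j, ?_, ?_⟩
        · simp only [Function.comp_apply, Equiv.apply_symm_apply]
          rw [Ne, nf_iff]; exact h1
        · rw [nf_iff]; simpa using h2
      · obtain ⟨i, j, h1⟩ := hC
        refine ⟨σ1.symm i, σ1.symm j, ?_⟩
        rw [Ne, nf_iff]; simpa using h1
    rw [hcond, Bool.not_true, Bool.false_or, List.any_eq_true] at hd4
    obtain ⟨p2, hp2', hpk2⟩ := hd4
    obtain ⟨hq1, hq2, hq3⟩ := permsL_ok p2 hp2'
    have hbij2 : Function.Bijective (fn p2) := Finite.injective_iff_bijective.mp hq3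
    simp only [Bool.and_eq_true, beq_iff_eq, List.any_eq_true] at hpk2
    obtain ⟨hk2, s, hs, hs1, hs2⟩ := hpk2
    obtain ⟨σ2, hσ2⟩ : ∃ σ2 : Equiv.Perm (Fin 5), ∀ i, σ2 i = fn p2 i :=
      ⟨Equiv.ofBijective (fn p2) hbij2, fun i => rfl⟩
    have hfn2 : fn p2 = σ2 := (funext hσ2).symm
    have hsl : s.1.length = 5 ∧ s.2.length = 5 :=
      (by decide : ∀ s ∈ ngList, s.1.length = 5 ∧ s.2.length = 5) s hs
    refine ⟨s, hs, σ2.trans σ1, ?_, ?_⟩
    · -- kernel of `a`
      have hta : ∀ i j : Fin 5, (cmp t p2).getD i 0 = (cmp t p2).getD j 0 ↔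
          nf a (σ1 (σ2 i)) = nf a (σ1 (σ2 j)) := by
        have e1 : ∀ i : Fin 5, (cmp t p2).getD i 0 = t.getD (σ2 i) 0 := by
          intro i
          have hi : (i : ℕ) < p2.length := by rw [hq1]; exact i.isLt
          have h5 : p2.getD i 0 = (σ2 i : ℕ) := by
            rw [hσ2]
            exact (Nat.mod_eq_of_lt (hq2 i)).symm
          rw [← h5]
          unfold cmp
          rw [List.getD_eq_getElem _ _ (by rw [List.length_map]; exact hi),
            List.getD_eq_getElem _ _ hi, List.getElem_map]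
        intro i j
        rw [e1, e1]
        exact (kl_iff htl hk (σ2 i) (σ2 j)).symm
      have hcl : (cmp t p2).length = 5 := by rw [cmp_length, hq1]
      intro i j
      have h5 : nf a (σ1 (σ2 i)) = nf a (σ1 (σ2 j)) ↔ s.1.getD i 0 = s.1.getD j 0 := by
        have h6 : kl (toL (fun i => nf a (σ1 (σ2 i)))) = kl s.1 := by
          rw [← hs1]
          apply kl_congr (toL_length _) hcl
          intro i j
          rw [toL_getD, toL_getD, Fin.val_inj]
          exact (hta i j).symm
        exact kl_iff hsl.1 h6 i j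
      rw [← h5, nf_iff]
      rfl
    · intro i j
      rw [cmp_toL _ hp2', hfn2] at hs2
      have h5 := kl_iff hsl.2 hs2 i j
      rw [← h5]
      simp only [Function.comp_apply]
      rw [nf_iff]
      rfl

/-- Two functions with the same kernel differ by a permutation of the values. -/
theorem exists_perm_of_ker (f h : Fin 5 → Fin 5) (hfh : ∀ i j, f i = f j ↔ h i = h j) :
    ∃ τ : Equiv.Perm (Fin 5), ∀ i, τ (f i) = h i := by
  classical
  let e : {x // x ∈ Set.range f} ≃ {x // x ∈ Set.range h} :=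
    Equiv.ofBijective (fun x => ⟨h x.2.choose, Set.mem_range_self _⟩) (by
      constructor
      · rintro ⟨x, hx⟩ ⟨y, hy⟩ hxy
        have h1 : h hx.choose = h hy.choose := congrArg Subtype.val hxy
        have h2 := (hfh _ _).mpr h1
        rw [hx.choose_spec, hy.choose_spec] at h2
        exact Subtype.ext h2
      · rintro ⟨y, i, rfl⟩
        refine ⟨⟨f i, Set.mem_range_self i⟩, ?_⟩
        apply Subtype.ext
        have h1 : f (Set.mem_range_self (f := f) i).choose = f i :=
          (Set.mem_range_self (f := f) i).choose_spec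
        exact (hfh _ _).mp h1)
  refine ⟨e.extendSubtype, fun i => ?_⟩
  rw [Equiv.extendSubtype_apply_of_mem e (f i) (Set.mem_range_self i)]
  have h1 : f (Set.mem_range_self (f := f) i).choose = f i :=
    (Set.mem_range_self (f := f) i).choose_spec
  exact (hfh _ _).mp h1

/-- Let `NGData g q idx`, `idx` not constant, and `w i = q (idx i) + g i`. If `idx i = idx j`, `i ≠ j`, then
`w i ≠ w j` (`gen_inj`). Some `w i` are equal (`NGData.exists_eq`), not all (`NGData.not_all_eq`).
If four values of `idx` are equal, we have the conclusion of `NGcore`: `i4` is the other index, and `i0` with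
`w i4 = w i0` is given by `exists_eq`. Otherwise there are permutations `σ` of the generators and `τ` of the `q` such that
`g ∘ σ`, `q ∘ τ.symm`, `τ ∘ idx ∘ σ` (again `NGData`; `Mem`, `MinGen`, `IsPF` are invariant under permutations) has
one of the structures of the list, so `False`. (The list was found by enumeration of the orbits; for each of
the 5 types of `idx`: `00011`, `00012`, `00112`, `00123`, `01234`, the list has one representative of each orbit of
the partitions of the indices into the classes of equal `w` that satisfy the conditions above. A proof by kernel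
computation, `decide +kernel`, is fine.) -/
theorem NGcore_of (h : ∀ s ∈ ngList, NGFalse s) : NGcore := by
  intro g q idx D hne
  by_cases h4 : ∃ i4 i0 : Fin 5, i0 ≠ i4 ∧ ∀ i, i ≠ i4 → idx i = idx i0
  · obtain ⟨i4, i0, h04, hall⟩ := h4
    obtain ⟨i, j, hij, hw⟩ := D.exists_eq hne
    by_cases hi : i = i4
    · subst hi
      have hj : j ≠ i := fun he => hij (by rw [he])
      exact ⟨j, i, hj, fun k hk => by rw [hall k hk, hall j hj], hij, hw⟩
    · by_cases hj : j = i4
      · subst hj
        exact ⟨i, j, hi, fun k hk => by rw [hall k hk, hall i hi], fun he => hij he.symm, hw.symm⟩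
      · exact absurd (by rw [hall i hi, hall j hj]) hij
  · exfalso
    obtain ⟨W, hW⟩ : ∃ W : Fin 5 → ℤ, ∀ i, W i = q (idx i) + g i := ⟨_, fun i => rfl⟩
    obtain ⟨w, hw⟩ : ∃ w : Fin 5 → Fin 5, ∀ i j, w i = w j ↔ W i = W j := by
      refine ⟨fun i => Function.invFun W (W i), fun i j => ⟨fun he => ?_, fun he => ?_⟩⟩
      · have h1 : W (Function.invFun W (W i)) = W i := Function.invFun_eq ⟨i, rfl⟩
        have h2 : W (Function.invFun W (W j)) = W j := Function.invFun_eq ⟨j, rfl⟩
        have he' : Function.invFun W (W i) = Function.invFun W (W j) := he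
        rw [← h1, he', h2]
      · change Function.invFun W (W i) = Function.invFun W (W j)
        rw [he]
    obtain ⟨s, hs, σ, hs1, hs2⟩ := comb idx w
      (by
        intro i j hij he hwe
        rw [hw, hW, hW, he] at hwe
        have h5 : (g i : ℤ) = g j := by linarith
        exact hij (gen_inj D.min (by exact_mod_cast h5)))
      (by
        obtain ⟨i, j, h5, h6⟩ := D.exists_eq hne
        exact ⟨i, j, h5, by rw [hw, hW, hW]; exact h6⟩)
      (by
        obtain ⟨i, j, h5⟩ := D.not_all_eq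
        exact ⟨i, j, by rw [Ne, hw, hW, hW]; exact h5⟩)
      h4
    have hlt : ∀ i : Fin 5, s.1.getD i 0 < 5 :=
      (by decide : ∀ s ∈ ngList, ∀ i : Fin 5, s.1.getD i 0 < 5) s hs
    obtain ⟨τ, hτ⟩ := exists_perm_of_ker (fun i => idx (σ i)) (fun i => ⟨s.1.getD i 0, hlt i⟩)
      (fun i j => by
        rw [hs1 i j]
        simp only [Fin.mk.injEq])
    refine h s hs (g ∘ σ) (q ∘ τ.symm) (τ ∘ idx ∘ σ) (NGData_perm D σ τ) ?_ ?_
    · intro i
      have := congrArg Fin.val (hτ i)
      exact this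
    · intro i j
      rw [← hs2 i j, hw, hW, hW]
      simp only [Function.comp_apply, Equiv.symm_apply_apply]

end Pool.Agent.NG5c
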