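import Pool.Agent.NG5c.Sound

/-!
# Soundness of the certificate checker: problem clauses
-/

set_option autoImplicit false

namespace Pool.Agent.NG5c

open Finset Pool.Agent.NG5

/-- the value of a class -/
def ec (Q : ℕ → ℤ) (n : ℕ) : ℤ := ∑ d ∈ range 8, (dig n d : ℤ) * Q d

/-- the value of the class of a vector -/
def cl (Q : ℕ → ℤ) (n : ℕ) : ℤ := ∑ d ∈ range 8, (dig n (1280 + d) : ℤ) * Q d

theorem dig_shr (n s k d : ℕ) (hs : s = 16 * k) : dig (n >>> s) d = dig n (k + d) := by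
  subst hs
  rw [Nat.shiftRight_eq_div_pow, dig_div]

theorem ec_shift (Q : ℕ → ℤ) (n : ℕ) : ec Q (n >>> 20480) = cl Q n := by
  unfold ec cl
  refine sum_congr rfl fun d _ => ?_
  rw [dig_shr n 20480 1280 d (by norm_num)]

theorem ec_add {a b n k : ℕ} (Q : ℕ → ℤ) (hn : Bd 8 a n) (hk : Bd 8 b k) (hab : a + b < 2 ^ 16) :
    ec Q (n + k) = ec Q n + ec Q k := by
  unfold ec
  rw [← sum_add_distrib]
  refine sum_congr rfl fun d hd => ?_
  rw [mem_range] at hd
  rw [dig_add_bd hn hk hab hd]; push_cast; ring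

theorem ec_mul {a n : ℕ} (Q : ℕ → ℤ) (hn : Bd 8 a n) (c : ℕ) (hc : c * a < 2 ^ 16) :
    ec Q (c * n) = c * ec Q n := by
  unfold ec
  rw [mul_sum]
  refine sum_congr rfl fun d hd => ?_
  rw [mem_range] at hd
  rw [dig_mul_bd hn c hc d hd]; push_cast; ring

theorem cl_add {a b n k : ℕ} (Q : ℕ → ℤ) (hn : Bd 2048 a n) (hk : Bd 2048 b k) (hab : a + b < 2 ^ 16) :
    cl Q (n + k) = cl Q n + cl Q k := by
  unfold cl
  rw [← sum_add_distrib]
  refine sum_congr rfl fun d hd => ?_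
  rw [mem_range] at hd
  rw [dig_add_bd hn hk hab (by omega)]; push_cast; ring

theorem cl_mul {a n : ℕ} (Q : ℕ → ℤ) (hn : Bd 2048 a n) (c : ℕ) (hc : c * a < 2 ^ 16) :
    cl Q (c * n) = c * cl Q n := by
  unfold cl
  rw [mul_sum]
  refine sum_congr rfl fun d hd => ?_
  rw [mem_range] at hd
  rw [dig_mul_bd hn c hc _ (by omega)]; push_cast; ring

theorem bd_shift {b n : ℕ} (h : Bd 2048 b n) : Bd 8 b (n >>> 20480) := fun d hd => by
  rw [dig_shr n 20480 1280 d (by norm_num)]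
  exact h _ (by omega)

/-- a vector `P - N` of coordinates together with its class -/
structure Vec (g : Fin 5 → ℕ) (x : ℕ → ℕ) (Q : ℕ → ℤ) (b P N : ℕ) : Prop where
  b1 : Bd 2048 b P
  b2 : Bd 2048 b N
  sum : ∑ m : Fin 5, ((ev x m P : ℤ) - ev x m N) * g m = cl Q P - cl Q N

structure RowOK (g : Fin 5 → ℕ) (x : ℕ → ℕ) (Q : ℕ → ℤ) (R : ℕ × ℕ) : Prop where
  vec : Vec g x Q 56 R.1 R.2
  fac : ∃ y : Fin 5 → ℕ, (∀ m : Fin 5, ev x m R.1 = y m) ∧ LexMax g y

structure Ctx (Rw E : ℕ → ℕ × ℕ) (fb Z : ℕ) (g : Fin 5 → ℕ) (x : ℕ → ℕ) (Q : ℕ → ℤ) : Prop where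
  hg : MinGen g
  x0 : x 0 = 1
  hZ : ∀ d < 256, dig Z d = 65535 ∨ x d = 0
  rows : ∀ r, RowOK g x Q (Rw r)
  els : ∀ a, Bd 8 56 (E a).1 ∧ Bd 8 56 (E a).2
  forb : ∀ a < 8, ∀ b < 8, (fb >>> (8 * a + b)) &&& 1 = 1 → ∀ y : Fin 5 → ℕ,
    ((∑ i, y i * g i : ℕ) : ℤ) ≠ (ec Q (E a).1 - ec Q (E a).2) - (ec Q (E b).1 - ec Q (E b).2)

variable {A : ℕ → At} {Rw E : ℕ → ℕ × ℕ} {fb Z : ℕ} {g : Fin 5 → ℕ} {x : ℕ → ℕ} {Q : ℕ → ℤ} {n3 : ℕ}

theorem Vec.zero : Vec g x Q 0 0 0 := by
  refine ⟨bd_zero _, bd_zero _, ?_⟩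
  rw [sub_self]
  apply sum_eq_zero
  intro m _
  rw [sub_self, zero_mul]

theorem Vec.swap {b P N : ℕ} (h : Vec g x Q b P N) : Vec g x Q b N P :=
  ⟨h.b2, h.b1, by
    have := h.sum
    have e : ∑ m : Fin 5, ((ev x m N : ℤ) - ev x m P) * g m =
      - ∑ m : Fin 5, ((ev x m P : ℤ) - ev x m N) * g m := by
      rw [← sum_neg_distrib]; exact sum_congr rfl fun m _ => by ring
    rw [e, this]; ring⟩

theorem Vec.addMul {b c P N P' N' : ℕ} (h : Vec g x Q b P N) (h' : Vec g x Q c P' N') (mu : ℕ)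
    {e : ℕ} (hmu : mu * c ≤ e) (he : b + e < 2 ^ 16) :
    Vec g x Q (b + e) (P + mu * P') (N + mu * N') := by
  have k1 := (h'.b1.mul mu (by omega)).mono hmu
  have k2 := (h'.b2.mul mu (by omega)).mono hmu
  refine ⟨h.b1.add k1 he, h.b2.add k2 he, ?_⟩
  rw [cl_add Q h.b1 k1 he, cl_add Q h.b2 k2 he, cl_mul Q h'.b1 mu (by omega),
    cl_mul Q h'.b2 mu (by omega)]
  have e1 : ∑ m : Fin 5, ((ev x m (P + mu * P') : ℤ) - ev x m (N + mu * N')) * g m =
      ∑ m : Fin 5, ((ev x m P : ℤ) - ev x m N) * g m +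
      mu * ∑ m : Fin 5, ((ev x m P' : ℤ) - ev x m N') * g m := by
    rw [mul_sum, ← sum_add_distrib]
    refine sum_congr rfl fun m _ => ?_
    have hm : (m : ℕ) < 5 := m.2
    rw [ev_add (w := 2048) x m h.b1 k1 he (by omega), ev_add (w := 2048) x m h.b2 k2 he (by omega),
      ev_mul (w := 2048) x m h'.b1 mu (by omega) (by omega),
      ev_mul (w := 2048) x m h'.b2 mu (by omega) (by omega)]
    push_cast; ring
  rw [e1, h.sum, h'.sum]; ring

theorem accRows_sound (hr : ∀ r, RowOK g x Q (Rw r)) (n : ℕ) {i t P N : ℕ}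
    {k : ℕ → ℕ → ℕ → Bool} (hi : i + n ≤ 7) (hv : Vec g x Q (168 * i) P N)
    (h : accRows Rw n t P N k = true) :
    ∃ t' P' N', k t' P' N' = true ∧ Vec g x Q 1176 P' N' := by
  induction n generalizing i t P N with
  | zero => exact ⟨t, P, N, h, ⟨hv.b1.mono (by omega), hv.b2.mono (by omega), hv.sum⟩⟩
  | succ n ih =>
    set r := t &&& 63 with hrdef
    set mu := (t >>> 6) &&& 3 with hmu
    have hmu3 : mu ≤ 3 := Nat.and_le_right
    have h' : Bool.rec (motive := fun _ => Bool)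
        (accRows Rw n (t >>> 12) (P + mu * (Rw r).2) (N + mu * (Rw r).1) k)
        (accRows Rw n (t >>> 12) (P + mu * (Rw r).1) (N + mu * (Rw r).2) k)
        (Nat.beq (Nat.land t 256) 0) = true := h
    rw [brec] at h'
    cases hb : Nat.beq (Nat.land t 256) 0 with
    | false =>
      rw [hb, cond_false] at h'
      have := hv.addMul (hr r).vec.swap mu (e := 168) (by omega) (by omega)
      exact ih (i := i + 1) (by omega) ⟨this.b1.mono (by omega), this.b2.mono (by omega), this.sum⟩ h'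
    | true =>
      rw [hb, cond_true] at h'
      have := hv.addMul (hr r).vec mu (e := 168) (by omega) (by omega)
      exact ih (i := i + 1) (by omega) ⟨this.b1.mono (by omega), this.b2.mono (by omega), this.sum⟩ h'

/-- blocks -/
theorem blk_ev (hZ : ∀ d < 256, dig Z d = 65535 ∨ x d = 0) (P s b : ℕ) (hs : s = 4096 * b) :
    ev x 0 ((P >>> s) &&& Z) = ev x b P := by
  subst hs
  rw [Nat.shiftRight_eq_div_pow]
  exact ev_blk x b P Z hZ

theorem blk_bd {c : ℕ} {P : ℕ} (hP : Bd 2048 c P) (s b : ℕ) (hs : s = 4096 * b) (hb : b < 7) :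
    Bd 256 c ((P >>> s) &&& Z) := by
  subst hs
  rw [Nat.shiftRight_eq_div_pow]
  exact hP.blk b Z (by omega)

theorem bd_one (w : ℕ) : Bd w 1 1 := by
  have := bd_shiftLeft w 1 0 (by norm_num); simpa using this

/-- item for `V_b ≤ -1` -/
theorem item_blk (C : Ctx Rw E fb Z g x Q) {P N s b t m : ℕ} {k : ℕ → ℕ → Bool}
    (hP : Bd 2048 3000 P) (hN : Bd 2048 3000 N) (hs : s = 4096 * b) (hb : b < 7)
    (h : item n3 A (Nat.add (Nat.land (Nat.shiftRight P s) Z) 1) (Nat.land (Nat.shiftRight N s) Z) t m k = true) :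
    ∃ t' m', k t' m' = true ∧ (∀ p, m.testBit p = true → m'.testBit p = true) ∧
      (ev x b P + 1 ≤ ev x b N → Sat n3 A x m') := by
  have h1 : Bd 256 3000 ((P >>> s) &&& Z) := blk_bd hP s b hs hb
  have h2 : Bd 256 3000 ((N >>> s) &&& Z) := blk_bd hN s b hs hb
  obtain ⟨t', m', e1, e2, e3⟩ := item_sound C.x0
    ((h1.add (bd_one 256) (by norm_num)).mono (by norm_num)) (h2.mono (by norm_num)) h
  refine ⟨t', m', e1, e2, fun hle => e3 ?_⟩
  have e4 : ev x 0 (((P >>> s) &&& Z) + 1) = ev x b P + 1 := by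
    rw [ev_add (w := 256) x 0 h1 (bd_one 256) (by norm_num) (by norm_num), ev_one x C.x0,
      blk_ev C.hZ P s b hs]
  have e5 : ev x 0 ((N >>> s) &&& Z) = ev x b N := blk_ev C.hZ N s b hs
  exact (e4.le.trans hle).trans e5.ge

/-- item for `V_b ≤ 0` -/
theorem item_blk' (C : Ctx Rw E fb Z g x Q) {P N s b t m : ℕ} {k : ℕ → ℕ → Bool}
    (hP : Bd 2048 3000 P) (hN : Bd 2048 3000 N) (hs : s = 4096 * b) (hb : b < 7)
    (h : item n3 A (Nat.land (Nat.shiftRight P s) Z) (Nat.land (Nat.shiftRight N s) Z) t m k = true) :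
    ∃ t' m', k t' m' = true ∧ (∀ p, m.testBit p = true → m'.testBit p = true) ∧
      (ev x b P ≤ ev x b N → Sat n3 A x m') := by
  have h1 : Bd 256 3000 ((P >>> s) &&& Z) := blk_bd hP s b hs hb
  have h2 : Bd 256 3000 ((N >>> s) &&& Z) := blk_bd hN s b hs hb
  obtain ⟨t', m', e1, e2, e3⟩ := item_sound C.x0
    (h1.mono (by norm_num)) (h2.mono (by norm_num)) h
  refine ⟨t', m', e1, e2, fun hle => e3 ?_⟩
  have e4 : ev x 0 ((P >>> s) &&& Z) = ev x b P := blk_ev C.hZ P s b hs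
  have e5 : ev x 0 ((N >>> s) &&& Z) = ev x b N := blk_ev C.hZ N s b hs
  exact (e4.le.trans hle).trans e5.ge

theorem items5_sound (C : Ctx Rw E fb Z g x Q) {P N t m : ℕ} {k : ℕ → ℕ → Bool}
    (hP : Bd 2048 3000 P) (hN : Bd 2048 3000 N) (h : items5 n3 A Z P N t m k = true) :
    ∃ t' m', k t' m' = true ∧ (∀ p, m.testBit p = true → m'.testBit p = true) ∧
      (∀ b : Fin 5, ev x b P + 1 ≤ ev x b N → Sat n3 A x m') := by
  unfold items5 at h
  obtain ⟨t0, m0, h0, i0, s0⟩ := item_blk (s := 0) (b := 0) C hP hN rfl (by norm_num) h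
  obtain ⟨t1, m1, h1, i1, s1⟩ := item_blk (s := 4096) (b := 1) C hP hN rfl (by norm_num) h0
  obtain ⟨t2, m2, h2, i2, s2⟩ := item_blk (s := 8192) (b := 2) C hP hN rfl (by norm_num) h1
  obtain ⟨t3, m3, h3, i3, s3⟩ := item_blk (s := 12288) (b := 3) C hP hN rfl (by norm_num) h2
  obtain ⟨t4, m4, h4, i4, s4⟩ := item_blk (s := 16384) (b := 4) C hP hN rfl (by norm_num) h3
  refine ⟨t4, m4, h4, fun p hp => i4 p (i3 p (i2 p (i1 p (i0 p hp)))), fun b hb => ?_⟩
  fin_cases b
  · exact (s0 hb).mono fun p hp => i4 p (i3 p (i2 p (i1 p hp)))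
  · exact (s1 hb).mono fun p hp => i4 p (i3 p (i2 p hp))
  · exact (s2 hb).mono fun p hp => i4 p (i3 p hp)
  · exact (s3 hb).mono fun p hp => i4 p hp
  · exact s4 hb

/-- natural number coordinates from nonnegative ones -/
theorem exists_nat (a : Fin 5 → ℤ) (ha : ∀ i, 0 ≤ a i) : ∃ y : Fin 5 → ℕ, ∀ i, (y i : ℤ) = a i :=
  ⟨fun i => (a i).toNat, fun i => Int.toNat_of_nonneg (ha i)⟩

theorem cast_sum (y : Fin 5 → ℕ) (g : Fin 5 → ℕ) :
    ((∑ i, y i * g i : ℕ) : ℤ) = ∑ i, (y i : ℤ) * g i := by push_cast; rfl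

theorem ruleC_sound (C : Ctx Rw E fb Z g x Q) {r : ℕ} {k : ℕ → Bool}
    (h : ruleC n3 A Rw E fb Z r k = true) : ∃ m, Sat n3 A x m ∧ k m = true := by
  unfold ruleC at h
  have hn : Nat.land r 7 ≤ 7 := Nat.and_le_right
  obtain ⟨t, P, N, h, hv⟩ := accRows_sound C.rows (Nat.land r 7) (i := 0) (by omega)
    (by simpa using Vec.zero) h
  beta_reduce at h
  set a := Nat.land (Nat.shiftRight r 3) 7 with ha
  set b := Nat.land (Nat.shiftRight r 6) 7 with hb
  have ha8 : a < 8 := lt_of_le_of_lt (Nat.and_le_right (n := Nat.shiftRight r 3) (m := 7)) (by norm_num)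
  have hb8 : b < 8 := lt_of_le_of_lt (Nat.and_le_right (n := Nat.shiftRight r 6) (m := 7)) (by norm_num)
  rw [chk_eq_true, chk_eq_true] at h
  obtain ⟨hf, hc, h⟩ := h
  have hf' : (fb >>> (8 * a + b)) &&& 1 = 1 := beq_iff.1 hf
  have hc' : (P >>> 20480) + ((E a).2 + (E b).1) = (N >>> 20480) + ((E a).1 + (E b).2) := beq_iff.1 hc
  obtain ⟨t', m, hk, -, hs⟩ := items5_sound C (hv.b1.mono (by norm_num)) (hv.b2.mono (by norm_num)) h
  refine ⟨m, ?_, hk⟩
  by_contra hS
  have hge : ∀ i : Fin 5, (0 : ℤ) ≤ (ev x i P : ℤ) - ev x i N := fun i => by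
    by_contra hlt; exact hS (hs i (by omega))
  obtain ⟨y, hy⟩ := exists_nat _ hge
  apply C.forb a ha8 b hb8 hf' y
  rw [cast_sum]
  have e1 : ∑ i, (y i : ℤ) * g i = ∑ m : Fin 5, ((ev x m P : ℤ) - ev x m N) * g m :=
    sum_congr rfl fun i _ => by rw [hy]
  rw [e1, hv.sum, ← ec_shift, ← ec_shift]
  have k1 := ec_add Q (bd_shift hv.b1) ((C.els a).2.add (C.els b).1 (by norm_num)) (by norm_num)
  have k2 := ec_add Q (bd_shift hv.b2) ((C.els a).1.add (C.els b).2 (by norm_num)) (by norm_num)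
  rw [ec_add Q (C.els a).2 (C.els b).1 (by norm_num)] at k1
  rw [ec_add Q (C.els a).1 (C.els b).2 (by norm_num)] at k2
  rw [hc', k2] at k1
  linarith

theorem ruleZ_sound (C : Ctx Rw E fb Z g x Q) {r : ℕ} {k : ℕ → Bool}
    (h : ruleZ n3 A Rw Z r k = true) : ∃ m, Sat n3 A x m ∧ k m = true := by
  unfold ruleZ at h
  beta_reduce at h
  have hn : Nat.land r 7 ≤ 7 := Nat.and_le_right
  generalize Nat.land (Nat.shiftRight r 3) 7 = l at h
  generalize Nat.land (Nat.shiftRight r 6) 7 = j at h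
  obtain ⟨t, P, N, h, hv⟩ := accRows_sound C.rows (Nat.land r 7) (i := 0) (by omega)
    (by simpa using Vec.zero) h
  rw [chk_eq_true, chk_eq_true, chk_eq_true] at h
  obtain ⟨hl4, hj4, hc, h⟩ := h
  rw [Nat.ble_eq] at hl4 hj4
  obtain ⟨L, hL⟩ : ∃ L : Fin 5, (L : ℕ) = l := ⟨⟨l, by omega⟩, rfl⟩
  have hc' : P >>> 20480 = N >>> 20480 := beq_iff.1 hc
  have hsh : Bd 2048 1 (1 <<< (4096 * l)) := by
    have e : 4096 * l = 16 * (256 * l) := by ring
    rw [e]; exact bd_shiftLeft _ _ _ (by norm_num)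
  have hP1 : Bd 2048 1177 (P + 1 <<< (4096 * l)) := hv.b1.add hsh (by norm_num)
  have hPe : Nat.add P (Nat.shiftLeft 1 (Nat.mul 4096 l)) = P + 1 <<< (4096 * l) := rfl
  rw [hPe] at h
  obtain ⟨t', m, hk, -, hs⟩ := items5_sound C (hP1.mono (by norm_num)) (hv.b2.mono (by norm_num)) h
  rw [brec] at hk
  -- the value of the shifted vector
  have hev : ∀ i : Fin 5, ev x i (P + 1 <<< (4096 * l)) = ev x i P + if (i : ℕ) = l then 1 else 0 := by
    intro i
    have hi : (i : ℕ) < 5 := i.2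
    have e2 : ev x i (1 <<< (4096 * l)) = if (i : ℕ) = l then 1 else 0 := by
      have e : 4096 * l = 16 * (256 * l) := by ring
      rw [e, ev_single x i 1 (256 * l) (by norm_num)]
      by_cases hil : (i : ℕ) = l
      · rw [if_pos (by omega), if_pos hil, hil]; simp [C.x0]
      · rw [if_neg (by omega), if_neg hil]
    rw [ev_add (w := 2048) x i hv.b1 hsh (by norm_num) (by omega), e2]
  -- if no literal is true then `V = 0`
  have hV : ¬ Sat n3 A x m → ∀ i : Fin 5, ev x i P = ev x i N := by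
    intro hS
    have hge : ∀ i : Fin 5, (0 : ℤ) ≤ (ev x i (P + 1 <<< (4096 * l)) : ℤ) - ev x i N := fun i => by
      by_contra hlt; exact hS (hs i (by omega))
    obtain ⟨y, hy⟩ := exists_nat _ hge
    have hsum : ((∑ i, y i * g i : ℕ) : ℤ) = g L := by
      rw [cast_sum]
      have e1 : ∑ i : Fin 5, (y i : ℤ) * g i = ∑ m : Fin 5, ((ev x m P : ℤ) - ev x m N) * g m +
          ∑ m : Fin 5, (if (m : ℕ) = l then (g m : ℤ) else 0) := by
        rw [← sum_add_distrib]
        refine sum_congr rfl fun i _ => ?_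
        rw [hy, hev]
        split <;> push_cast <;> ring
      rw [e1, hv.sum, ← ec_shift, ← ec_shift, hc', sub_self, zero_add]
      rw [sum_eq_single L]
      · rw [if_pos hL]
      · intro b _ hb
        rw [if_neg]
        intro h; exact hb (Fin.ext (h.trans hL.symm))
      · intro h; exact absurd (mem_univ _) h
    have hy' := C.hg L y (by exact_mod_cast hsum)
    intro i
    have h1 := hy i
    rw [hev, hy'] at h1
    by_cases hil : (i : ℕ) = l
    · have hiL : i = L := Fin.ext (hil.trans hL.symm)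
      rw [if_pos hil, hiL, Pi.single_eq_same] at h1
      rw [hiL]
      push_cast at h1
      omega
    · rw [if_neg hil, Pi.single_eq_of_ne (fun h => hil (by rw [h, hL]))] at h1
      push_cast at h1
      omega
  have hP3 : Bd 2048 3000 P := hv.b1.mono (by norm_num)
  have hN3 : Bd 2048 3000 N := hv.b2.mono (by norm_num)
  cases hb : Nat.beq (Nat.land (Nat.shiftRight r 9) 1) 0 with
  | false =>
    rw [hb, cond_false] at hk
    obtain ⟨t2, m2, hk2, i2, s2⟩ := item_blk' (s := 4096 * j) (b := j) C hN3 hP3 rfl (by omega) hk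
    refine ⟨m2, ?_, hk2⟩
    by_contra hS
    have hS' : ¬ Sat n3 A x m := fun h => hS (h.mono i2)
    exact hS (s2 (hV hS' ⟨j, by omega⟩).ge)
  | true =>
    rw [hb, cond_true] at hk
    obtain ⟨t2, m2, hk2, i2, s2⟩ := item_blk' (s := 4096 * j) (b := j) C hP3 hN3 rfl (by omega) hk
    refine ⟨m2, ?_, hk2⟩
    by_contra hS
    have hS' : ¬ Sat n3 A x m := fun h => hS (h.mono i2)
    exact hS (s2 (hV hS' ⟨j, by omega⟩).le)

theorem ruleX_items (C : Ctx Rw E fb Z g x Q) {P N : ℕ}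
    (hP : Bd 2048 3000 P) (hN : Bd 2048 3000 N) (j : ℕ) {b t m : ℕ} {k : ℕ → Bool} (hb : b + j < 7)
    (h : itemsX n3 A Z j (P >>> (4096 * b)) (N >>> (4096 * b)) t m k = true) :
    ∃ m', k m' = true ∧ (∀ p, m.testBit p = true → m'.testBit p = true) ∧
      ((∃ c, b ≤ c ∧ c < b + j ∧ ev x c P + 1 ≤ ev x c N) ∨ ev x (b + j) P ≤ ev x (b + j) N →
        Sat n3 A x m') := by
  induction j generalizing b t m with
  | zero =>
    have h0 : item n3 A (Nat.land (Nat.shiftRight P (4096 * b)) Z)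
      (Nat.land (Nat.shiftRight N (4096 * b)) Z) t m (fun _ m => k m) = true := h
    obtain ⟨t', m', e1, e2, e3⟩ := item_blk' (s := 4096 * b) (b := b) C hP hN rfl (by omega) h0
    refine ⟨m', e1, e2, fun hs => e3 ?_⟩
    rcases hs with ⟨c, h1, h2, -⟩ | hs
    · omega
    · simpa using hs
  | succ j ih =>
    have h0 : item n3 A (Nat.add (Nat.land (Nat.shiftRight P (4096 * b)) Z) 1)
      (Nat.land (Nat.shiftRight N (4096 * b)) Z) t m (fun t m => itemsX n3 A Z j
      (Nat.shiftRight (P >>> (4096 * b)) 4096) (Nat.shiftRight (N >>> (4096 * b)) 4096) t m k) = true := h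
    obtain ⟨t', m', e1, e2, e3⟩ := item_blk (s := 4096 * b) (b := b) C hP hN rfl (by omega) h0
    have eP : Nat.shiftRight (P >>> (4096 * b)) 4096 = P >>> (4096 * (b + 1)) := by
      show (P >>> (4096 * b)) >>> 4096 = _
      rw [← Nat.shiftRight_add, mul_add, mul_one]
    have eN : Nat.shiftRight (N >>> (4096 * b)) 4096 = N >>> (4096 * (b + 1)) := by
      show (N >>> (4096 * b)) >>> 4096 = _
      rw [← Nat.shiftRight_add, mul_add, mul_one]
    rw [eP, eN] at e1
    obtain ⟨m2, f1, f2, f3⟩ := ih (b := b + 1) (by omega) e1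
    refine ⟨m2, f1, fun p hp => f2 p (e2 p hp), fun hs => ?_⟩
    rcases hs with ⟨c, h1, h2, h3⟩ | hs
    · rcases eq_or_lt_of_le h1 with rfl | h1
      · exact (e3 h3).mono f2
      · exact f3 (Or.inl ⟨c, by omega, by omega, h3⟩)
    · exact f3 (Or.inr (by rw [show b + 1 + j = b + (j + 1) by ring]; exact hs))

theorem ruleX_sound (C : Ctx Rw E fb Z g x Q) {r : ℕ} {k : ℕ → Bool}
    (h : ruleX n3 A Rw Z r k = true) : ∃ m, Sat n3 A x m ∧ k m = true := by
  unfold ruleX at h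
  have hn : Nat.land r 7 ≤ 7 := Nat.and_le_right
  generalize Nat.land (Nat.shiftRight r 3) 7 = j at h
  generalize Nat.land (Nat.shiftRight r 6) 63 = q at h
  obtain ⟨t, P, N, h, hv⟩ := accRows_sound C.rows (Nat.land r 7) (i := 0) (by omega)
    (by simpa using Vec.zero) h
  rw [chk_eq_true, chk_eq_true] at h
  obtain ⟨hj4, hc, h⟩ := h
  rw [Nat.ble_eq] at hj4
  have hc' : P >>> 20480 = N >>> 20480 := beq_iff.1 hc
  have hR := C.rows q
  obtain ⟨y, hy, hlex⟩ := hR.fac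
  have hP1 : Bd 2048 1232 (P + (Rw q).1) := hv.b1.add hR.vec.b1 (by norm_num)
  have hPe : Nat.add P (Rw q).1 = P + (Rw q).1 := rfl
  rw [hPe] at h
  obtain ⟨t', m, hk, -, hs⟩ := items5_sound C (hP1.mono (by norm_num)) (hv.b2.mono (by norm_num)) h
  obtain ⟨m2, f1, f2, f3⟩ := ruleX_items C (hv.b1.mono (by norm_num)) (hv.b2.mono (by norm_num)) j
    (b := 0) (by omega) hk
  refine ⟨m2, ?_, f1⟩
  by_contra hS
  have hS' : ¬ Sat n3 A x m := fun h => hS (h.mono f2)
  have hev : ∀ i : Fin 5, ev x i (P + (Rw q).1) = ev x i P + y i := by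
    intro i
    have hi : (i : ℕ) < 5 := i.2
    rw [ev_add (w := 2048) x i hv.b1 hR.vec.b1 (by norm_num) (by omega), hy]
  have hge : ∀ i : Fin 5, (0 : ℤ) ≤ (ev x i P : ℤ) + y i - ev x i N := fun i => by
    by_contra hlt
    refine hS' (hs i ?_)
    rw [hev]; omega
  obtain ⟨y', hy'⟩ := exists_nat _ hge
  have hsum : ∑ i, y' i * g i = ∑ i, y i * g i := by
    have e0 : ((∑ i, y' i * g i : ℕ) : ℤ) = ((∑ i, y i * g i : ℕ) : ℤ) := by
      rw [cast_sum, cast_sum]
      have e1 : ∑ i : Fin 5, (y' i : ℤ) * g i = ∑ m : Fin 5, ((ev x m P : ℤ) - ev x m N) * g m +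
          ∑ i : Fin 5, (y i : ℤ) * g i := by
        rw [← sum_add_distrib]
        refine sum_congr rfl fun i _ => ?_
        rw [hy']; ring
      rw [e1, hv.sum, ← ec_shift, ← ec_shift, hc', sub_self, zero_add]
    exact_mod_cast e0
  refine hlex y' hsum ⟨j, by omega⟩ (fun t ht => ?_) ?_
  · by_contra hlt
    have h1 := hy' t
    have ht' : (t : ℕ) < j := ht
    exact hS (f3 (Or.inl ⟨t, by omega, by omega, by omega⟩))
  · by_contra hlt
    have h1 := hy' ⟨j, by omega⟩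
    refine hS (f3 (Or.inr ?_))
    have : ((⟨j, by omega⟩ : Fin 5) : ℕ) = j := rfl
    rw [this] at h1
    rw [zero_add]
    omega

theorem ruleT_sound (C : Ctx Rw E fb Z g x Q) {r : ℕ} {k : ℕ → Bool}
    (h : ruleT n3 A Rw E fb Z r k = true) : ∃ m, Sat n3 A x m ∧ k m = true := by
  unfold ruleT at h
  have hn : Nat.land r 7 ≤ 7 := Nat.and_le_right
  obtain ⟨t, P, N, h, hv⟩ := accRows_sound C.rows (Nat.land r 7) (i := 0) (by omega)
    (by simpa using Vec.zero) h
  beta_reduce at h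
  set a := Nat.land (Nat.shiftRight r 3) 7 with ha
  set b := Nat.land (Nat.shiftRight r 6) 7 with hb
  have ha8 : a < 8 := lt_of_le_of_lt (Nat.and_le_right (n := Nat.shiftRight r 3) (m := 7)) (by norm_num)
  have hb8 : b < 8 := lt_of_le_of_lt (Nat.and_le_right (n := Nat.shiftRight r 6) (m := 7)) (by norm_num)
  rw [chk_eq_true, chk_eq_true] at h
  obtain ⟨hf, hc, h⟩ := h
  have hf' : (fb >>> (8 * a + b)) &&& 1 = 1 := beq_iff.1 hf
  have hc' : (P >>> 20480) + 2 * ((E a).2 + (E b).1) = (N >>> 20480) + 2 * ((E a).1 + (E b).2) := beq_iff.1 hc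
  -- the coordinates `u`
  have key : ∀ u : Fin 5 → ℕ, (∀ i, u i ≤ 15) → ∀ U : ℕ,
      U = 2 * (u 0 + ((u 1) <<< 4096 + ((u 2) <<< 8192 + ((u 3) <<< 12288 + (u 4) <<< 16384)))) →
      items5 n3 A Z P (N + U) t 0 (fun t m => items5 n3 A Z (N + U) P t m (fun _ m => k m)) = true →
      ∃ m, Sat n3 A x m ∧ k m = true := by
    intro u hu U hU h
    have b0 : Bd 2048 15 (u 0) := by
      have := (bd_shiftLeft 2048 (u 0) 0 (by have := hu 0; omega)).mono (hu 0); simpa using this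
    have b1 : Bd 2048 15 ((u 1) <<< 4096) :=
      (bd_shiftLeft 2048 (u 1) 256 (by have := hu 1; omega)).mono (hu 1)
    have b2 : Bd 2048 15 ((u 2) <<< 8192) :=
      (bd_shiftLeft 2048 (u 2) 512 (by have := hu 2; omega)).mono (hu 2)
    have b3 : Bd 2048 15 ((u 3) <<< 12288) :=
      (bd_shiftLeft 2048 (u 3) 768 (by have := hu 3; omega)).mono (hu 3)
    have b4 : Bd 2048 15 ((u 4) <<< 16384) :=
      (bd_shiftLeft 2048 (u 4) 1024 (by have := hu 4; omega)).mono (hu 4)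
    have c3 := b3.add b4 (by norm_num)
    have c2 := b2.add c3 (by norm_num)
    have c1 := b1.add c2 (by norm_num)
    have c0 := b0.add c1 (by norm_num)
    have cU := c0.mul 2 (by norm_num)
    rw [← hU] at cU
    have evU : ∀ i : Fin 5, ev x i U = 2 * u i := by
      intro i
      have hi : (i : ℕ) < 5 := i.2
      have d0 : ∀ m, ev x m (u 0) = if m = 0 then u 0 else 0 := fun m => by
        have := ev_single x m (u 0) 0 (by have := hu 0; omega)
        rw [mul_zero, Nat.shiftLeft_zero] at this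
        rw [this]
        by_cases hm : m = 0
        · rw [if_pos (by omega), if_pos hm, hm]; simp [C.x0]
        · rw [if_neg (by omega), if_neg hm]
      have d : ∀ (c : ℕ) (m b s : ℕ), s = 16 * (256 * b) → c ≤ 15 →
          ev x m (c <<< s) = if m = b then c else 0 := fun c m b s hs hc => by
        subst hs
        rw [ev_single x m c (256 * b) (by omega)]
        by_cases hm : m = b
        · rw [if_pos (by omega), if_pos hm, hm]; simp [C.x0]
        · rw [if_neg (by omega), if_neg hm]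
      rw [hU, ev_mul (w := 2048) x i c0 2 (by norm_num) (by omega),
        ev_add (w := 2048) x i b0 c1 (by norm_num) (by omega),
        ev_add (w := 2048) x i b1 c2 (by norm_num) (by omega),
        ev_add (w := 2048) x i b2 c3 (by norm_num) (by omega),
        ev_add (w := 2048) x i b3 b4 (by norm_num) (by omega),
        d0, d (u 1) i 1 4096 (by norm_num) (hu 1), d (u 2) i 2 8192 (by norm_num) (hu 2),
        d (u 3) i 3 12288 (by norm_num) (hu 3), d (u 4) i 4 16384 (by norm_num) (hu 4)]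
      fin_cases i <;> simp
    have hNU : Bd 2048 1326 (N + U) := hv.b2.add cU (by norm_num)
    have evNU : ∀ i : Fin 5, ev x i (N + U) = ev x i N + 2 * u i := fun i => by
      have hi : (i : ℕ) < 5 := i.2
      rw [ev_add (w := 2048) x i hv.b2 cU (by norm_num) (by omega), evU]
    obtain ⟨t1, m1, h1, -, s1⟩ := items5_sound C (hv.b1.mono (by norm_num)) (hNU.mono (by norm_num)) h
    obtain ⟨t2, m2, h2, i2, s2⟩ := items5_sound C (hNU.mono (by norm_num)) (hv.b1.mono (by norm_num)) h1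
    refine ⟨m2, ?_, h2⟩
    by_contra hS
    have hS' : ¬ Sat n3 A x m1 := fun h => hS (h.mono i2)
    have hV : ∀ i : Fin 5, (ev x i P : ℤ) - ev x i N = 2 * u i := by
      intro i
      have g1 : ¬ (ev x i P + 1 ≤ ev x i (N + U)) := fun h => hS' (s1 i h)
      have g2 : ¬ (ev x i (N + U) + 1 ≤ ev x i P) := fun h => hS (s2 i h)
      rw [evNU] at g1 g2
      omega
    apply C.forb a ha8 b hb8 hf' u
    have e1 : 2 * ∑ i, (u i : ℤ) * g i = ∑ m : Fin 5, ((ev x m P : ℤ) - ev x m N) * g m := by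
      rw [mul_sum]
      exact sum_congr rfl fun i _ => by rw [hV]; ring
    rw [hv.sum, ← ec_shift, ← ec_shift] at e1
    rw [cast_sum]
    have w1 := (C.els a).2.add (C.els b).1 (by norm_num)
    have w2 := (C.els a).1.add (C.els b).2 (by norm_num)
    have k1 := ec_add Q (bd_shift hv.b1) (w1.mul 2 (by norm_num)) (by norm_num)
    have k2 := ec_add Q (bd_shift hv.b2) (w2.mul 2 (by norm_num)) (by norm_num)
    rw [ec_mul Q w1 2 (by norm_num), ec_add Q (C.els a).2 (C.els b).1 (by norm_num)] at k1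
    rw [ec_mul Q w2 2 (by norm_num), ec_add Q (C.els a).1 (C.els b).2 (by norm_num)] at k2
    rw [hc', k2] at k1
    push_cast at k1
    linarith
  exact key ![Nat.land (Nat.shiftRight r 12) 15, Nat.land (Nat.shiftRight r 16) 15,
    Nat.land (Nat.shiftRight r 20) 15, Nat.land (Nat.shiftRight r 24) 15,
    Nat.land (Nat.shiftRight r 28) 15] (fun i => by fin_cases i <;> exact Nat.and_le_right) _ rfl h

end Pool.Agent.NG5c
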