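import Pool.Agent.NG5c.ASModel

/-!
# The model of the case `4+1`  (task T10)

We may assume `i0 = 0`, `i4 = 4` (permutation of the generators). `δ = P - P' = g 4 - g 0`.
Rows `r = 5 * e + i < 20`: the lexicographically largest factorization `y` of `e + g i`, where the elements `e` are
`f, P - f, h, P - h`; the row is `y - e_i`, its class is `e`. For `i = 0` also `y 4 = 0`, as
`e + g 0 - g 4 = e - δ = P' - (P - e)` is no member by `pf_diff`.
Rows `r = 19 + i`, `i = 1, 2, 3`: the largest factorization `y` of `δ + g i`; the row is `y - e_i`, its class is `δ`.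
`y i = 0` as `δ = P - P'` is no member, `y 4 = 0` as `δ + g i - g 4 = g i - g 0` is no member.
Row `23`: `e_4 - e_0`, class `δ`. Row `24`: `e_4`, class `γ = g 4`. Rows 25 to 31: zero.
Class digits: `0` is `P`, `1` is `δ`, `2` is `f`, `3` is `h`, `4` is `γ`.
Elements: `0, P, P' = P - δ, f, P - f, h, P - h, δ + γ`; `δ + γ` is no member.
-/

set_option autoImplicit false

namespace Pool.Agent.NG5c

open Finset Pool.Agent.NG5

def s4P (r : ℕ) : List (ℕ × ℕ) :=
  if r < 20 then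
    (((List.range 5).filter (fun m => m ≠ r % 5 ∧ ¬ (r % 5 = 0 ∧ m = 4))).map fun m =>
      (256 * m + asVar (r / 5) (r % 5) m, 1)) ++ [(1280 + (if r / 5 % 2 = 0 then 2 + r / 10 else 0), 1)]
  else if r < 23 then
    (((List.range 5).filter (fun m => m ≠ r - 19 ∧ m ≠ 4)).map fun m =>
      (256 * m + asVar 4 (r - 19) m, 1)) ++ [(1281, 1)]
  else if r = 23 then [(1024, 1), (1281, 1)]
  else if r = 24 then [(1024, 1), (1284, 1)]
  else []

def s4N (r : ℕ) : List (ℕ × ℕ) :=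
  if r < 20 then (256 * (r % 5), 1) :: (if r / 5 % 2 = 0 then [] else [(1282 + r / 10, 1)])
  else if r < 23 then [(256 * (r - 19), 1)]
  else if r = 23 then [(0, 1)]
  else []

theorem rwS41_eq : ∀ r < 32, rwS41 r = (num (s4P r), num (s4N r)) := by decide +kernel

def s4EP (a : ℕ) : List (ℕ × ℕ) :=
  [[], [(0, 1)], [(0, 1)], [(2, 1)], [(0, 1)], [(3, 1)], [(0, 1)], [(1, 1), (4, 1)]].getD a []

def s4EN (a : ℕ) : List (ℕ × ℕ) := [[], [], [(1, 1)], [], [(2, 1)], [], [(3, 1)], []].getD a []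

theorem eS41_eq : ∀ a < 8, eS41 a = (num (s4EP a), num (s4EN a)) := by decide +kernel

/-! ### Auxiliary facts -/

theorem s4_sel5_mod {α : Type} (t : T5 α) (r : ℕ) : sel5 t r = sel5 t (r % 32) := by
  have h : ∀ k : ℕ, k &&& 31 = k → Nat.land (r % 32) k = Nat.land r k := by
    intro k hk
    show (r % 32) &&& k = r &&& k
    have e : r % 32 = r &&& 31 := (Nat.and_two_pow_sub_one_eq_mod r 5).symm
    rw [e, Nat.and_assoc, Nat.and_comm 31 k, hk]
  simp only [sel5, sel4, sel3, sel2, sel1]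
  rw [h 1 (by decide), h 2 (by decide), h 4 (by decide), h 8 (by decide), h 16 (by decide)]

theorem s4_sel3_mod {α : Type} (t : T3 α) (r : ℕ) : sel3 t r = sel3 t (r % 8) := by
  have h : ∀ k : ℕ, k &&& 7 = k → Nat.land (r % 8) k = Nat.land r k := by
    intro k hk
    show (r % 8) &&& k = r &&& k
    have e : r % 8 = r &&& 7 := (Nat.and_two_pow_sub_one_eq_mod r 3).symm
    rw [e, Nat.and_assoc, Nat.and_comm 7 k, hk]
  simp only [sel3, sel2, sel1]
  rw [h 1 (by decide), h 2 (by decide), h 4 (by decide)]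

theorem s4_small : ∀ r < 32, (∀ q ∈ s4P r, q.2 ≤ 7) ∧ (s4P r).length ≤ 8 ∧
    (∀ q ∈ s4N r, q.2 ≤ 7) ∧ (s4N r).length ≤ 8 := by decide +kernel

theorem s4_esmall : ∀ r < 8, (∀ q ∈ s4EP r, q.2 ≤ 7) ∧ (s4EP r).length ≤ 8 ∧
    (∀ q ∈ s4EN r, q.2 ≤ 7) ∧ (s4EN r).length ≤ 8 := by decide +kernel

theorem s4_zAll : ∀ d < 256, dig zAll d = 65535 := by
  have h : ∀ d < 256, Nat.beq (Nat.mod (Nat.div zAll (Nat.pow 2 (Nat.mul 16 d))) 65536) 65535 = true := by
    decide +kernel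
  intro d hd
  exact beq_iff.1 (h d hd)

theorem s4_fb0 : ∀ a < 8, ∀ b < 8, (fbS41 >>> (8 * a + b)) &&& 1 = 1 →
    ((decide (b = 0) && decide (1 ≤ a)) || (decide (a = 0) && decide (1 ≤ b) && decide (b ≤ 6)) ||
    (decide (1 ≤ a) && decide (a ≤ 6) && decide (1 ≤ b) && decide (b ≤ 6) && decide (a ≠ b) &&
      !(decide (a = 5) && decide (b = 6)) && !(decide (a = 6) && decide (b = 5)))) = true := by
  decide +kernel

theorem s4_fb (a b : ℕ) (ha : a < 8) (hb : b < 8) (h : (fbS41 >>> (8 * a + b)) &&& 1 = 1) :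
    (b = 0 ∧ 1 ≤ a) ∨ (a = 0 ∧ 1 ≤ b ∧ b ≤ 6) ∨
    (1 ≤ a ∧ a ≤ 6 ∧ 1 ≤ b ∧ b ≤ 6 ∧ a ≠ b ∧ ¬ (a = 5 ∧ b = 6) ∧ ¬ (a = 6 ∧ b = 5)) := by
  have h1 := s4_fb0 a ha b hb h
  simp only [Bool.or_eq_true, Bool.and_eq_true, decide_eq_true_eq, Bool.not_eq_true',
    Bool.and_eq_false_iff, decide_eq_false_iff_not] at h1
  omega

theorem s4_evL_filter (x v : ℕ → ℕ) (hv : ∀ m < 5, v m < 256) (p : ℕ → Bool) (m : ℕ)
    (l : List (ℕ × ℕ)) (hl : ∀ q ∈ l, 1280 ≤ q.1) (hm : m < 5) :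
    evL x m ((((List.range 5).filter p).map fun k => (256 * k + v k, 1)) ++ l) =
      if p m then x (v m) else 0 := by
  have h0 : (l.map fun q => if 256 * m ≤ q.1 ∧ q.1 < 256 * m + 256 then
      q.2 * x (q.1 - 256 * m) else 0).sum = 0 := by
    apply List.sum_eq_zero
    intro a ha
    obtain ⟨q, hq, rfl⟩ := List.mem_map.mp ha
    have := hl q hq
    rw [if_neg (by omega)]
  have h1 : ∀ (L : List ℕ), (∀ k ∈ L, k < 5) →
      (((L.filter p).map fun k => (256 * k + v k, 1)).map fun q : ℕ × ℕ =>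
      if 256 * m ≤ q.1 ∧ q.1 < 256 * m + 256 then q.2 * x (q.1 - 256 * m) else 0).sum =
      (L.map fun k => if k = m then (if p k then x (v k) else 0) else 0).sum := by
    intro L
    induction L with
    | nil => intro _; rfl
    | cons a L ih =>
      intro hL
      rw [List.filter_cons]
      have hva := hv a (hL a List.mem_cons_self)
      have ih := ih (fun k hk => hL k (List.mem_cons_of_mem _ hk))
      by_cases hpa : p a = true
      · rw [if_pos hpa]
        simp only [List.map_cons, List.sum_cons]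
        rw [ih]
        congr 1
        by_cases ham : a = m
        · subst ham
          rw [if_pos (by omega), if_pos rfl, if_pos hpa]
          rw [one_mul]
          congr 1
          omega
        · rw [if_neg (by omega), if_neg ham]
      · rw [if_neg hpa]
        simp only [List.map_cons, List.sum_cons]
        rw [ih, if_neg hpa, ite_self, zero_add]
  unfold evL
  rw [List.map_append, List.sum_append, h0, h1 _ (fun k hk => List.mem_range.mp hk), add_zero]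
  have h2 : (List.range 5) = [0, 1, 2, 3, 4] := by decide
  rw [h2]
  interval_cases m <;> simp

theorem s4_clL_filter (Q : ℕ → ℤ) (v : ℕ → ℕ) (hv : ∀ m < 5, v m < 256) (p : ℕ → Bool)
    (l : List (ℕ × ℕ)) :
    clL Q ((((List.range 5).filter p).map fun k => (256 * k + v k, 1)) ++ l) = clL Q l := by
  unfold clL
  rw [List.map_append, List.sum_append]
  have h0 : ((((List.range 5).filter p).map fun k => (256 * k + v k, 1)).map
      fun q : ℕ × ℕ => if 1280 ≤ q.1 ∧ q.1 < 1288 then (q.2 : ℤ) * Q (q.1 - 1280) else 0).sum = 0 := by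
    apply List.sum_eq_zero
    intro a ha
    obtain ⟨q, hq, rfl⟩ := List.mem_map.mp ha
    obtain ⟨k, hk, rfl⟩ := List.mem_map.mp hq
    have hk5 : k < 5 := List.mem_range.mp (List.mem_of_mem_filter hk)
    have := hv k hk5
    have h3 : ¬ (1280 ≤ 256 * k + v k ∧ 256 * k + v k < 1288) := by omega
    exact if_neg h3
  rw [h0, zero_add]

theorem s4_asVar_lt (e i m : ℕ) (he : e ≤ 4) (hi : i < 5) (hm : m < 5) : asVar e i m < 256 := by
  unfold asVar
  split_ifs <;> omega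

/-- the values of the variables -/
def s4x (Y : ℕ → ℕ → ℕ → ℕ) (d : ℕ) : ℕ :=
  if d = 0 then 1 else Y ((d - 1) / 20) ((d - 1) / 4 % 5)
    (if (d - 1) % 4 < (d - 1) / 4 % 5 then (d - 1) % 4 else (d - 1) % 4 + 1)

theorem s4x_var (Y : ℕ → ℕ → ℕ → ℕ) (e i m : ℕ) (hi : i < 5) (hm : m < 5) (him : m ≠ i) :
    s4x Y (asVar e i m) = Y e i m := by
  unfold s4x asVar
  rw [if_neg (by omega)]
  obtain ⟨j, hj⟩ : ∃ j, j = (if m < i then m else m - 1) := ⟨_, rfl⟩
  have hj4 : j < 4 := by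
    rw [hj]
    split_ifs <;> omega
  rw [← hj]
  have e1 : 1 + (e * 5 + i) * 4 + j - 1 = (e * 5 + i) * 4 + j := by omega
  have e2 : ((e * 5 + i) * 4 + j) / 20 = e := by omega
  have e3 : ((e * 5 + i) * 4 + j) / 4 % 5 = i := by omega
  have e4 : ((e * 5 + i) * 4 + j) % 4 = j := by omega
  rw [e1, e2, e3, e4]
  congr 1
  rw [hj]
  split_ifs <;> omega

theorem s4_evL_nil (x : ℕ → ℕ) (m : ℕ) : evL x m [] = 0 := rfl

theorem s4_evL_cons (x : ℕ → ℕ) (m : ℕ) (q : ℕ × ℕ) (l : List (ℕ × ℕ)) : evL x m (q :: l) =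
    (if 256 * m ≤ q.1 ∧ q.1 < 256 * m + 256 then q.2 * x (q.1 - 256 * m) else 0) + evL x m l := by
  simp [evL]

theorem s4_clL_nil (Q : ℕ → ℤ) : clL Q [] = 0 := rfl

theorem s4_clL_cons (Q : ℕ → ℤ) (q : ℕ × ℕ) (l : List (ℕ × ℕ)) : clL Q (q :: l) =
    (if 1280 ≤ q.1 ∧ q.1 < 1288 then (q.2 : ℤ) * Q (q.1 - 1280) else 0) + clL Q l := by
  simp [clL]

/-- the factorizations and the main data -/
structure S4Data (g : Fin 5 → ℕ) (F : ℕ → ℤ) (Y : ℕ → ℕ → ℕ → ℕ) : Prop where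
  sum : ∀ e i : ℕ, (he : e < 4 ∨ (e = 4 ∧ 1 ≤ i ∧ i ≤ 3)) → (hi : i < 5) →
    ∑ j : Fin 5, (Y e i j : ℤ) * g j = F e + g ⟨i, hi⟩
  lex : ∀ e i : ℕ, (he : e < 4 ∨ (e = 4 ∧ 1 ≤ i ∧ i ≤ 3)) → (hi : i < 5) →
    LexMax g (fun j => Y e i j)
  z1 : ∀ e i : ℕ, (he : e < 4 ∨ (e = 4 ∧ 1 ≤ i ∧ i ≤ 3)) → (hi : i < 5) → Y e i i = 0
  z2 : ∀ e i : ℕ, (he : e < 4 ∨ (e = 4 ∧ 1 ≤ i ∧ i ≤ 3)) → (hi : i < 5) →
    (i = 0 ∨ e = 4) → Y e i 4 = 0

theorem s4_row {g : Fin 5 → ℕ} {F : ℕ → ℤ} {Y : ℕ → ℕ → ℕ → ℕ} (D : S4Data g F Y) (Q : ℕ → ℤ)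
    (e i : ℕ) (he : e < 4 ∨ (e = 4 ∧ 1 ≤ i ∧ i ≤ 3)) (hi : i < 5) (P N : List (ℕ × ℕ))
    (hP : ∀ q ∈ P, q.2 ≤ 7) (hP8 : P.length ≤ 8) (hN : ∀ q ∈ N, q.2 ≤ 7) (hN8 : N.length ≤ 8)
    (p : ℕ → Bool) (tl tn : List (ℕ × ℕ)) (htl : ∀ q ∈ tl, 1280 ≤ q.1) (htn : ∀ q ∈ tn, 1280 ≤ q.1)
    (hPe : P = (((List.range 5).filter p).map fun m => (256 * m + asVar e i m, 1)) ++ tl)
    (hNe : N = (256 * i, 1) :: tn)
    (hp : ∀ m < 5, p m = true ↔ (m ≠ i ∧ ¬ ((i = 0 ∨ e = 4) ∧ m = 4)))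
    (hF : clL Q tl - clL Q tn = F e) :
    RowOK g (s4x Y) Q (num P, num N) := by
  have hv : ∀ m < 5, asVar e i m < 256 := fun m hm => s4_asVar_lt e i m (by omega) hi hm
  have h1 : ∀ m : ℕ, m < 5 → evL (s4x Y) m P = Y e i m := by
    intro m hm
    rw [hPe, s4_evL_filter _ _ hv p m tl htl hm]
    by_cases hpm : p m = true
    · rw [if_pos hpm]
      exact s4x_var Y e i m hi hm ((hp m hm).1 hpm).1
    · rw [if_neg hpm]
      by_cases c1 : m = i
      · rw [c1]
        exact (D.z1 e i he hi).symm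
      · have c2 : (i = 0 ∨ e = 4) ∧ m = 4 := by
          by_contra c3
          exact hpm ((hp m hm).2 ⟨c1, c3⟩)
        rw [c2.2]
        exact (D.z2 e i he hi c2.1).symm
  have h2 : ∀ m : ℕ, m < 5 → evL (s4x Y) m N = if m = i then 1 else 0 := by
    intro m hm
    rw [hNe, s4_evL_cons]
    have h3 : evL (s4x Y) m tn = 0 := by
      unfold evL
      apply List.sum_eq_zero
      intro a ha
      obtain ⟨q, hq, rfl⟩ := List.mem_map.mp ha
      have := htn q hq
      rw [if_neg (by omega)]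
    rw [h3, add_zero]
    by_cases c1 : m = i
    · subst c1
      rw [if_pos (by omega), if_pos rfl, one_mul, Nat.sub_self]
      rfl
    · rw [if_neg (by omega), if_neg c1]
  refine rowOK_of hP hP8 hN hN8 (y := fun j => Y e i j) (fun m => h1 m m.2) (D.lex e i he hi) ?_
  have h4 : ∀ m : Fin 5, ((evL (s4x Y) m P : ℤ) - evL (s4x Y) m N) * g m =
      (Y e i m : ℤ) * g m - (if m = ⟨i, hi⟩ then (g m : ℤ) else 0) := by
    intro m
    rw [h1 m m.2, h2 m m.2]
    by_cases c : m = ⟨i, hi⟩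
    · have c' : (m : ℕ) = i := by rw [c]
      rw [if_pos c, if_pos c']
      push_cast
      ring
    · have c' : ¬ (m : ℕ) = i := fun h => c (Fin.ext h)
      rw [if_neg c, if_neg c']
      push_cast
      ring
  rw [sum_congr rfl (fun m _ => h4 m), sum_sub_distrib, D.sum e i he hi, sum_ite_eq' univ,
    if_pos (mem_univ _), add_sub_cancel_right, ← hF]
  have h5 : clL Q P = clL Q tl := by
    rw [hPe]
    exact s4_clL_filter Q _ hv p tl
  have h6 : clL Q N = clL Q tn := by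
    rw [hNe, s4_clL_cons, if_neg (by omega), zero_add]
  rw [h5, h6]

/-- the elements -/
def s4F (P P' f h : ℤ) (e : ℕ) : ℤ :=
  if e = 0 then f else if e = 1 then P - f else if e = 2 then h else if e = 3 then P - h else P - P'

def s4Q (P P' f h c : ℤ) (d : ℕ) : ℤ :=
  if d = 0 then P else if d = 1 then P - P' else if d = 2 then f else if d = 3 then h else
    if d = 4 then c else 0

theorem s4_fac {g : Fin 5 → ℕ} (hg : MinGen g) {P P' f h : ℤ}
    (pP : IsPF g P) (pP' : IsPF g P') (pf : IsPF g f) (pPf : IsPF g (P - f)) (ph : IsPF g h)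
    (pPh : IsPF g (P - h)) (hw : P' + g 4 = P + g 0) (hne : P' ≠ P)
    (hfP' : f ≠ P') (hPfP' : P - f ≠ P') (hhP' : h ≠ P') (hPhP' : P - h ≠ P')
    (hN : ∀ i, i ≠ 0 → i ≠ 4 → Mem g (P - P' + g i)) :
    ∃ Y : ℕ → ℕ → ℕ → ℕ, S4Data g (s4F P P' f h) Y := by
  -- membership of `F e`
  have hnm : ∀ e : ℕ, ¬ Mem g (s4F P P' f h e) := by
    intro e
    unfold s4F
    split_ifs
    · exact pf.nmem
    · exact pPf.nmem
    · exact ph.nmem
    · exact pPh.nmem
    · exact pf_diff pP pP' hne.symm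
  have hadd : ∀ e i : ℕ, (e < 4 ∨ (e = 4 ∧ 1 ≤ i ∧ i ≤ 3)) → (hi : i < 5) →
      Mem g (s4F P P' f h e + g ⟨i, hi⟩) := by
    intro e i he hi
    unfold s4F
    split_ifs
    · exact pf.add _
    · exact pPf.add _
    · exact ph.add _
    · exact pPh.add _
    · have h4 : 1 ≤ i ∧ i ≤ 3 := by omega
      refine hN _ ?_ ?_
      · intro h5
        have := congrArg Fin.val h5
        simp at this
        omega
      · intro h5
        have h6 : i = 4 := congrArg Fin.val h5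
        omega
  have hd4 : ∀ e i : ℕ, (e < 4 ∨ (e = 4 ∧ 1 ≤ i ∧ i ≤ 3)) → (hi : i < 5) → (i = 0 ∨ e = 4) →
      ¬ Mem g (s4F P P' f h e + g ⟨i, hi⟩ - g 4) := by
    intro e i he hi h0
    rcases he with he | ⟨he, h1, h3⟩
    · have hi0 : i = 0 := by omega
      subst hi0
      have hg0 : g ⟨0, hi⟩ = g 0 := rfl
      rw [hg0]
      unfold s4F
      split_ifs with a1 a2 a3 a4
      · have e1 : f + g 0 - g 4 = P' - (P - f) := by linarith
        rw [e1]
        exact pf_diff pP' pPf hPfP'.symm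
      · have e1 : P - f + g 0 - g 4 = P' - f := by linarith
        rw [e1]
        exact pf_diff pP' pf hfP'.symm
      · have e1 : h + g 0 - g 4 = P' - (P - h) := by linarith
        rw [e1]
        exact pf_diff pP' pPh hPhP'.symm
      · have e1 : P - h + g 0 - g 4 = P' - h := by linarith
        rw [e1]
        exact pf_diff pP' ph hhP'.symm
      · omega
    · subst he
      intro hm
      have e1 : s4F P P' f h 4 + g ⟨i, hi⟩ - g 4 = g ⟨i, hi⟩ - g 0 := by
        have e2 : s4F P P' f h 4 = P - P' := rfl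
        rw [e2]
        linarith
      rw [e1] at hm
      rcases gen_irred hg hm (mem_gen g 0) (i := ⟨i, hi⟩) (by ring) with h5 | h5
      · have h6 : g ⟨i, hi⟩ = g 0 := by
          have : (g ⟨i, hi⟩ : ℤ) = g 0 := by linarith
          exact_mod_cast this
        have h7 := congrArg Fin.val (gen_inj hg h6)
        simp at h7
        omega
      · have h6 := gen_pos hg 0
        have h7 : g 0 = 0 := by exact_mod_cast h5
        omega
  have hY : ∀ e i : ℕ, ∃ y : Fin 5 → ℕ, (e < 4 ∨ (e = 4 ∧ 1 ≤ i ∧ i ≤ 3)) → ∀ hi : i < 5,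
      ((∑ j, y j * g j : ℕ) : ℤ) = s4F P P' f h e + g ⟨i, hi⟩ ∧ LexMax g y := by
    intro e i
    by_cases hc : (e < 4 ∨ (e = 4 ∧ 1 ≤ i ∧ i ≤ 3)) ∧ i < 5
    · obtain ⟨y, h1, h2⟩ := exists_lexMax hg (hadd e i hc.1 hc.2)
      exact ⟨y, fun _ _ => ⟨h1, h2⟩⟩
    · exact ⟨0, fun h1 h2 => absurd ⟨h1, h2⟩ hc⟩
  choose Y hY using hY
  have hYval : ∀ e i : ℕ, ∀ j : Fin 5,
      (if hm : (j : ℕ) < 5 then Y e i ⟨(j : ℕ), hm⟩ else 0) = Y e i j := by
    intro e i j
    rw [dif_pos j.2]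
  refine ⟨fun e i m => if hm : m < 5 then Y e i ⟨m, hm⟩ else 0, ?_, ?_, ?_, ?_⟩
  · intro e i he hi
    have h1 := (hY e i he hi).1
    rw [← h1]
    push_cast
    exact sum_congr rfl fun j _ => by rw [hYval]
  · intro e i he hi
    have h1 := (hY e i he hi).2
    have h2 : (fun j : Fin 5 => if hm : (j : ℕ) < 5 then Y e i ⟨(j : ℕ), hm⟩ else 0) = Y e i :=
      funext fun j => hYval e i j
    rw [h2]
    exact h1
  · intro e i he hi
    show (if hm : i < 5 then Y e i ⟨i, hm⟩ else 0) = 0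
    rw [dif_pos hi]
    by_contra hc
    have h1 := mem_sub_of_pos (hY e i he hi).1 hc
    rw [add_sub_cancel_right] at h1
    exact hnm e h1
  · intro e i he hi h0
    show (if hm : 4 < 5 then Y e i ⟨4, hm⟩ else 0) = 0
    rw [dif_pos (by norm_num)]
    by_contra hc
    have h1 := mem_sub_of_pos (hY e i he hi).1 hc
    exact hd4 e i he hi h0 h1

theorem s4_lexMax_zero {g : Fin 5 → ℕ} (hg : MinGen g) : LexMax g (fun _ => 0) := by
  intro y' hy' k _ hlt
  have h1 : ∑ i, y' i * g i = 0 := by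
    rw [hy']
    exact sum_eq_zero fun i _ => zero_mul _
  have h2 := (sum_eq_zero_iff.mp h1) k (mem_univ k)
  rcases Nat.mul_eq_zero.mp h2 with h3 | h3
  · have h4 : 0 < y' k := hlt
    omega
  · have := gen_pos hg k
    omega

theorem s4_rows {g : Fin 5 → ℕ} (hg : MinGen g) {P P' f h : ℤ} (hw : P' + g 4 = P + g 0)
    {Y : ℕ → ℕ → ℕ → ℕ} (D : S4Data g (s4F P P' f h) Y) :
    ∀ r, RowOK g (s4x Y) (s4Q P P' f h (g 4)) (rwS41 r) := by
  intro r
  have e0 : rwS41 r = rwS41 (r % 32) := s4_sel5_mod _ _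
  rw [e0]
  have hr : r % 32 < 32 := Nat.mod_lt _ (by norm_num)
  generalize r % 32 = k at hr
  rw [rwS41_eq k hr]
  obtain ⟨a1, a2, a3, a4⟩ := s4_small k hr
  by_cases c1 : k < 20
  · refine s4_row D _ (k / 5) (k % 5) (Or.inl (by omega)) (by omega) _ _ a1 a2 a3 a4
      (fun m => decide (m ≠ k % 5 ∧ ¬ (k % 5 = 0 ∧ m = 4)))
      [(1280 + (if k / 5 % 2 = 0 then 2 + k / 10 else 0), 1)]
      (if k / 5 % 2 = 0 then [] else [(1282 + k / 10, 1)]) ?_ ?_ ?_ ?_ ?_ ?_
    · intro q hq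
      rw [List.mem_singleton] at hq
      rw [hq]
      exact Nat.le_add_right _ _
    · intro q hq
      split_ifs at hq
      · simp at hq
      · rw [List.mem_singleton] at hq
        rw [hq]
        show 1280 ≤ 1282 + k / 10
        omega
    · unfold s4P
      rw [if_pos c1]
    · unfold s4N
      rw [if_pos c1]
    · intro m hm
      rw [decide_eq_true_iff]
      have h5 : ¬ k / 5 = 4 := by omega
      constructor
      · rintro ⟨b1, b2⟩
        exact ⟨b1, fun b3 => b2 ⟨b3.1.resolve_right h5, b3.2⟩⟩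
      · rintro ⟨b1, b2⟩
        exact ⟨b1, fun b3 => b2 ⟨Or.inl b3.1, b3.2⟩⟩
    · have h5 : k / 5 < 4 := by omega
      have h6 : k / 10 = k / 5 / 2 := by omega
      rw [h6]
      generalize k / 5 = e at h5
      interval_cases e <;> simp [s4_clL_cons, s4_clL_nil, s4F, s4Q]
  · by_cases c2 : k < 23
    · refine s4_row D _ 4 (k - 19) (Or.inr (by omega)) (by omega) _ _ a1 a2 a3 a4
        (fun m => decide (m ≠ k - 19 ∧ m ≠ 4)) [(1281, 1)] [] ?_ ?_ ?_ ?_ ?_ ?_
      · intro q hq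
        rw [List.mem_singleton] at hq
        rw [hq]
        show 1280 ≤ 1281
        omega
      · intro q hq
        simp at hq
      · unfold s4P
        rw [if_neg c1, if_pos c2]
      · unfold s4N
        rw [if_neg c1, if_pos c2]
      · intro m hm
        rw [decide_eq_true_iff]
        constructor
        · rintro ⟨b1, b2⟩
          exact ⟨b1, fun b3 => b2 b3.2⟩
        · rintro ⟨b1, b2⟩
          exact ⟨b1, fun b3 => b2 ⟨Or.inr rfl, b3⟩⟩
      · simp [s4_clL_cons, s4_clL_nil, s4F, s4Q]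
    · by_cases c3 : k = 23
      · subst c3
        refine rowOK_of a1 a2 a3 a4 (y := Pi.single 4 1) ?_ (lexMax_single hg 4) ?_
        · intro m
          fin_cases m <;> simp [s4P, s4_evL_cons, s4_evL_nil, s4x]
        · simp [Fin.sum_univ_five, s4P, s4N, s4_evL_cons, s4_evL_nil, s4_clL_cons, s4_clL_nil,
            s4x, s4Q]
          linarith
      · by_cases c4 : k = 24
        · subst c4
          refine rowOK_of a1 a2 a3 a4 (y := Pi.single 4 1) ?_ (lexMax_single hg 4) ?_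
          · intro m
            fin_cases m <;> simp [s4P, s4_evL_cons, s4_evL_nil, s4x]
          · simp [Fin.sum_univ_five, s4P, s4N, s4_evL_cons, s4_evL_nil, s4_clL_cons, s4_clL_nil,
              s4x, s4Q]
        · have hP : s4P k = [] := by
            unfold s4P
            rw [if_neg c1, if_neg c2, if_neg c3, if_neg c4]
          have hN : s4N k = [] := by
            unfold s4N
            rw [if_neg c1, if_neg c2, if_neg c3]
          rw [hP, hN]
          refine rowOK_of (by simp) (by simp) (by simp) (by simp) (y := fun _ => 0) ?_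
            (s4_lexMax_zero hg) ?_
          · intro m
            rfl
          · simp [s4_evL_nil, s4_clL_nil]

/-- the element number `a` -/
def s4V (P P' f h c : ℤ) (a : ℕ) : ℤ :=
  if a = 0 then 0 else if a = 1 then P else if a = 2 then P' else if a = 3 then f else
    if a = 4 then P - f else if a = 5 then h else if a = 6 then P - h else P - P' + c

theorem s4_ecL_nil (Q : ℕ → ℤ) : ecL Q [] = 0 := rfl

theorem s4_ecL_cons (Q : ℕ → ℤ) (q : ℕ × ℕ) (l : List (ℕ × ℕ)) : ecL Q (q :: l) =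
    (if q.1 < 8 then (q.2 : ℤ) * Q q.1 else 0) + ecL Q l := by
  simp [ecL]

theorem s4_val (P P' f h c : ℤ) (a : ℕ) (ha : a < 8) :
    ec (s4Q P P' f h c) (eS41 a).1 - ec (s4Q P P' f h c) (eS41 a).2 = s4V P P' f h c a := by
  obtain ⟨a1, a2, a3, a4⟩ := s4_esmall a ha
  rw [eS41_eq a ha]
  show ec _ (num (s4EP a)) - ec _ (num (s4EN a)) = _
  rw [ec_num _ _ a1 a2, ec_num _ _ a3 a4]
  interval_cases a <;> simp [s4EP, s4EN, s4_ecL_cons, s4_ecL_nil, s4Q, s4V]

theorem s4_els (a : ℕ) : Bd 8 56 (eS41 a).1 ∧ Bd 8 56 (eS41 a).2 := by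
  have e0 : eS41 a = eS41 (a % 8) := s4_sel3_mod _ _
  rw [e0]
  have hr : a % 8 < 8 := Nat.mod_lt _ (by norm_num)
  generalize a % 8 = k at hr
  obtain ⟨a1, a2, a3, a4⟩ := s4_esmall k hr
  rw [eS41_eq k hr]
  exact ⟨num_bd _ _ a1 a2, num_bd _ _ a3 a4⟩

theorem s4_forb {g : Fin 5 → ℕ} {P P' f h c : ℤ}
    (pP : IsPF g P) (pP' : IsPF g P') (pf : IsPF g f) (pPf : IsPF g (P - f)) (ph : IsPF g h)
    (pPh : IsPF g (P - h)) (hne : P' ≠ P)
    (hff : f ≠ P - f) (hhf : h ≠ f) (hhPf : h ≠ P - f)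
    (hfP' : f ≠ P') (hPfP' : P - f ≠ P') (hhP' : h ≠ P') (hPhP' : P - h ≠ P')
    (hc : ¬ Mem g (P - P' + c)) (a b : ℕ) (ha : a < 8) (hb : b < 8)
    (hfb : (fbS41 >>> (8 * a + b)) &&& 1 = 1) :
    ¬ Mem g (s4V P P' f h c a - s4V P P' f h c b) := by
  have hpf : ∀ k, 1 ≤ k → k ≤ 6 → IsPF g (s4V P P' f h c k) := by
    intro k h1 h6
    interval_cases k
    · exact pP
    · exact pP'
    · exact pf
    · exact pPf
    · exact ph
    · exact pPh
  have h0 : s4V P P' f h c 0 = 0 := rfl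
  have h7 : s4V P P' f h c 7 = P - P' + c := rfl
  have q1 := pf.pos
  have q2 := ph.pos
  have q3 := pPf.pos
  have q4 := pPh.pos
  have hdist : ∀ a b : ℕ, 1 ≤ a → a ≤ 6 → 1 ≤ b → b ≤ 6 → a < b → ¬ (a = 5 ∧ b = 6) →
      s4V P P' f h c a ≠ s4V P P' f h c b := by
    intro a b h1 h2 h3 h4 hab h56
    interval_cases a <;> interval_cases b <;> simp only [s4V] <;> norm_num at * <;> omega
  rcases s4_fb a b ha hb hfb with ⟨hb0, ha1⟩ | ⟨ha0, hb1, hb6⟩ | ⟨a1, a6, b1, b6, hab, c1, c2⟩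
  · rw [hb0, h0, sub_zero]
    by_cases ha7 : a = 7
    · rw [ha7, h7]
      exact hc
    · exact (hpf a ha1 (by omega)).nmem
  · rw [ha0, h0, zero_sub]
    intro hm
    have h1 := mem_nonneg hm
    have h2 := (hpf b hb1 hb6).pos
    omega
  · refine pf_diff (hpf a a1 a6) (hpf b b1 b6) ?_
    rcases Nat.lt_or_gt_of_ne hab with hlt | hlt
    · exact hdist a b a1 a6 b1 b6 hlt c1
    · exact (hdist b a b1 b6 a1 a6 hlt (fun h => c2 ⟨h.2, h.1⟩)).symm

theorem s4_mem_perm (g : Fin 5 → ℕ) (σ : Equiv.Perm (Fin 5)) (z : ℤ) :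
    Mem (fun i => g (σ i)) z ↔ Mem g z := by
  constructor
  · rintro ⟨y, hy⟩
    refine ⟨fun j => y (σ.symm j), ?_⟩
    rw [← hy]
    congr 1
    rw [← Equiv.sum_comp σ (fun j => y (σ.symm j) * g j)]
    exact sum_congr rfl fun i _ => by rw [σ.symm_apply_apply]
  · rintro ⟨y, hy⟩
    refine ⟨fun j => y (σ j), ?_⟩
    rw [← hy]
    congr 1
    exact Equiv.sum_comp σ (fun j => y j * g j)

theorem s4_minGen_perm {g : Fin 5 → ℕ} (hg : MinGen g) (σ : Equiv.Perm (Fin 5)) :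
    MinGen (fun i => g (σ i)) := by
  intro l y hy
  have h1 : ∑ j, y (σ.symm j) * g j = g (σ l) := by
    have hy' : ∑ i, y i * g (σ i) = g (σ l) := hy
    rw [← hy', ← Equiv.sum_comp σ (fun j => y (σ.symm j) * g j)]
    exact sum_congr rfl fun i _ => by rw [σ.symm_apply_apply]
  have h2 := hg (σ l) (fun j => y (σ.symm j)) h1
  funext j
  have h3 := congrFun h2 (σ j)
  simp only [σ.symm_apply_apply] at h3
  rw [h3]
  by_cases h4 : j = l
  · rw [h4, Pi.single_eq_same, Pi.single_eq_same]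
  · rw [Pi.single_eq_of_ne h4, Pi.single_eq_of_ne (fun h5 => h4 (σ.injective h5))]

theorem s4_pf_perm {g : Fin 5 → ℕ} {f : ℤ} (hf : IsPF g f) (σ : Equiv.Perm (Fin 5)) :
    IsPF (fun i => g (σ i)) f :=
  ⟨hf.pos, fun h => hf.nmem ((s4_mem_perm g σ f).1 h), fun i => (s4_mem_perm g σ _).2 (hf.add (σ i))⟩

theorem s4_exists_perm (i0 i4 : Fin 5) (h : i0 ≠ i4) :
    ∃ σ : Equiv.Perm (Fin 5), σ 0 = i0 ∧ σ 4 = i4 := by
  refine ⟨(Equiv.swap 0 i0).trans (Equiv.swap (Equiv.swap 0 i0 4) i4), ?_, ?_⟩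
  · rw [Equiv.trans_apply, Equiv.swap_apply_left]
    refine Equiv.swap_apply_of_ne_of_ne ?_ h
    intro h1
    have h2 : Equiv.swap 0 i0 0 = Equiv.swap 0 i0 4 := by
      rw [Equiv.swap_apply_left]
      exact h1
    have h3 := (Equiv.swap 0 i0).injective h2
    exact absurd h3 (by decide)
  · rw [Equiv.trans_apply, Equiv.swap_apply_left]

theorem S41core_of (h : ∀ g x Q, Ctx rwS41 eS41 fbS41 zAll g x Q → False) : S41core := by
  intro g hg i0 i4 hi P P' f k pP pP' pf pPf pk pPk hw hne hff hkf hkPf hfP' hPfP' hkP' hPkP' hN hN4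
  obtain ⟨σ, h0, h4⟩ := s4_exists_perm i0 i4 hi
  have hg' := s4_minGen_perm hg σ
  have rP := s4_pf_perm pP σ
  have rP' := s4_pf_perm pP' σ
  have rf := s4_pf_perm pf σ
  have rPf := s4_pf_perm pPf σ
  have rk := s4_pf_perm pk σ
  have rPk := s4_pf_perm pPk σ
  have hw' : P' + (fun i => g (σ i)) 4 = P + (fun i => g (σ i)) 0 := by
    show P' + (g (σ 4) : ℤ) = P + (g (σ 0) : ℤ)
    rw [h0, h4]
    exact hw
  have hN' : ∀ i, i ≠ 0 → i ≠ 4 → Mem (fun i => g (σ i)) (P - P' + (fun i => g (σ i)) i) := by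
    intro i hi0 hi4
    rw [s4_mem_perm]
    refine hN (σ i) ?_ ?_
    · intro h5
      rw [← h0] at h5
      exact hi0 (σ.injective h5)
    · intro h5
      rw [← h4] at h5
      exact hi4 (σ.injective h5)
  have hN4' : ¬ Mem (fun i => g (σ i)) (P - P' + (fun i => g (σ i)) 4) := by
    rw [s4_mem_perm]
    show ¬ Mem g (P - P' + (g (σ 4) : ℤ))
    rw [h4]
    exact hN4
  obtain ⟨Y, D⟩ := s4_fac hg' rP rP' rf rPf rk rPk hw' hne hfP' hPfP' hkP' hPkP' hN'
  refine h (fun i => g (σ i)) (s4x Y) (s4Q P P' f k ((fun i => g (σ i)) 4)) ⟨hg', rfl,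
    fun d hd => Or.inl (s4_zAll d hd), s4_rows hg' hw' D, s4_els, ?_⟩
  intro a ha b hb hfb y hy
  rw [s4_val _ _ _ _ _ a ha, s4_val _ _ _ _ _ b hb] at hy
  exact s4_forb rP rP' rf rPf rk rPk hne hff hkf hkPf hfP' hPfP' hkP' hPkP' hN4' a b ha hb hfb
    ⟨y, hy⟩

end Pool.Agent.NG5c
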