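import Pool.Agent.NG5c.Digits
import Pool.Agent.NG5.Mem

/-!
# Soundness of the certificate checker: rules
-/

set_option autoImplicit false

namespace Pool.Agent.NG5c

open Finset Pool.Agent.NG5

theorem brec {α : Type} (c : Bool) (a b : α) :
    Bool.rec (motive := fun _ => α) a b c = bif c then b else a := by cases c <;> rfl

theorem chk_eq_true {c k : Bool} : chk c k = true ↔ c = true ∧ k = true := by
  cases c <;> simp [chk]

theorem beq_iff {a b : ℕ} : Nat.beq a b = true ↔ a = b := by rw [Nat.beq_eq]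

/-! ### The contradiction test -/

theorem topB_dig : ∀ d < 256, dig topB d = 32768 := by
  have h : ∀ d < 256, Nat.beq (Nat.mod (Nat.div topB (Nat.pow 2 (Nat.mul 16 d))) 65536) 32768 = true := by
    decide +kernel
  intro d hd
  exact beq_iff.1 (h d hd)

theorem contra_iff {L R : ℕ} {k : Bool} :
    contra L R k = true ↔ (L - R) &&& topB = 0 ∧ (L - R) &&& 65535 ≠ 0 ∧ k = true := by
  unfold contra
  simp only [brec]
  have e1 : Nat.beq (Nat.land (Nat.sub L R) topB) 0 = true ↔ (L - R) &&& topB = 0 := beq_iff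
  have e2 : Nat.beq (Nat.land (Nat.sub L R) 65535) 0 = true ↔ (L - R) &&& 65535 = 0 := beq_iff
  cases h1 : Nat.beq (Nat.land (Nat.sub L R) topB) 0 with
  | false =>
    have h3 : ¬ ((L - R) &&& topB = 0) := fun h => by rw [e1.2 h] at h1; cases h1
    simp [h3]
  | true =>
    cases h2 : Nat.beq (Nat.land (Nat.sub L R) 65535) 0 with
    | false =>
      have h3 : ¬ ((L - R) &&& 65535 = 0) := fun h => by rw [e2.2 h] at h2; cases h2
      simp [e1.1 h1, h3]
    | true => simp [e2.1 h2]

theorem contra_sound {L R : ℕ} {k : Bool} (h : contra L R k = true) (x : ℕ → ℕ) (hx : x 0 = 1)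
    (hR : Bd 256 32767 R) : ¬ ev x 0 L ≤ ev x 0 R := by
  rw [contra_iff] at h
  obtain ⟨h1, h2, -⟩ := h
  set D := L - R with hD
  have hDpos : D ≠ 0 := by intro h0; rw [h0] at h2; simp at h2
  have hL : L = R + D := by omega
  have hDb : Bd 256 32767 D := by
    intro d hd
    have e1 : dig (D &&& topB) d = 0 := by rw [h1]; exact dig_zero_left d
    rw [dig_land, topB_dig d hd] at e1
    have e2 := dig_lt D d
    by_contra hlt
    have e3 : 2 ^ 15 ≤ dig D d := by omega
    have : (dig D d).testBit 15 = true := by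
      rw [Nat.testBit_eq_decide_div_mod_eq]
      have : dig D d / 2 ^ 15 % 2 = 1 := by omega
      rw [this]; rfl
    have h3 : (dig D d &&& 32768).testBit 15 = true := by
      rw [Nat.testBit_and, this]; decide
    rw [e1] at h3
    simp at h3
  have h0 : dig D 0 ≠ 0 := by
    intro h0
    apply h2
    have : (65535 : ℕ) = 2 ^ 16 - 1 := by norm_num
    rw [this, Nat.and_two_pow_sub_one_eq_mod]
    simpa [dig] using h0
  rw [hL, ev_add (w := 256) x 0 hR hDb (by norm_num) (by norm_num)]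
  have h3 : 1 ≤ ev x 0 D := by
    have : dig D 0 * x 0 ≤ ev x 0 D := by
      unfold ev
      refine le_trans ?_ (single_le_sum (f := fun d => dig D (256 * 0 + d) * x d)
        (fun i _ => Nat.zero_le _) (mem_range.2 (by norm_num : 0 < 256)))
      simp
    rw [hx] at this
    omega
  omega

/-! ### Literals and clauses -/

/-- the literal at the bit position `p` is true -/
def LitT (n3 : ℕ) (A : ℕ → At) (x : ℕ → ℕ) (p : ℕ) : Prop :=
  p < n3 ∧ ((p % 3 = 1 ∧ ev x 0 (A (p / 3)).1 ≤ ev x 0 (A (p / 3)).2) ∨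
    (p % 3 = 2 ∧ ev x 0 (A (p / 3)).2 < ev x 0 (A (p / 3)).1))

/-- the clause is true -/
def Sat (n3 : ℕ) (A : ℕ → At) (x : ℕ → ℕ) (m : ℕ) : Prop :=
  ∃ p, m.testBit p = true ∧ LitT n3 A x p

theorem LitT.not_succ {n3 : ℕ} {A : ℕ → At} {x : ℕ → ℕ} {p : ℕ} (h : LitT n3 A x p) :
    ¬ LitT n3 A x (p + 1) := by
  rintro ⟨-, h2⟩
  obtain ⟨-, h1⟩ := h
  rcases h1 with ⟨a, b⟩ | ⟨a, b⟩ <;> rcases h2 with ⟨c, d⟩ | ⟨c, d⟩
  · omega
  · have : (p + 1) / 3 = p / 3 := by omega
    rw [this] at d; omega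
  · omega
  · omega

theorem LitT.not_pred {n3 : ℕ} {A : ℕ → At} {x : ℕ → ℕ} {p : ℕ} (h : LitT n3 A x (p + 1)) :
    ¬ LitT n3 A x p := fun h' => h'.not_succ h

theorem Sat.mono {n3 : ℕ} {A : ℕ → At} {x : ℕ → ℕ} {m m' : ℕ} (h : Sat n3 A x m)
    (hm : ∀ p, m.testBit p = true → m'.testBit p = true) : Sat n3 A x m' := by
  obtain ⟨p, h1, h2⟩ := h; exact ⟨p, hm p h1, h2⟩

theorem testBit_lor_shl (m p q : ℕ) :
    (m ||| (1 <<< p)).testBit q = (m.testBit q || decide (q = p)) := by
  rw [Nat.testBit_or]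
  congr 1
  rw [Nat.shiftLeft_eq, one_mul, Nat.testBit_two_pow]
  by_cases h : p = q <;> simp [h, eq_comm]

section Items

variable {n3 : ℕ} {A : ℕ → At} {x : ℕ → ℕ}

theorem at_bd (A : ℕ → At) (i : ℕ) : Bd 256 56 (A i).1 ∧ Bd 256 56 (A i).2 := by
  obtain ⟨t, ht⟩ := (A i).hP
  obtain ⟨u, hu⟩ := (A i).hN
  constructor
  · show Bd 256 56 (A i).P
    rw [ht]; exact dec_bd _ _
  · show Bd 256 56 (A i).N
    rw [hu]; exact dec_bd _ _

theorem negX_bd (p : ℕ) :
    Bd 256 57 (negX n3 p (A (p / 3))) := by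
  unfold negX
  simp only [brec]
  have h1 := (at_bd A (p / 3)).1
  have h2 := (at_bd A (p / 3)).2
  have hone : Bd 256 1 1 := by
    have := bd_shiftLeft 256 1 0 (by norm_num); simpa using this
  cases Nat.ble n3 p <;> cases Nat.beq (Nat.mod p 3) 1 <;> cases Nat.beq (Nat.mod p 3) 2 <;>
    simp only [cond_true, cond_false]
  · exact (bd_zero _).mono (by norm_num)
  · exact h1.mono (by norm_num)
  · exact (h2.add hone (by norm_num)).mono (by norm_num)
  · exact (h2.add hone (by norm_num)).mono (by norm_num)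
  all_goals exact (bd_zero _).mono (by norm_num)

theorem negY_bd (p : ℕ) :
    Bd 256 57 (negY n3 p (A (p / 3))) := by
  unfold negY
  simp only [brec]
  have h1 := (at_bd A (p / 3)).1
  have h2 := (at_bd A (p / 3)).2
  cases Nat.ble n3 p <;> cases Nat.beq (Nat.mod p 3) 1 <;> cases Nat.beq (Nat.mod p 3) 2 <;>
    simp only [cond_true, cond_false]
  · exact (bd_zero _).mono (by norm_num)
  · exact h2.mono (by norm_num)
  · exact h1.mono (by norm_num)
  · exact h1.mono (by norm_num)
  all_goals exact (bd_zero _).mono (by norm_num)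

theorem neg_le (hx : x 0 = 1) {p : ℕ}
    (h : ¬ LitT n3 A x p) :
    ev x 0 (negX n3 p (A (p / 3))) ≤ ev x 0 (negY n3 p (A (p / 3))) := by
  unfold negX negY
  simp only [brec]
  have hone : Bd 256 1 1 := by
    have := bd_shiftLeft 256 1 0 (by norm_num); simpa using this
  have e1 : Nat.beq (Nat.mod p 3) 1 = true ↔ p % 3 = 1 := beq_iff
  have e2 : Nat.beq (Nat.mod p 3) 2 = true ↔ p % 3 = 2 := beq_iff
  have e3 : Nat.ble n3 p = true ↔ n3 ≤ p := by rw [Nat.ble_eq]
  cases h3 : Nat.ble n3 p <;> cases h1 : Nat.beq (Nat.mod p 3) 1 <;>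
    cases h2 : Nat.beq (Nat.mod p 3) 2 <;> simp only [cond_true, cond_false]
  · exact le_rfl
  · by_contra hlt
    apply h
    refine ⟨?_, Or.inr ⟨e2.1 h2, ?_⟩⟩
    · by_contra h4; rw [e3.2 (by omega)] at h3; cases h3
    · omega
  · have e4 : ev x 0 (Nat.add (A (p / 3)).2 1) = ev x 0 (A (p / 3)).2 + 1 := by
      have := ev_add (w := 256) x 0 (at_bd A (p / 3)).2 hone (by norm_num) (by norm_num)
      rw [ev_one x hx] at this; exact this
    rw [e4]
    by_contra hlt
    apply h
    refine ⟨?_, Or.inl ⟨e1.1 h1, ?_⟩⟩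
    · by_contra h4; rw [e3.2 (by omega)] at h3; cases h3
    · omega
  · have := e1.1 h1; have := e2.1 h2; omega
  all_goals exact le_rfl

theorem item_sound (hx : x 0 = 1)
    {L R t m : ℕ} {k : ℕ → ℕ → Bool} (hL : Bd 256 4000 L) (hR : Bd 256 4000 R)
    (h : item n3 A L R t m k = true) :
    ∃ t' m', k t' m' = true ∧ (∀ p, m.testBit p = true → m'.testBit p = true) ∧
      (ev x 0 L ≤ ev x 0 R → Sat n3 A x m') := by
  set p := t &&& 65535 with hp
  set g := (t >>> 16) &&& 15 with hg
  have hg15 : g ≤ 15 := Nat.and_le_right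
  have h' : contra (L + g * negX n3 p (A (p / 3))) (R + g * negY n3 p (A (p / 3)))
    (k (t >>> 20) (m ||| (1 <<< p))) = true := h
  have hk := (contra_iff.1 h').2.2
  have hX := (negX_bd (n3 := n3) (A := A) p).mul g (by omega)
  have hY := (negY_bd (n3 := n3) (A := A) p).mul g (by omega)
  refine ⟨_, _, hk, fun q hq => by rw [testBit_lor_shl, hq]; rfl, fun hle => ?_⟩
  by_contra hs
  have hp' : ¬ LitT n3 A x p := fun hp' => hs ⟨p, by rw [testBit_lor_shl]; simp, hp'⟩
  have h1 := neg_le hx hp'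
  have h2 := contra_sound h' x hx ((hR.add hY (by omega)).mono (by omega))
  rw [ev_add (w := 256) x 0 hL hX (by omega) (by norm_num),
    ev_add (w := 256) x 0 hR hY (by omega) (by norm_num),
    ev_mul (w := 256) x 0 (negX_bd (n3 := n3) (A := A) p) g (by omega) (by norm_num),
    ev_mul (w := 256) x 0 (negY_bd (n3 := n3) (A := A) p) g (by omega) (by norm_num)] at h2
  have h3 := Nat.mul_le_mul_left g h1
  omega

theorem accLits_sound (hx : x 0 = 1)
    (n : ℕ) {i t L R m : ℕ} {k : ℕ → ℕ → ℕ → Bool} (hi : i + n ≤ 31)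
    (hL : Bd 256 (855 * i) L) (hR : Bd 256 (855 * i) R)
    (hle : ¬ Sat n3 A x m → ev x 0 L ≤ ev x 0 R)
    (h : accLits n3 A n t L R m k = true) :
    ∃ L' R' m', k L' R' m' = true ∧ Bd 256 26505 R' ∧
      (¬ Sat n3 A x m' → ev x 0 L' ≤ ev x 0 R') := by
  induction n generalizing i t L R m with
  | zero => exact ⟨L, R, m, h, hR.mono (by omega), hle⟩
  | succ n ih =>
    set p := t &&& 65535 with hp
    set g := (t >>> 16) &&& 15 with hg
    have hg15 : g ≤ 15 := Nat.and_le_right
    have h' : accLits n3 A n (t >>> 20) (L + g * negX n3 p (A (p / 3)))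
      (R + g * negY n3 p (A (p / 3))) (m ||| (1 <<< p)) k = true := h
    have hX := ((negX_bd (n3 := n3) (A := A) p).mul g (by omega)).mono (show g * 57 ≤ 855 by omega)
    have hY := ((negY_bd (n3 := n3) (A := A) p).mul g (by omega)).mono (show g * 57 ≤ 855 by omega)
    refine ih (i := i + 1) (by omega) ((hL.add hX (by omega)).mono (by omega))
      ((hR.add hY (by omega)).mono (by omega)) (fun hs => ?_) h'
    have hp' : ¬ LitT n3 A x p := fun hp' => hs ⟨p, by rw [testBit_lor_shl]; simp, hp'⟩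
    have hm : ¬ Sat n3 A x m := fun hm => hs (hm.mono fun q hq => by rw [testBit_lor_shl, hq]; rfl)
    have h1 := neg_le hx hp'
    rw [ev_add (w := 256) x 0 hL hX (by omega) (by norm_num),
      ev_add (w := 256) x 0 hR hY (by omega) (by norm_num),
      ev_mul (w := 256) x 0 (negX_bd (n3 := n3) (A := A) p) g (by omega) (by norm_num),
      ev_mul (w := 256) x 0 (negY_bd (n3 := n3) (A := A) p) g (by omega) (by norm_num)]
    have h3 := Nat.mul_le_mul_left g h1
    have h4 := hle hm
    omega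

end Items

end Pool.Agent.NG5c
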